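import Pool.Agent.TH892.SW.S1

/-!
Sums over pairs `(n, n')` of sums over intervals of products `φ(v) ψ(v + n'² - n²)`: they are small
in absolute value if `ψ` has small exponential sums.
-/

set_option autoImplicit false

namespace Pool.Agent.X40.HLK

open Finset
open Pool.Agent.W110.HV (ES cor cor_sq)

/-- a sum over an interval is bounded by the sums over the cells -/
lemma cells (F : ℕ → ℝ) (G : ℝ) (hF : ∀ k, |F k| ≤ G) (q N a b : ℕ) (hq : 1 ≤ q) (hab : a ≤ b) (hb : b ≤ q * N) :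
    |∑ k ∈ Ico a b, F k| ≤ ∑ t ∈ range N, |∑ k ∈ range q, F (q * t + k)| + 2 * q * G := by
  have hG : 0 ≤ G := (abs_nonneg _).trans (hF 0)
  have h1 : ∀ t : ℕ, ∑ k ∈ range (q * t), F k = ∑ t' ∈ range t, ∑ k ∈ range q, F (q * t' + k) := by
    intro t
    induction t with
    | zero => simp
    | succ t ih => rw [Nat.mul_succ, sum_range_add, ih, sum_range_succ]
  have h2 : ∀ x : ℕ, ∃ R : ℝ, |R| ≤ q * G ∧ ∑ k ∈ range x, F k =
      ∑ t' ∈ range (x / q), ∑ k ∈ range q, F (q * t' + k) + R := by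
    intro x
    refine ⟨∑ k ∈ range (x % q), F (q * (x / q) + k), ?_, ?_⟩
    · refine (abs_sum_le_sum_abs _ _).trans ((sum_le_sum fun k _ => hF _).trans ?_)
      rw [sum_const, card_range, nsmul_eq_mul]
      apply mul_le_mul_of_nonneg_right _ hG
      exact_mod_cast (Nat.mod_lt x (by omega)).le
    · conv_lhs => rw [← Nat.div_add_mod x q]
      rw [sum_range_add, h1]
  obtain ⟨Ra, ha1, ha2⟩ := h2 a
  obtain ⟨Rb, hb1, hb2⟩ := h2 b
  have h3 : ∑ k ∈ Ico a b, F k = ∑ t' ∈ Ico (a / q) (b / q), ∑ k ∈ range q, F (q * t' + k) + (Rb - Ra) := by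
    rw [sum_Ico_eq_sub _ hab, sum_Ico_eq_sub _ (Nat.div_le_div_right hab), ha2, hb2]
    ring
  have h4 : |∑ t' ∈ Ico (a / q) (b / q), ∑ k ∈ range q, F (q * t' + k)| ≤
      ∑ t ∈ range N, |∑ k ∈ range q, F (q * t + k)| := by
    refine (abs_sum_le_sum_abs _ _).trans ?_
    apply sum_le_sum_of_subset_of_nonneg
    · intro t ht
      rw [mem_Ico] at ht
      rw [mem_range]
      have : b / q ≤ N := by
        have := Nat.div_le_div_right (c := q) hb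
        rwa [Nat.mul_div_cancel_left _ (by omega)] at this
      omega
    · intro _ _ _; exact abs_nonneg _
  rw [h3]
  have h5 := abs_add_le (∑ t' ∈ Ico (a / q) (b / q), ∑ k ∈ range q, F (q * t' + k)) (Rb - Ra)
  have h6 := abs_sub Rb Ra
  linarith

/-- the function `φ` on the `t`-th cell -/
noncomputable def cl (Y q t : ℕ) (φ : ℤ → ℝ) (v : ℤ) : ℝ :=
  if -(Y : ℤ) + q * t ≤ v ∧ v < -(Y : ℤ) + q * t + q then φ v else 0

/-- the products, cut off -/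
noncomputable def pr (Y : ℕ) (φ ψ : ℤ → ℝ) (δ : ℤ) (k : ℕ) : ℝ :=
  if -(Y : ℤ) + k ≤ Y ∧ -(Y : ℤ) ≤ -(Y : ℤ) + k + δ ∧ -(Y : ℤ) + k + δ ≤ Y then
    φ (-(Y : ℤ) + k) * ψ (-(Y : ℤ) + k + δ) else 0

lemma pr_cor (Y q t : ℕ) (φ ψ : ℤ → ℝ) (δ : ℤ) :
    cor (-(Y : ℤ)) Y (fun n => (cl Y q t φ n : ℂ)) (fun n => (ψ n : ℂ)) (-δ) =
      ((∑ k ∈ range q, pr Y φ ψ δ (q * t + k) : ℝ) : ℂ) := by
  unfold cor
  push_cast
  have h1 : ∀ n ∈ Icc (-(Y : ℤ)) Y, (∑ m ∈ Icc (-(Y : ℤ)) Y, if n - m = -δ then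
      (cl Y q t φ n : ℂ) * (starRingEnd ℂ) (ψ m : ℂ) else 0) =
      if n + δ ∈ Icc (-(Y : ℤ)) Y then (cl Y q t φ n : ℂ) * (ψ (n + δ) : ℂ) else 0 := by
    intro n _
    have h2 : ∀ m ∈ Icc (-(Y : ℤ)) Y, (if n - m = -δ then
      (cl Y q t φ n : ℂ) * (starRingEnd ℂ) (ψ m : ℂ) else 0) = if m = n + δ then
      (cl Y q t φ n : ℂ) * (ψ m : ℂ) else 0 := by
      intro m _
      rw [Complex.conj_ofReal]
      by_cases h : m = n + δ
      · rw [if_pos h, if_pos (by rw [h]; ring)]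
      · rw [if_neg h, if_neg (fun h' => h (by linarith))]
    rw [sum_congr rfl h2, sum_ite_eq']
  rw [sum_congr rfl h1]
  have h3 : ∑ k ∈ range q, ((pr Y φ ψ δ (q * t + k) : ℝ) : ℂ) =
      ∑ k ∈ (range q).filter (fun k : ℕ => -(Y : ℤ) + ((q * t + k : ℕ) : ℤ) ≤ Y), ((pr Y φ ψ δ (q * t + k) : ℝ) : ℂ) := by
    symm
    apply sum_filter_of_ne
    intro k _ hk
    by_contra hc
    apply hk
    unfold pr
    rw [if_neg (fun h => hc h.1), Complex.ofReal_zero]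
  rw [h3]
  symm
  apply sum_of_injOn (fun k : ℕ => -(Y : ℤ) + ((q * t + k : ℕ) : ℤ))
  · intro a _ b _ hab
    simp only [add_right_inj, Nat.cast_inj] at hab
    omega
  · intro k hk
    rw [mem_coe, mem_filter] at hk
    rw [mem_coe, mem_Icc]
    exact ⟨by simp only; omega, hk.2⟩
  · intro n hn hn2
    rw [mem_Icc] at hn
    have hcl0 : cl Y q t φ n = 0 := by
      unfold cl
      rw [if_neg]
      rintro ⟨h4, h5⟩
      apply hn2
      refine ⟨(n + Y - q * t).toNat, ?_, ?_⟩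
      · rw [mem_coe, mem_filter, mem_range]
        constructor
        · omega
        · push_cast
          rw [Int.toNat_of_nonneg (by linarith)]
          linarith
      · simp only
        push_cast
        rw [Int.toNat_of_nonneg (by linarith)]
        ring
    simp [hcl0]
  · intro k hk
    rw [mem_filter, mem_range] at hk
    have hk2 : -(Y : ℤ) + (q * t + k : ℕ) = -(Y : ℤ) + q * t + k := by push_cast; ring
    have hcl : cl Y q t φ (-(Y : ℤ) + (q * t + k : ℕ)) = φ (-(Y : ℤ) + (q * t + k : ℕ)) := by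
      unfold cl
      rw [if_pos]
      rw [hk2]
      have : (k : ℤ) < q := by exact_mod_cast hk.1
      constructor <;> linarith [Int.natCast_nonneg k]
    unfold pr
    simp only [mem_Icc]
    rw [hcl]
    by_cases h : -(Y : ℤ) ≤ -(Y : ℤ) + ((q * t + k : ℕ) : ℤ) + δ ∧ -(Y : ℤ) + ((q * t + k : ℕ) : ℤ) + δ ≤ Y
    · rw [if_pos ⟨hk.2, h⟩, if_pos h]
      push_cast
      ring
    · rw [if_neg (fun h' => h h'.2), if_neg h, Complex.ofReal_zero]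

/-- the products are the values in the interval -/
lemma pr_interval (Y : ℕ) (φ ψ : ℤ → ℝ) (δ a b : ℤ) (hab : a ≤ b + 1)
    (hI : ∀ v, a ≤ v → v ≤ b → -(Y : ℤ) ≤ v ∧ v ≤ Y ∧ -(Y : ℤ) ≤ v + δ ∧ v + δ ≤ Y) (ha : -(Y : ℤ) ≤ a) :
    ∑ v ∈ Icc a b, φ v * ψ (v + δ) = ∑ k ∈ Ico (a + Y).toNat (b + 1 + Y).toNat, pr Y φ ψ δ k := by
  refine sum_nbij' (fun v => (v + Y).toNat) (fun k => -(Y : ℤ) + k) ?_ ?_ ?_ ?_ ?_
  · intro v hv
    rw [mem_Icc] at hv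
    rw [mem_Ico]
    omega
  · intro k hk
    rw [mem_Ico] at hk
    rw [mem_Icc]
    omega
  · intro v hv
    rw [mem_Icc] at hv
    omega
  · intro k hk
    rw [mem_Ico] at hk
    omega
  · intro v hv
    rw [mem_Icc] at hv
    obtain ⟨h1, h2, h3, h4⟩ := hI v hv.1 hv.2
    have e : -(Y : ℤ) + ((v + Y).toNat : ℤ) = v := by omega
    unfold pr
    rw [e, if_pos ⟨h2, h3, h4⟩]

/-- number of representations, weighted -/
lemma rep_sum (M Y : ℕ) (hY : 1 ≤ Y) (P : Finset (ℕ × ℕ)) (hP : P ⊆ Icc 1 M ×ˢ Icc 1 M)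
    (hne : ∀ p ∈ P, p.1 ≠ p.2) (hY2 : ∀ p ∈ P, |(p.2 : ℤ) ^ 2 - (p.1 : ℤ) ^ 2| ≤ Y)
    (c : ℤ → ℝ) (W : ℝ) (hc : ∀ h, 0 ≤ c h) (hW : ∑ h ∈ Icc (-(Y : ℤ)) Y, c h ^ 2 ≤ W) :
    ∑ p ∈ P, c ((p.2 : ℤ) ^ 2 - (p.1 : ℤ) ^ 2) ≤ √(2 * (Y * (1 + Real.log Y) ^ 4)) * √W := by
  classical
  set I := (Icc (-(Y : ℤ)) Y).filter (fun h => h ≠ 0) with hI
  have hmap : ∀ p ∈ P, ((p.2 : ℤ) ^ 2 - (p.1 : ℤ) ^ 2) ∈ I := by
    intro p hp
    rw [hI, mem_filter, mem_Icc]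
    refine ⟨abs_le.1 (hY2 p hp), fun h => hne p hp ?_⟩
    have h7 : (p.2 : ℤ) ^ 2 = (p.1 : ℤ) ^ 2 := by linarith
    have h8 : p.2 ^ 2 = p.1 ^ 2 := by exact_mod_cast h7
    exact (Nat.pow_left_injective (by norm_num) h8).symm
  rw [← sum_fiberwise_of_maps_to hmap]
  have h1 : ∀ h ∈ I, ∑ p ∈ P.filter (fun p => (p.2 : ℤ) ^ 2 - (p.1 : ℤ) ^ 2 = h), c ((p.2 : ℤ) ^ 2 - (p.1 : ℤ) ^ 2) ≤
      (h.natAbs.divisors.card : ℝ) * c h := by
    intro h hh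
    rw [hI, mem_filter] at hh
    have e : ∀ p ∈ P.filter (fun p => (p.2 : ℤ) ^ 2 - (p.1 : ℤ) ^ 2 = h), c ((p.2 : ℤ) ^ 2 - (p.1 : ℤ) ^ 2) = c h := by
      intro p hp
      rw [(mem_filter.1 hp).2]
    rw [sum_congr rfl e, sum_const, nsmul_eq_mul]
    apply mul_le_mul_of_nonneg_right _ (hc h)
    have h5 := Pool.Agent.TH892.SW.fiber_le 1 (Or.inl rfl) M h hh.2
    have h6 : P.filter (fun p => (p.2 : ℤ) ^ 2 - (p.1 : ℤ) ^ 2 = h) ⊆
        ((Icc 1 M) ×ˢ (Icc 1 M)).filter (fun p : ℕ × ℕ => 1 * ((p.2 : ℤ) ^ 2 - (p.1 : ℤ) ^ 2) = h) := by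
      intro p hp
      rw [mem_filter] at hp
      exact mem_filter.2 ⟨hP hp.1, by rw [one_mul]; exact hp.2⟩
    exact_mod_cast (card_le_card h6).trans h5
  refine (sum_le_sum h1).trans ?_
  have h5 := Real.sum_mul_le_sqrt_mul_sqrt I (fun h : ℤ => (h.natAbs.divisors.card : ℝ)) c
  refine h5.trans ?_
  apply mul_le_mul _ _ (Real.sqrt_nonneg _) (Real.sqrt_nonneg _)
  · apply Real.sqrt_le_sqrt
    have h6 := Pool.Agent.TH892.SW.div_sq Y
    have h7 : ∑ h ∈ I, (h.natAbs.divisors.card : ℝ) ^ 2 ≤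
        ∑ j ∈ ({1, -1} : Finset ℤ) ×ˢ Icc 1 Y, ((j.2.divisors.card : ℕ) : ℝ) ^ 2 := by
      have h8 : ∀ h ∈ I, (h.natAbs.divisors.card : ℝ) ^ 2 =
          (fun j : ℤ × ℕ => ((j.2.divisors.card : ℕ) : ℝ) ^ 2) (h.sign, h.natAbs) := by
        intro h _; rfl
      rw [sum_congr rfl h8, ← sum_image (s := I) (g := fun h : ℤ => (h.sign, h.natAbs))
        (f := fun j : ℤ × ℕ => ((j.2.divisors.card : ℕ) : ℝ) ^ 2)]
      · apply sum_le_sum_of_subset_of_nonneg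
        · intro j hj
          rw [mem_image] at hj
          obtain ⟨h, hh, rfl⟩ := hj
          rw [hI, mem_filter, mem_Icc] at hh
          rw [mem_product, mem_insert, mem_singleton, mem_Icc]
          refine ⟨?_, by omega, by omega⟩
          rcases lt_trichotomy h 0 with h9 | h9 | h9
          · right; exact Int.sign_eq_neg_one_of_neg h9
          · exact absurd h9 hh.2
          · left; exact Int.sign_eq_one_of_pos h9
        · intro _ _ _; positivity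
      · intro h _ h' _ he
        rw [Prod.mk.injEq] at he
        rw [← Int.sign_mul_natAbs h, ← Int.sign_mul_natAbs h', he.1, he.2]
    refine h7.trans ?_
    rw [sum_product]
    simp only []
    rw [sum_const, show #({1, -1} : Finset ℤ) = 2 from rfl, nsmul_eq_mul]
    push_cast
    linarith
  · apply Real.sqrt_le_sqrt
    refine le_trans ?_ hW
    exact sum_le_sum_of_subset_of_nonneg (filter_subset _ _) (fun _ _ _ => sq_nonneg _)

/-- **The pair sum.** -/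
theorem pairs (M Y q : ℕ) (hq : 1 ≤ q) (hqY : q ≤ Y) (φ ψ : ℤ → ℝ) (Z G : ℝ) (hZ : 0 ≤ Z) (hG : 0 ≤ G)
    (hφ : ∀ v, |φ v| ≤ G) (hψ : ∀ v, |ψ v| ≤ G)
    (hsup : ∀ α : ℝ, ‖ES (-(Y : ℤ)) Y (fun n => (ψ n : ℂ)) α‖ ≤ Z)
    (P : Finset (ℕ × ℕ)) (hP : P ⊆ Icc 1 M ×ˢ Icc 1 M) (hne : ∀ p ∈ P, p.1 ≠ p.2) (a b : ℕ × ℕ → ℤ)
    (hI : ∀ p ∈ P, ∀ v, a p ≤ v → v ≤ b p → -(Y : ℤ) ≤ v ∧ v ≤ Y ∧
      -(Y : ℤ) ≤ v + ((p.2 : ℤ) ^ 2 - (p.1 : ℤ) ^ 2) ∧ v + ((p.2 : ℤ) ^ 2 - (p.1 : ℤ) ^ 2) ≤ Y) :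
    ∑ p ∈ P, |∑ v ∈ Icc (a p) (b p), φ v * ψ (v + ((p.2 : ℤ) ^ 2 - (p.1 : ℤ) ^ 2))| ≤
      8 * Y * √(Y / q) * (1 + Real.log (2 * Y)) ^ 2 * Z * G + 2 * q * G ^ 2 * #P := by
  classical
  obtain ⟨N, hN⟩ : ∃ N : ℕ, N = (2 * Y + 1) / q + 1 := ⟨_, rfl⟩
  have hqN : 2 * Y + 1 ≤ q * N := by
    rw [hN]
    have := Nat.div_add_mod (2 * Y + 1) q
    have h2 := Nat.mod_lt (2 * Y + 1) (show q > 0 by omega)
    nlinarith
  have hq0 : (0 : ℝ) < q := by exact_mod_cast hq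
  have hY1 : 1 ≤ Y := hq.trans hqY
  have hY0 : (0 : ℝ) < Y := by exact_mod_cast hY1
  have hqYr : (q : ℝ) ≤ Y := by exact_mod_cast hqY
  have hNle : (N : ℝ) ≤ 4 * Y / q := by
    rw [hN]
    push_cast
    have h1 : (((2 * Y + 1) / q : ℕ) : ℝ) ≤ ((2 * Y + 1 : ℕ) : ℝ) / q := Nat.cast_div_le
    push_cast at h1
    have h2 : (1 : ℝ) ≤ Y / q := by rwa [one_le_div hq0]
    have h3 : (2 * (Y : ℝ) + 1) / q ≤ 3 * Y / q := by
      apply div_le_div_of_nonneg_right _ hq0.le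
      have : (1 : ℝ) ≤ Y := by exact_mod_cast hY1
      linarith
    have h4 : 4 * (Y : ℝ) / q = 3 * Y / q + Y / q := by ring
    linarith
  set P' := P.filter (fun p => a p ≤ b p) with hP'
  have hprG : ∀ (δ : ℤ) (k : ℕ), |pr Y φ ψ δ k| ≤ G ^ 2 := by
    intro δ k
    unfold pr
    split_ifs
    · rw [abs_mul, sq]
      exact mul_le_mul (hφ _) (hψ _) (abs_nonneg _) hG
    · rw [abs_zero]; positivity
  have h1 : ∑ p ∈ P, |∑ v ∈ Icc (a p) (b p), φ v * ψ (v + ((p.2 : ℤ) ^ 2 - (p.1 : ℤ) ^ 2))| =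
      ∑ p ∈ P', |∑ v ∈ Icc (a p) (b p), φ v * ψ (v + ((p.2 : ℤ) ^ 2 - (p.1 : ℤ) ^ 2))| := by
    symm
    apply sum_filter_of_ne
    intro p _ hp
    by_contra hc
    apply hp
    rw [Icc_eq_empty (by omega), sum_empty, abs_zero]
  rw [h1]
  have h2 : ∀ p ∈ P', |∑ v ∈ Icc (a p) (b p), φ v * ψ (v + ((p.2 : ℤ) ^ 2 - (p.1 : ℤ) ^ 2))| ≤
      ∑ t ∈ range N, |∑ k ∈ range q, pr Y φ ψ ((p.2 : ℤ) ^ 2 - (p.1 : ℤ) ^ 2) (q * t + k)| + 2 * q * G ^ 2 := by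
    intro p hp
    rw [hP', mem_filter] at hp
    have h3 := hI p hp.1
    have h4 := h3 (a p) le_rfl hp.2
    have h5 := h3 (b p) hp.2 le_rfl
    rw [pr_interval Y φ ψ _ (a p) (b p) (by omega) h3 h4.1]
    apply cells _ _ (hprG _) q N _ _ hq (by omega)
    refine le_trans ?_ hqN
    omega
  have h3 : ∀ t ∈ range N, ∑ p ∈ P', |∑ k ∈ range q, pr Y φ ψ ((p.2 : ℤ) ^ 2 - (p.1 : ℤ) ^ 2) (q * t + k)| ≤
      2 * √Y * (1 + Real.log (2 * Y)) ^ 2 * (Z * √q * G) := by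
    intro t _
    have h4 := rep_sum M (2 * Y) (by omega) P' ((filter_subset _ _).trans hP)
      (fun p hp => hne p (mem_filter.1 hp).1) (by
        intro p hp
        rw [hP', mem_filter] at hp
        have h3 := hI p hp.1
        have h4 := h3 (a p) le_rfl hp.2
        rw [abs_le]
        push_cast
        constructor <;> linarith [h4.1, h4.2.1, h4.2.2.1, h4.2.2.2])
      (fun h => |∑ k ∈ range q, pr Y φ ψ h (q * t + k)|) (Z ^ 2 * (q * G ^ 2)) (fun h => abs_nonneg _) (by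
        have e1 : ∀ h : ℤ, |∑ k ∈ range q, pr Y φ ψ h (q * t + k)| ^ 2 =
            ‖cor (-(Y : ℤ)) Y (fun n => (cl Y q t φ n : ℂ)) (fun n => (ψ n : ℂ)) (-h)‖ ^ 2 := by
          intro h
          rw [pr_cor, Complex.norm_real, Real.norm_eq_abs]
        simp_rw [e1]
        have e2 : ∑ h ∈ Icc (-((2 * Y : ℕ) : ℤ)) ((2 * Y : ℕ) : ℤ),
            ‖cor (-(Y : ℤ)) Y (fun n => (cl Y q t φ n : ℂ)) (fun n => (ψ n : ℂ)) (-h)‖ ^ 2 =
            ∑ h ∈ Icc (-((Y : ℤ) - (-(Y : ℤ)))) ((Y : ℤ) - (-(Y : ℤ))),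
            ‖cor (-(Y : ℤ)) Y (fun n => (cl Y q t φ n : ℂ)) (fun n => (ψ n : ℂ)) h‖ ^ 2 := by
          refine sum_nbij' (fun h => -h) (fun h => -h) ?_ ?_ ?_ ?_ ?_
          · intro h hh
            rw [mem_Icc] at hh ⊢
            push_cast at hh
            constructor <;> linarith
          · intro h hh
            rw [mem_Icc] at hh ⊢
            push_cast
            constructor <;> linarith
          · intro h _; ring
          · intro h _; ring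
          · intro h _; rfl
        rw [e2]
        refine (cor_sq _ _ _ _ Z hsup).trans ?_
        apply mul_le_mul_of_nonneg_left _ (sq_nonneg _)
        calc ∑ n ∈ Icc (-(Y : ℤ)) Y, ‖(cl Y q t φ n : ℂ)‖ ^ 2
            ≤ ∑ n ∈ Icc (-(Y : ℤ)) Y, if n ∈ Ico (-(Y : ℤ) + q * t) (-(Y : ℤ) + q * t + q) then G ^ 2 else 0 := by
              refine sum_le_sum fun n _ => ?_
              rw [Complex.norm_real, Real.norm_eq_abs, sq_abs]
              unfold cl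
              by_cases h : -(Y : ℤ) + q * t ≤ n ∧ n < -(Y : ℤ) + q * t + q
              · rw [if_pos h, if_pos (mem_Ico.2 h), ← sq_abs]
                exact pow_le_pow_left₀ (abs_nonneg _) (hφ n) 2
              · rw [if_neg h, if_neg (fun h' => h (mem_Ico.1 h'))]
                simp
          _ = ∑ _n ∈ (Icc (-(Y : ℤ)) Y).filter (fun n => n ∈ Ico (-(Y : ℤ) + q * t) (-(Y : ℤ) + q * t + q)), G ^ 2 := by
              rw [sum_filter]
          _ ≤ ∑ _n ∈ Ico (-(Y : ℤ) + q * t) (-(Y : ℤ) + q * t + q), G ^ 2 := by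
              apply sum_le_sum_of_subset_of_nonneg
              · intro n hn
                exact (mem_filter.1 hn).2
              · intro _ _ _; positivity
          _ = q * G ^ 2 := by
              rw [sum_const, Int.card_Ico, nsmul_eq_mul]
              congr 1
              rw [add_sub_cancel_left, Int.toNat_natCast])
    refine h4.trans (le_of_eq ?_)
    have hl : 0 ≤ 1 + Real.log (2 * Y) := by
      have : 0 ≤ Real.log (2 * (Y : ℝ)) := Real.log_nonneg (by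
        have : (1 : ℝ) ≤ Y := by exact_mod_cast hY1
        linarith)
      linarith
    have e3 : 2 * (((2 * Y : ℕ) : ℝ) * (1 + Real.log ((2 * Y : ℕ) : ℝ)) ^ 4) = (2 * √Y * (1 + Real.log (2 * Y)) ^ 2) ^ 2 := by
      push_cast
      have : √(Y : ℝ) ^ 2 = Y := Real.sq_sqrt hY0.le
      calc 2 * (2 * (Y : ℝ) * (1 + Real.log (2 * Y)) ^ 4) = 4 * (Y : ℝ) * (1 + Real.log (2 * Y)) ^ 4 := by ring
        _ = 4 * √(Y : ℝ) ^ 2 * (1 + Real.log (2 * Y)) ^ 4 := by rw [this]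
        _ = _ := by ring
    have e4 : Z ^ 2 * (q * G ^ 2) = (Z * √q * G) ^ 2 := by
      have : √(q : ℝ) ^ 2 = q := Real.sq_sqrt hq0.le
      calc Z ^ 2 * (q * G ^ 2) = Z ^ 2 * (√(q : ℝ) ^ 2 * G ^ 2) := by rw [this]
        _ = _ := by ring
    rw [e3, e4, Real.sqrt_sq (by positivity), Real.sqrt_sq (by positivity)]
  have h4 : ∑ p ∈ P', ∑ t ∈ range N, |∑ k ∈ range q, pr Y φ ψ ((p.2 : ℤ) ^ 2 - (p.1 : ℤ) ^ 2) (q * t + k)| ≤
      N * (2 * √Y * (1 + Real.log (2 * Y)) ^ 2 * (Z * √q * G)) := by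
    rw [sum_comm]
    refine (sum_le_sum h3).trans (le_of_eq ?_)
    rw [sum_const, card_range, nsmul_eq_mul]
  have hl : 0 ≤ 1 + Real.log (2 * Y) := by
    have : 0 ≤ Real.log (2 * (Y : ℝ)) := Real.log_nonneg (by
      have : (1 : ℝ) ≤ Y := by exact_mod_cast hY1
      linarith)
    linarith
  have h5 : (N : ℝ) * (2 * √Y * (1 + Real.log (2 * Y)) ^ 2 * (Z * √q * G)) ≤
      8 * Y * √(Y / q) * (1 + Real.log (2 * Y)) ^ 2 * Z * G := by
    have e5 : √((Y : ℝ) / q) = √Y * √q / q := by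
      rw [Real.sqrt_div hY0.le, div_eq_div_iff (Real.sqrt_pos.2 hq0).ne' hq0.ne']
      calc √(Y : ℝ) * q = √Y * (√(q : ℝ) * √q) := by rw [Real.mul_self_sqrt hq0.le]
        _ = _ := by ring
    calc (N : ℝ) * (2 * √Y * (1 + Real.log (2 * Y)) ^ 2 * (Z * √q * G)) ≤
        (4 * Y / q) * (2 * √Y * (1 + Real.log (2 * Y)) ^ 2 * (Z * √q * G)) :=
          mul_le_mul_of_nonneg_right hNle (by positivity)
      _ = 8 * Y * (√Y * √q / q) * (1 + Real.log (2 * Y)) ^ 2 * Z * G := by ring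
      _ = _ := by rw [e5]
  have h6 : (#P' : ℝ) * (2 * q * G ^ 2) ≤ 2 * q * G ^ 2 * #P := by
    have : (#P' : ℝ) ≤ #P := by exact_mod_cast card_le_card (filter_subset _ _)
    nlinarith [mul_nonneg (mul_nonneg (by norm_num : (0:ℝ) ≤ 2) hq0.le) (sq_nonneg G)]
  calc ∑ p ∈ P', |∑ v ∈ Icc (a p) (b p), φ v * ψ (v + ((p.2 : ℤ) ^ 2 - (p.1 : ℤ) ^ 2))|
      ≤ ∑ p ∈ P', (∑ t ∈ range N, |∑ k ∈ range q, pr Y φ ψ ((p.2 : ℤ) ^ 2 - (p.1 : ℤ) ^ 2) (q * t + k)| + 2 * q * G ^ 2) :=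
        sum_le_sum h2
    _ = ∑ p ∈ P', ∑ t ∈ range N, |∑ k ∈ range q, pr Y φ ψ ((p.2 : ℤ) ^ 2 - (p.1 : ℤ) ^ 2) (q * t + k)| +
        #P' * (2 * q * G ^ 2) := by
        rw [sum_add_distrib, sum_const, nsmul_eq_mul]
    _ ≤ _ := by linarith

end Pool.Agent.X40.HLK
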