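import Pool.Agent.X40.HLK.E9

/-!
The main theorem on simultaneous primes.
-/

set_option autoImplicit false

namespace Pool.Agent.X40.HLK

open Finset Filter Topology
open Pool.Agent.H373R2.T7 (pz Vz lamz mem_pz Vz_inv_small Vz_pos)
open Pool.Agent.H442R2.EHI (evt_log_pow evt_log_ge)
open Pool.Agent.TH892.SW (HP hK_most)
open Pool.Agent.TH892.OW (evt_ll)

lemma P1_prod {k : ℕ} (K : Fin k → ℤ) (m N : ℕ) :
    ∑ n ∈ Ioc m N, ∏ i, P1 ((n : ℤ) ^ 2 - K i) =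
      (((Ioc m N).filter (fun n : ℕ => ∀ i, ((n : ℤ) ^ 2 - K i).natAbs.Prime)).card : ℝ) := by
  classical
  rw [card_filter]
  push_cast
  refine sum_congr rfl fun n _ => ?_
  by_cases h : ∀ i, ((n : ℤ) ^ 2 - K i).natAbs.Prime
  · rw [if_pos h]
    apply prod_eq_one
    intro i _
    unfold P1
    rw [if_pos (h i)]
  · rw [if_neg h]
    push Not at h
    obtain ⟨i, hi⟩ := h
    apply prod_eq_zero (mem_univ i)
    unfold P1
    rw [if_neg hi]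

/-- the set of bad single values -/
lemma badT (X : ℕ) (L : ℝ) (W : ℕ) (Bh : Finset ℕ) (hL : 0 < L) (hBh : (#Bh : ℝ) ≤ X / L ^ W)
    (hX : √(X : ℝ) + 1 ≤ X / L ^ W) : ∃ T : Finset ℤ, (#T : ℝ) ≤ 3 * (X / L ^ W) ∧
    ∀ K : ℤ, 1 ≤ K → K ≤ X → K ∉ T → K.toNat ∈ Icc 1 X ∧ K.toNat ∉ Bh ∧ (X : ℝ) / L ^ W ≤ K ∧ ¬ IsSquare K := by
  classical
  refine ⟨Bh.image (fun n : ℕ => (n : ℤ)) ∪ ((Icc 1 ⌊(X : ℝ) / L ^ W⌋₊).image (fun n : ℕ => (n : ℤ)) ∪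
    (range (Nat.sqrt X + 1)).image (fun n : ℕ => (n : ℤ) ^ 2)), ?_, ?_⟩
  · have h1 : #(Bh.image (fun n : ℕ => (n : ℤ)) ∪ ((Icc 1 ⌊(X : ℝ) / L ^ W⌋₊).image (fun n : ℕ => (n : ℤ)) ∪
        (range (Nat.sqrt X + 1)).image (fun n : ℕ => (n : ℤ) ^ 2))) ≤ #Bh + (⌊(X : ℝ) / L ^ W⌋₊ + (Nat.sqrt X + 1)) := by
      refine (card_union_le _ _).trans (add_le_add card_image_le ((card_union_le _ _).trans (add_le_add ?_ ?_)))
      · refine card_image_le.trans (le_of_eq ?_)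
        rw [Nat.card_Icc]; omega
      · refine card_image_le.trans (le_of_eq ?_)
        rw [card_range]
    have h2 : ((#(Bh.image (fun n : ℕ => (n : ℤ)) ∪ ((Icc 1 ⌊(X : ℝ) / L ^ W⌋₊).image (fun n : ℕ => (n : ℤ)) ∪
        (range (Nat.sqrt X + 1)).image (fun n : ℕ => (n : ℤ) ^ 2))) : ℕ) : ℝ) ≤
        #Bh + (⌊(X : ℝ) / L ^ W⌋₊ + (Nat.sqrt X + 1)) := by exact_mod_cast h1
    refine h2.trans ?_
    have h3 := Nat.floor_le (show 0 ≤ (X : ℝ) / L ^ W by positivity)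
    have h4 : (Nat.sqrt X : ℝ) ≤ √(X : ℝ) := by
      apply Real.le_sqrt_of_sq_le
      exact_mod_cast Nat.sqrt_le' X
    linarith
  · intro K hK1 hKX hKT
    rw [mem_union, mem_union] at hKT
    push Not at hKT
    obtain ⟨h1, h2, h3⟩ := hKT
    have hn : ((K.toNat : ℕ) : ℤ) = K := Int.toNat_of_nonneg (by omega)
    refine ⟨?_, ?_, ?_, ?_⟩
    · rw [mem_Icc]; omega
    · intro hc
      exact h1 (mem_image.2 ⟨K.toNat, hc, hn⟩)
    · by_contra hc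
      push Not at hc
      apply h2
      rw [mem_image]
      refine ⟨K.toNat, ?_, hn⟩
      rw [mem_Icc]
      refine ⟨by omega, ?_⟩
      apply Nat.le_floor
      have : ((K.toNat : ℕ) : ℝ) = (K : ℝ) := by exact_mod_cast congrArg (fun x : ℤ => (x : ℝ)) hn
      rw [this]
      exact hc.le
    · rintro ⟨r, hr⟩
      apply h3
      rw [mem_image]
      refine ⟨r.natAbs, ?_, ?_⟩
      · rw [mem_range, Nat.lt_succ_iff, Nat.le_sqrt]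
        have h4 : ((r.natAbs * r.natAbs : ℕ) : ℤ) = K := by
          push_cast
          rw [← sq, sq_abs, hr, sq]
        have h5 : ((r.natAbs * r.natAbs : ℕ) : ℤ) ≤ X := by rw [h4]; exact hKX
        exact_mod_cast h5
      · rw [Int.natCast_natAbs, sq_abs, hr, sq]

/-- the tuples with a bad member -/
lemma badBx (k X D : ℕ) (hk : 1 ≤ k) (hD : 1 ≤ D) (L : ℝ) (W : ℕ) (hL : 1 ≤ L) (hLk : (k : ℝ) * 3 ^ k ≤ L) (T : Finset ℤ)
    (hT : (#T : ℝ) ≤ 3 * (X / L ^ (W + 1))) : ∃ Bx : Finset (Fin k → ℤ), (#Bx : ℝ) ≤ X * (D : ℝ) ^ (k - 1) / L ^ W ∧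
    ∀ K : Fin k → ℤ, (∀ i, 1 ≤ K i) → (∀ i, K i ≤ X) → (∀ i j, |K i - K j| ≤ D) → K ∉ Bx → ∀ i, K i ∉ T := by
  classical
  obtain ⟨Bx, hBx⟩ : ∃ Bx : Finset (Fin k → ℤ), Bx = (Fintype.piFinset (fun _ : Fin k => Icc (1 : ℤ) X)).filter
    (fun K : Fin k → ℤ => (∃ i, K i ∈ T) ∧ ∀ i j, |K i - K j| ≤ (D : ℤ)) := ⟨_, rfl⟩
  refine ⟨Bx, ?_, ?_⟩
  · have h1 := box_count (k := k) D T Bx (by
      intro K hK
      rw [hBx, mem_filter] at hK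
      obtain ⟨-, ⟨i, hi⟩, h2⟩ := hK
      exact ⟨i, hi, fun j => h2 j i⟩)
    have h2 : ((#Bx : ℕ) : ℝ) ≤ k * #T * (2 * D + 1) ^ (k - 1) := by exact_mod_cast h1
    refine h2.trans ?_
    have hDr : (1 : ℝ) ≤ D := by exact_mod_cast hD
    have h3 : (2 * (D : ℝ) + 1) ^ (k - 1) ≤ (3 * D) ^ (k - 1) := pow_le_pow_left₀ (by positivity) (by linarith) _
    calc (k : ℝ) * #T * (2 * D + 1) ^ (k - 1) ≤ k * (3 * (X / L ^ (W + 1))) * (3 * D) ^ (k - 1) := by gcongr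
      _ = (k * 3 ^ k) * (X * (D : ℝ) ^ (k - 1) / L ^ (W + 1)) := by
          obtain ⟨k', rfl⟩ : ∃ k', k = k' + 1 := ⟨k - 1, by omega⟩
          rw [Nat.add_sub_cancel, mul_pow, pow_succ 3 k']
          ring
      _ ≤ L * (X * (D : ℝ) ^ (k - 1) / L ^ (W + 1)) := by
          apply mul_le_mul_of_nonneg_right hLk (by positivity)
      _ = _ := by
          have hL0 : 0 < L := by linarith
          rw [pow_succ L W]
          field_simp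
  · intro K h1 h2 h3 hKB i hi
    apply hKB
    rw [hBx, mem_filter, Fintype.mem_piFinset]
    exact ⟨fun j => mem_Icc.2 ⟨h1 j, h2 j⟩, ⟨i, hi⟩, h3⟩

lemma kap (k : ℕ) (hk1 : (1 : ℝ) ≤ k) (L z ε : ℝ) (hL : 10000 ≤ L) (hz : L ^ 2 / 2 ≤ z) (hLk : 1088 * (k : ℝ) ^ 3 ≤ L * ε) :
    2 * (k * (2 * (1 / L)) + (8 * (k : ℝ) ^ 2 + 8 * k ^ 3 * L) / z) ≤ ε / 16 := by
  have hL0 : 0 < L := by linarith
  have hz0 : 0 < z := lt_of_lt_of_le (by positivity) hz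
  have h1 : (8 * (k : ℝ) ^ 2 + 8 * k ^ 3 * L) / z ≤ 32 * k ^ 3 / L := by
    rw [div_le_div_iff₀ hz0 hL0]
    have h2 : 8 * (k : ℝ) ^ 2 ≤ 8 * k ^ 3 * L := by
      have : (k : ℝ) ^ 2 ≤ k ^ 3 := pow_le_pow_right₀ hk1 (by norm_num)
      have : (0 : ℝ) ≤ (k : ℝ) ^ 3 := by positivity
      nlinarith
    have h3 : 0 ≤ (k : ℝ) ^ 3 := by positivity
    have h4 : (8 * (k : ℝ) ^ 2 + 8 * k ^ 3 * L) * L ≤ (16 * k ^ 3 * L) * L :=
      mul_le_mul_of_nonneg_right (by linarith) hL0.le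
    have h5 : (32 * (k : ℝ) ^ 3) * (L ^ 2 / 2) ≤ 32 * (k : ℝ) ^ 3 * z := mul_le_mul_of_nonneg_left hz (by positivity)
    linarith
  have h2 : (k : ℝ) * (2 * (1 / L)) ≤ 2 * k ^ 3 / L := by
    have h3 : (k : ℝ) ≤ (k : ℝ) ^ 3 := le_self_pow₀ hk1 (by norm_num)
    calc (k : ℝ) * (2 * (1 / L)) = 2 * k / L := by ring
      _ ≤ 2 * k ^ 3 / L := by gcongr
  have h3 : 2 * (k * (2 * (1 / L)) + (8 * (k : ℝ) ^ 2 + 8 * k ^ 3 * L) / z) ≤ 68 * k ^ 3 / L := by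
    have : (68 : ℝ) * k ^ 3 / L = 2 * (2 * k ^ 3 / L + 32 * k ^ 3 / L) := by ring
    rw [this]
    linarith
  refine h3.trans ?_
  rw [div_le_iff₀ hL0]
  linarith

lemma zfacts (L : ℝ) (E z : ℕ) (hL : 10000 ≤ L) (hE : 2 ≤ E) (hz : z = ⌊L ^ E⌋₊) :
    (z : ℝ) ≤ L ^ E ∧ L ^ 2 / 2 ≤ z ∧ L ≤ z := by
  have hL1 : 1 ≤ L := by linarith
  have hLE : L ^ 2 ≤ L ^ E := pow_le_pow_right₀ hL1 hE
  have hzle : (z : ℝ) ≤ L ^ E := by rw [hz]; exact Nat.floor_le (by positivity)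
  have hzge : L ^ 2 / 2 ≤ z := by
    have h1 := Nat.lt_floor_add_one (L ^ E)
    rw [← hz] at h1
    nlinarith
  exact ⟨hzle, hzge, by nlinarith⟩

lemma zbf (L g z : ℝ) (k E m B Cg : ℕ) (hL : 10000 ≤ L) (hz0 : 0 ≤ z) (hz : z ≤ L ^ E) (hB : 4 * k + 2 + E * m ≤ B - Cg)
    (hg : L ^ (B - Cg) / 2 ≤ g) : L ^ (4 * k + 1) * z ^ m ≤ g := by
  have hL1 : 1 ≤ L := by linarith
  have hL0 : 0 < L := by linarith
  refine le_trans ?_ hg
  have h1 : z ^ m ≤ L ^ (E * m) := by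
    rw [pow_mul L E]
    exact pow_le_pow_left₀ hz0 hz _
  have h2 : L ^ (4 * k + 1 + E * m + 1) ≤ L ^ (B - Cg) := pow_le_pow_right₀ hL1 (by omega)
  have h3 : L ^ (4 * k + 1 + E * m + 1) = L * (L ^ (4 * k + 1) * L ^ (E * m)) := by
    rw [pow_succ, pow_add L (4 * k + 1)]
    ring
  have h4 : L ^ (4 * k + 1) * z ^ m ≤ L ^ (4 * k + 1) * L ^ (E * m) :=
    mul_le_mul_of_nonneg_left h1 (by positivity)
  rw [h3] at h2
  have h5 : 0 < L ^ (4 * k + 1) * L ^ (E * m) := by positivity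
  nlinarith

lemma thyp (S0 L X : ℝ) (W : ℕ) (hS1 : 1 ≤ S0) (hL : 10000 ≤ L) (h : L ^ (W + 1) ≤ S0) (hX : S0 ^ 2 = X) :
    S0 + 1 ≤ X / L ^ W := by
  have hL0 : 0 < L := by linarith
  have hLW : 1 ≤ L ^ W := one_le_pow₀ (by linarith)
  rw [le_div_iff₀ (by positivity), ← hX]
  have h1 : S0 + 1 ≤ 2 * S0 := by linarith
  have h2 : 2 * L ^ W ≤ S0 := by
    have e : L ^ (W + 1) = L * L ^ W := by rw [pow_succ]; ring
    rw [e] at h
    nlinarith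
  calc (S0 + 1) * L ^ W ≤ (2 * S0) * L ^ W := mul_le_mul_of_nonneg_right h1 (by positivity)
    _ = S0 * (2 * L ^ W) := by ring
    _ ≤ S0 * S0 := mul_le_mul_of_nonneg_left h2 (by linarith)
    _ = _ := by ring

lemma unionb (A L : ℝ) (U : ℕ) (hA : 0 ≤ A) (hL : 10000 ≤ L) : A / L ^ (U + 2) + A / L ^ (U + 1) ≤ A / L ^ U := by
  have hL0 : 0 < L := by linarith
  have h2 : A / L ^ (U + 2) ≤ A / L ^ (U + 1) := by
    apply div_le_div_of_nonneg_left hA (by positivity)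
    exact pow_le_pow_right₀ (by linarith) (by omega)
  have h3 : A / L ^ U = L * (A / L ^ (U + 1)) := by
    rw [pow_succ L U]
    field_simp
  have h4 : 0 ≤ A / L ^ (U + 1) := by positivity
  rw [h3]
  nlinarith

lemma gDlem (S0 L D : ℝ) (g C k : ℕ) (hL : 10000 ≤ L) (hS0 : 0 < S0) (hg : (g : ℝ) ≤ D / (S0 * L ^ (C + 3 * k + 4))) :
    (g : ℝ) * (7 * S0 * L ^ C) ≤ D := by
  have hL0 : 0 < L := by linarith
  have hL34 : L ^ (C + 3 * k + 4) = L ^ C * L ^ (3 * k + 4) := by rw [← pow_add]; congr 1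
  have h1 : (g : ℝ) * (S0 * L ^ (C + 3 * k + 4)) ≤ D := by
    rwa [le_div_iff₀ (by positivity)] at hg
  have h2 : (7 : ℝ) ≤ L ^ (3 * k + 4) := by
    have : L ≤ L ^ (3 * k + 4) := le_self_pow₀ (by linarith) (by omega)
    linarith
  rw [hL34] at h1
  have h4 : (g : ℝ) * (7 * S0 * L ^ C) ≤ (g : ℝ) * (S0 * (L ^ C * L ^ (3 * k + 4))) := by
    apply mul_le_mul_of_nonneg_left _ (Nat.cast_nonneg g)
    calc 7 * S0 * L ^ C = (S0 * L ^ C) * 7 := by ring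
      _ ≤ (S0 * L ^ C) * L ^ (3 * k + 4) := mul_le_mul_of_nonneg_left h2 (by positivity)
      _ = _ := by ring
  linarith

lemma Vz_one (z : ℕ) : 1 ≤ (Vz z)⁻¹ := by
  rw [one_le_inv₀ (Vz_pos z)]
  exact prod_le_one (fun p hp => by
    have hp2 : (1 : ℝ) ≤ p := by exact_mod_cast (mem_pz.1 hp).2.one_lt.le
    have : (1 : ℝ) / p ≤ 1 := by rw [div_le_one (by linarith)]; exact hp2
    linarith) (fun p hp => by
    have : (0 : ℝ) ≤ 1 / p := by positivity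
    linarith)

lemma weights2 (k C C2 : ℕ) (hk : 1 ≤ k) (hCC2 : C ≤ C2) (η δw L D : ℝ) (hη0 : 0 < η) (hη1 : η ≤ 1)
    (hδw : δw = η / (2 * (k : ℝ))) (hL : 10000 ≤ L) (hlD1 : L / 2 ≤ Real.log D) (hD : L ≤ D)
    (hll : (2 * C2 / δw) * Real.log L ≤ L) :
    (1 - η) / Real.log D ^ k ≤ (1 / Real.log (D * L ^ C)) ^ k ∧
      (1 / Real.log (D / L ^ C2)) ^ k ≤ (1 + η) / Real.log D ^ k := by
  have hk1 : (1 : ℝ) ≤ k := by exact_mod_cast hk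
  have hδw0 : 0 < δw := by rw [hδw]; positivity
  have hlD0 : 0 < Real.log D := by linarith
  have hL0 : 0 < L := by linarith
  have hD0 : 0 < D := by linarith
  have hlL : (C2 : ℝ) * Real.log L ≤ δw * Real.log D := by
    have h1 : 2 * C2 / δw * Real.log L = (2 * (C2 * Real.log L)) / δw := by ring
    rw [h1, div_le_iff₀ hδw0] at hll
    nlinarith
  have hlL0 : 0 ≤ Real.log L := Real.log_nonneg (by linarith)
  have hCC2' : (C : ℝ) ≤ C2 := by exact_mod_cast hCC2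
  exact weights k hk η δw (Real.log D) (Real.log (D / L ^ C2)) (Real.log (D * L ^ C)) hη0
    hη1 hδw hlD0 (by
      rw [Real.log_div hD0.ne' (by positivity), Real.log_pow]
      linarith) (by
      rw [Real.log_mul hD0.ne' (by positivity), Real.log_pow]
      have : (C : ℝ) * Real.log L ≤ C2 * Real.log L := mul_le_mul_of_nonneg_right hCC2' hlL0
      linarith) (Real.log_pos (by
      have h1 : 1 ≤ L ^ C := one_le_pow₀ (by linarith)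
      nlinarith))

theorem simul (k : ℕ) (hk : 1 ≤ k) (C U : ℕ) (ε : ℝ) (hε : 0 < ε) (hε1 : ε ≤ 1) : ∃ B X0 : ℕ, ∀ X : ℕ, X0 ≤ X →
    ∀ D : ℕ, √(X : ℝ) * Real.log X ^ B ≤ D → D ≤ X → ∃ Bad : Finset (Fin k → ℤ),
      (#Bad : ℝ) ≤ X * (D : ℝ) ^ (k - 1) / Real.log X ^ U ∧
      ∀ K : Fin k → ℤ, (∀ i, 1 ≤ K i) → (∀ i, K i ≤ X) → (∀ i j, i ≠ j → K i ≠ K j) → (∀ i j, |K i - K j| ≤ D) →
        K ∉ Bad → (∀ i, ¬ IsSquare (K i)) ∧ (Adm K → ∃ S : ℝ, 0 < S ∧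
          Tendsto (fun z : ℕ => (Vz z)⁻¹ ^ k * VT K z) atTop (𝓝 S) ∧
          ∀ m N : ℕ, m < N → (∀ n ∈ Ioc m N, ∀ i, |((n : ℝ) ^ 2 - K i)| ≤ D * Real.log X ^ C) →
            (D : ℝ) / (√(X : ℝ) * Real.log X ^ C) ≤ (N : ℝ) - m →
            |(((Ioc m N).filter (fun n : ℕ => ∀ i, ((n : ℤ) ^ 2 - K i).natAbs.Prime)).card : ℝ) -
              S * ((N : ℝ) - m) / Real.log D ^ k| ≤ ε * (S * ((N : ℝ) - m) / Real.log D ^ k)) := by
  classical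
  obtain ⟨E1, hE1, hA⟩ := stageA k C U hk
  obtain ⟨E2, hKm⟩ := hK_most (U + 2) 1
  obtain ⟨C1, y0, hC1, hy0, hfl⟩ := tup_fl k
  obtain ⟨c, hc, hVTlow⟩ := VT_low (k := k) hk
  obtain ⟨b0, hb0⟩ := exists_pow_lt_of_lt_one (show 0 < ε / 64 by positivity) (show (1 / 2 : ℝ) < 1 by norm_num)
  obtain ⟨b, hb⟩ : ∃ b, b = max C1 b0 := ⟨_, rfl⟩
  have hbq : (1 / 2 : ℝ) ^ b ≤ ε / 64 := by
    refine le_trans ?_ hb0.le
    apply pow_le_pow_of_le_one (by norm_num) (by norm_num)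
    rw [hb]; exact le_max_right _ _
  have hfl' := hfl b (by rw [hb]; exact le_max_left _ _)
  obtain ⟨E, hE⟩ : ∃ E, E = max (max E1 E2) 2 := ⟨_, rfl⟩
  have hEE1 : E1 ≤ E := by rw [hE]; exact (le_max_left _ _).trans (le_max_left _ _)
  have hEE2 : E2 ≤ E := by rw [hE]; exact (le_max_right _ _).trans (le_max_left _ _)
  have hE22 : 2 ≤ E := by rw [hE]; exact le_max_right _ _
  obtain ⟨X1, hX1⟩ := hA E hEE1
  obtain ⟨X2, hX2⟩ := hKm E hEE2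
  obtain ⟨X3, hX3⟩ := Vz_inv_small E
  obtain ⟨η, hη⟩ : ∃ η, η = ε / 16 := ⟨_, rfl⟩
  obtain ⟨δw, hδw⟩ : ∃ δw, δw = η / (2 * (k : ℝ)) := ⟨_, rfl⟩
  have hk1 : (1 : ℝ) ≤ k := by exact_mod_cast hk
  have hη0 : 0 < η := by rw [hη]; positivity
  have hδw0 : 0 < δw := by rw [hδw]; positivity
  obtain ⟨C2, hC2⟩ : ∃ C2, C2 = C + 3 * k + 4 + U + 6 := ⟨_, rfl⟩
  obtain ⟨B, hB⟩ : ∃ B, B = Qd k C U + (C + 3 * k + 4) + (4 * k + 3) + E * (C1 * b) := ⟨_, rfl⟩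
  have hev : ∀ᶠ X : ℕ in atTop, (10000 : ℝ) ≤ Real.log X ∧ (k : ℝ) * 3 ^ k ≤ Real.log X ∧
      16 * (2 * k + 2) ≤ Real.log X * (c * ε) ∧ 1088 * (k : ℝ) ^ 3 ≤ Real.log X * ε ∧ (y0 : ℝ) + 4 * k + 2 ≤ Real.log X ∧
      Real.log X ^ (U + 3) ≤ (X : ℝ) ^ (1 / 2 : ℝ) ∧ Real.log X ^ (C2 + 1) ≤ (X : ℝ) ^ (1 / 2 : ℝ) ∧
      (2 * C2 / δw) * Real.log (Real.log X) ^ 1 ≤ Real.log X ^ (1 : ℝ) := by
    filter_upwards [evt_log_ge 10000, evt_log_ge ((k : ℝ) * 3 ^ k), evt_log_ge (16 * (2 * k + 2) / (c * ε)),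
      evt_log_ge (1088 * (k : ℝ) ^ 3 / ε), evt_log_ge ((y0 : ℝ) + 4 * k + 2),
      evt_log_pow (U + 3) (1 / 2) (by norm_num), evt_log_pow (C2 + 1) (1 / 2) (by norm_num),
      evt_ll 1 1 (2 * C2 / δw) (by norm_num)] with X h1 h2 h3 h4 h5 h6 h7 h8
    refine ⟨h1, h2, ?_, ?_, h5, h6, h7, h8⟩
    · rwa [div_le_iff₀ (by positivity)] at h3
    · rwa [div_le_iff₀ (by positivity)] at h4
  obtain ⟨X4, hX4⟩ := eventually_atTop.1 hev
  refine ⟨B, max (max X1 X2) (max X3 (max X4 1)), fun X hX D hD1 hD2 => ?_⟩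
  have g1 : X1 ≤ X := le_trans (le_trans (le_max_left _ _) (le_max_left _ _)) hX
  have g2 : X2 ≤ X := le_trans (le_trans (le_max_right _ _) (le_max_left _ _)) hX
  have g3 : X3 ≤ X := le_trans (le_trans (le_max_left _ _) (le_max_right _ _)) hX
  have g4 : X4 ≤ X := le_trans (le_trans (le_trans (le_max_left _ _) (le_max_right _ _)) (le_max_right _ _)) hX
  have g5 : 1 ≤ X := le_trans (le_trans (le_trans (le_max_right _ _) (le_max_right _ _)) (le_max_right _ _)) hX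
  obtain ⟨hL, hLk3, hLc, hLk, hLy, hLU, hLC, hll⟩ := hX4 X g4
  have hStA := hX1 X g1
  obtain ⟨Bh, hBh, hHP⟩ := hX2 X g2
  have hVs := hX3 X g3
  obtain ⟨z, hz⟩ : ∃ z, z = ⌊Real.log X ^ E⌋₊ := ⟨_, rfl⟩
  rw [← hz] at hStA hHP
  rw [← Real.sqrt_eq_rpow] at hLU hLC
  rw [Real.rpow_one, pow_one] at hll
  obtain ⟨L, hLd⟩ : ∃ L, L = Real.log X := ⟨_, rfl⟩
  rw [← hLd] at hL hLk3 hLc hLk hLy hLU hLC hll hStA hBh hHP hVs hz hD1 ⊢
  obtain ⟨S0, hSd⟩ : ∃ S0, S0 = √(X : ℝ) := ⟨_, rfl⟩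
  rw [← hSd] at hLU hLC hStA hD1 ⊢
  have hXr : (1 : ℝ) ≤ X := by exact_mod_cast g5
  have hX0 : (0 : ℝ) < X := by linarith
  have hS0 : 0 < S0 := by rw [hSd]; exact Real.sqrt_pos.2 hX0
  have hSX : S0 ^ 2 = X := by rw [hSd]; exact Real.sq_sqrt hX0.le
  have hS1 : 1 ≤ S0 := by rw [hSd]; exact Real.one_le_sqrt.2 hXr
  have hL0 : 0 < L := by linarith
  have hL1 : 1 ≤ L := by linarith
  have hLp : ∀ n : ℕ, (1 : ℝ) ≤ L ^ n := fun n => one_le_pow₀ hL1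
  obtain ⟨hzle, hzge, hzL⟩ := zfacts L E z hL hE22 hz
  have hzk : 4 * k + 1 ≤ z := by
    have h1 : ((4 * k + 1 : ℕ) : ℝ) ≤ z := by
      push_cast
      have : (0 : ℝ) ≤ y0 := Nat.cast_nonneg _
      linarith
    exact_mod_cast h1
  have hzy : y0 ≤ z := by
    have h1 : (y0 : ℝ) ≤ z := by linarith
    exact_mod_cast h1
  have hz1 : 1 ≤ z := by omega
  have hV := hVs z hz1 hzle
  have hVp : 0 < (Vz z)⁻¹ := inv_pos.2 (Vz_pos z)
  have hDr : (D : ℝ) ≤ X := by exact_mod_cast hD2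
  have hSD : S0 ≤ D := by
    refine le_trans ?_ hD1
    calc S0 = S0 * 1 := (mul_one S0).symm
      _ ≤ S0 * L ^ B := mul_le_mul_of_nonneg_left (hLp B) hS0.le
  have hD0 : (0 : ℝ) < D := by linarith
  have hD1r : (1 : ℝ) ≤ D := by linarith
  have hDn : 1 ≤ D := by exact_mod_cast hD1r
  -- the exceptional sets
  have hDQ : S0 * L ^ (Qd k C U) ≤ D := by
    refine le_trans ?_ hD1
    apply mul_le_mul_of_nonneg_left _ hS0.le
    exact pow_le_pow_right₀ hL1 (by rw [hB]; omega)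
  obtain ⟨Bad1, hBad1, hBlk⟩ := hStA D hDQ hD2
  obtain ⟨T, hT, hTout⟩ := badT X L (U + 2) Bh hL0 hBh (by
    rw [← hSd]
    exact thyp S0 L X (U + 2) hS1 hL hLU hSX)
  obtain ⟨Bx, hBx, hBxout⟩ := badBx k X D hk hDn L (U + 1) hL1 hLk3 T hT
  refine ⟨Bad1 ∪ Bx, ?_, ?_⟩
  · have h1 : ((#(Bad1 ∪ Bx) : ℕ) : ℝ) ≤ #Bad1 + #Bx := by exact_mod_cast card_union_le _ _
    exact h1.trans ((add_le_add hBad1 hBx).trans (unionb _ L U (by positivity) hL))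
  intro K hK1 hKX hKne hKD hKB
  rw [mem_union] at hKB
  push Not at hKB
  obtain ⟨hKB1, hKB2⟩ := hKB
  have hKT := hBxout K hK1 hKX hKD hKB2
  have hKi := fun i => hTout (K i) (hK1 i) (hKX i) (hKT i)
  refine ⟨fun i => (hKi i).2.2.2, fun hAdm => ?_⟩
  -- the singular series
  have hcastK : ∀ i, (((K i).toNat : ℕ) : ℤ) = K i := fun i => Int.toNat_of_nonneg (by have := hK1 i; omega)
  have hh : ∀ i, ∃ h : ℝ, 0 < h ∧ Tendsto (fun N => HP (K i) N) atTop (𝓝 h) ∧ |HP (K i) z - h| ≤ 1 / L ^ 1 * h := by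
    intro i
    have h1 := hHP (K i).toNat (hKi i).1 (hKi i).2.1 (by rw [hcastK]; exact (hKi i).2.2.2)
    rw [hcastK] at h1
    exact h1
  choose h hh0 hhlim hhz using hh
  obtain ⟨S, hS, hSlim, hSz⟩ := sing_conv K X g5 hAdm (fun i j hij => ⟨hKne i j hij, (hKD i j).trans (by exact_mod_cast hD2)⟩)
    h hh0 hhlim
  refine ⟨S, hS, hSlim, fun m N hmN hv hΔ => ?_⟩
  obtain ⟨κ, hκ⟩ : ∃ κ : ℝ, κ = 2 * (k * (2 * (1 / L)) + (8 * k ^ 2 + 8 * k ^ 3 * L) / z) := ⟨_, rfl⟩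
  have hκε : κ ≤ ε / 16 := by
    rw [hκ]
    exact kap k hk1 L z ε hL hzge hLk
  have hSz' := hSz z (1 / L) hzk (by positivity) (by
    rw [div_le_div_iff₀ hL0 (by norm_num)]; linarith) (fun i => by have := hhz i; rwa [pow_one] at this) (by
    rw [← hLd]
    have : κ = 2 * (k * (2 * (1 / L)) + (8 * k ^ 2 + 8 * k ^ 3 * L) / z) := hκ
    linarith)
  rw [← hLd, ← hκ] at hSz'
  -- the block length
  obtain ⟨g, hg⟩ : ∃ g : ℕ, g = ⌊(D : ℝ) / (S0 * L ^ (C + 3 * k + 4))⌋₊ := ⟨_, rfl⟩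
  obtain ⟨gf1, gf2, gf3, gf4⟩ := g_facts L S0 D (C + 3 * k + 4) B g hL hS0 hD1 (by omega) hg
  have hL34 : L ^ (C + 3 * k + 4) = L ^ C * L ^ (3 * k + 4) := by rw [← pow_add]; congr 1
  have hgD := gDlem S0 L D g C k hL hS0 gf2
  -- logarithms
  have hlD1 : L / 2 ≤ Real.log D := by
    have := Real.log_le_log hS0 hSD
    rwa [hSd, Real.log_sqrt hX0.le, ← hLd] at this
  have hlD2 : Real.log D ≤ L := by
    rw [hLd]
    exact Real.log_le_log hD0 hDr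
  have hlD0 : 0 < Real.log D := by linarith
  have hLB : L ≤ L ^ B := le_self_pow₀ hL1 (by omega)
  have hLD : L ≤ D := by
    refine le_trans ?_ hD1
    calc L = 1 * L := (one_mul L).symm
      _ ≤ S0 * L ^ B := mul_le_mul hS1 hLB hL0.le hS0.le
  obtain ⟨hlow, hup⟩ := weights2 k C C2 hk (by omega) η δw L D hη0 (by rw [hη]; linarith) hδw hL hlD1 hLD hll
  have hVT := hVTlow K z L hAdm hL1 hV
  have hVT0 : 0 ≤ VT K z := le_trans (by positivity) hVT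
  have hone := one_tuple hk C U K X D z g L S0 hL hS0 hSX hDr hD0 hz1 gf3 gf1 hgD (fun i => (hKi i).2.2.1)
    (fun i => by exact_mod_cast hKX i) (fun u hu hK => hBlk g hg u hu K hK hKB1)
    ((1 / 2 : ℝ) ^ b) η (Real.log D) ((z : ℝ) ^ (C1 * b)) (by positivity) (by linarith) hη0.le (by rw [hη]; linarith) hlD0
    (by positivity) (fun A => hfl' z hzy K g A) (by
      rw [← hC2, le_div_iff₀ (by positivity)]
      have e : L ^ (C2 + 1) = L ^ C2 * L := pow_succ _ _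
      rw [e] at hLC
      have h1 : 2 * L ^ C2 ≤ L ^ C2 * L := by
        rw [mul_comm]
        exact mul_le_mul_of_nonneg_left (by linarith) (by positivity)
      linarith) hlow (by rw [← hC2]; exact hup) hVT0 m N hmN hv
  rw [P1_prod] at hone
  have hmN' : (m : ℝ) < N := by exact_mod_cast hmN
  have hgΔ : (g : ℝ) ≤ ((N : ℝ) - m) / L ^ (3 * k + 4) := by
    have h1 : (D : ℝ) / (S0 * L ^ C) / L ^ (3 * k + 4) ≤ ((N : ℝ) - m) / L ^ (3 * k + 4) := by gcongr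
    refine le_trans ?_ h1
    refine gf2.trans (le_of_eq ?_)
    rw [hL34, div_div, mul_assoc]
  have hZb := zbf L g z k E (C1 * b) B (C + 3 * k + 4) hL (Nat.cast_nonneg z) hzle (by omega) gf4
  have hSzlow : c / L ^ (2 * k) ≤ (Vz z)⁻¹ ^ k * VT K z := by
    have h1 : 1 ≤ (Vz z)⁻¹ ^ k := by
      exact one_le_pow₀ (Vz_one z)
    calc c / L ^ (2 * k) ≤ VT K z := hVT
      _ = 1 * VT K z := (one_mul _).symm
      _ ≤ _ := mul_le_mul_of_nonneg_right h1 hVT0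
  have key := final_arith k ((((Ioc m N).filter (fun n : ℕ => ∀ i, ((n : ℤ) ^ 2 - K i).natAbs.Prime)).card : ℕ) : ℝ)
    ((N : ℝ) - m) g (Real.log D ^ k) ((Vz z)⁻¹ ^ k * VT K z) S (Vz z)⁻¹ ((z : ℝ) ^ (C1 * b)) L c ε η ((1 / 2 : ℝ) ^ b) κ
    hL hc hε hε1 gf3 (by linarith) (one_le_pow₀ (by linarith)) (pow_le_pow_left₀ hlD0.le hlD2 k) hgΔ hSzlow hSz' hκε hS
    hVp.le hV (by positivity) hZb hη.le hbq hLc (by
      have h1 : (k : ℝ) ≤ (k : ℝ) ^ 3 := le_self_pow₀ hk1 (by norm_num)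
      linarith) hone
  exact key

end Pool.Agent.X40.HLK
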