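import Pool.Agent.TH892.SW.S5
import Pool.Agent.H442R2.EHI.Core2
import Pool.Agent.X40.HLK.E1

/-!
The exponential sums of the even function `v ↦ ff z |v|`, and the second moment over `k`-tuples.
-/

set_option autoImplicit false

namespace Pool.Agent.X40.HLK

open Finset Filter
open Pool.Agent.W110.HV (ES)
open Pool.Agent.TH892.SW (ff ffn wt sup_ff sq_ff)
open Pool.Agent.H442R2.EHI (evt_log_pow evt_log_ge)

lemma sum_even (Y : ℕ) (F : ℤ → ℂ) (h0 : F 0 = 0) :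
    ∑ n ∈ Icc (-(Y : ℤ)) Y, F n = ∑ n ∈ Icc (1 : ℤ) Y, F n + ∑ n ∈ Icc (1 : ℤ) Y, F (-n) := by
  have h1 : ∑ n ∈ Icc (1 : ℤ) Y, F (-n) = ∑ n ∈ Icc (-(Y : ℤ)) (-1), F n := by
    refine sum_nbij' (fun n => -n) (fun n => -n) ?_ ?_ ?_ ?_ ?_
    · intro n hn; rw [mem_Icc] at hn ⊢; omega
    · intro n hn; rw [mem_Icc] at hn ⊢; omega
    · intro n _; ring
    · intro n _; ring
    · intro n _; rfl
  have h2 : Icc (-(Y : ℤ)) Y = (Icc (1 : ℤ) Y ∪ Icc (-(Y : ℤ)) (-1)) ∪ {0} := by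
    ext n
    simp only [mem_union, mem_Icc, mem_singleton]
    omega
  rw [h1, h2, sum_union, sum_union, sum_singleton, h0, add_zero]
  · rw [disjoint_left]
    intro n hn hn2
    rw [mem_Icc] at hn hn2
    omega
  · rw [disjoint_left]
    intro n hn hn2
    rw [mem_union, mem_Icc, mem_Icc] at hn
    rw [mem_singleton] at hn2
    omega

lemma ES_even (Y : ℕ) (g : ℤ → ℝ) (h0 : g 0 = 0) (Z : ℝ)
    (hZ : ∀ α : ℝ, ‖ES 1 (Y : ℤ) (fun n => (g n : ℂ)) α‖ ≤ Z) (α : ℝ) :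
    ‖ES (-(Y : ℤ)) Y (fun n => (g |n| : ℂ)) α‖ ≤ 2 * Z := by
  have h1 : ES (-(Y : ℤ)) Y (fun n => (g |n| : ℂ)) α =
      ES 1 (Y : ℤ) (fun n => (g n : ℂ)) α + ES 1 (Y : ℤ) (fun n => (g n : ℂ)) (-α) := by
    unfold ES
    rw [sum_even Y (fun n => (g |n| : ℂ) * Pool.Agent.Helper112.ee (n * α)) (by simp [h0])]
    congr 1
    · refine sum_congr rfl fun n hn => ?_
      rw [mem_Icc] at hn
      rw [abs_of_pos (by omega)]
    · refine sum_congr rfl fun n hn => ?_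
      rw [mem_Icc] at hn
      rw [abs_neg, abs_of_pos (by omega)]
      congr 2
      push_cast
      ring
  rw [h1]
  refine (norm_add_le _ _).trans ?_
  have := hZ α
  have := hZ (-α)
  linarith

/-- all exponential sums -/
theorem sup_even (U : ℕ) : ∃ E1 : ℕ, 1 ≤ E1 ∧ ∀ E : ℕ, E1 ≤ E → ∃ X0 : ℕ, ∀ X : ℕ, X0 ≤ X →
    (∀ v, |ff ⌊Real.log X ^ E⌋₊ v| ≤ 3 * Real.log X) ∧
    ∀ Y : ℕ, √(X : ℝ) ≤ Y → Y ≤ X ^ 2 → ∀ α : ℝ,
      ‖ES (-(Y : ℤ)) Y (fun n => (ff ⌊Real.log X ^ E⌋₊ |n| : ℂ)) α‖ ≤ Y / Real.log X ^ U := by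
  obtain ⟨B0, hB0⟩ := sup_ff (U + 1)
  refine ⟨B0 + 1, by omega, fun E hE => ?_⟩
  obtain ⟨N0, hN0⟩ := hB0 (E + 1)
  obtain ⟨N1, hN1⟩ := sq_ff E
  obtain ⟨X2, hX2⟩ := eventually_atTop.1 (evt_log_ge ((4 : ℝ) ^ (U + E + B0 + 10)))
  refine ⟨max (max N1 X2) ((N0 + 1) ^ 2), fun X hX => ?_⟩
  have g1 : N1 ≤ X := le_trans (le_trans (le_max_left _ _) (le_max_left _ _)) hX
  have g2 : X2 ≤ X := le_trans (le_trans (le_max_right _ _) (le_max_left _ _)) hX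
  have g3 : (N0 + 1) ^ 2 ≤ X := le_trans (le_max_right _ _) hX
  have hL := hX2 X g2
  have hff := hN1 X g1
  obtain ⟨z, hz⟩ : ∃ z, z = ⌊Real.log X ^ E⌋₊ := ⟨_, rfl⟩
  rw [← hz]
  obtain ⟨L, hLd⟩ : ∃ L, L = Real.log X := ⟨_, rfl⟩
  rw [← hLd] at hL hff hz ⊢
  have h41 : ∀ m : ℕ, (1 : ℝ) ≤ 4 ^ m := fun m => one_le_pow₀ (by norm_num)
  have hLm : ∀ m : ℕ, m ≤ U + E + B0 + 10 → (4 : ℝ) ^ m ≤ L := by
    intro m hm
    exact (pow_le_pow_right₀ (by norm_num) hm).trans hL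
  have hL1048 : 1048576 ≤ L := by
    have := hLm 10 (by omega)
    norm_num at this
    linarith
  have hL0 : 0 < L := by linarith
  have hL1 : 1 ≤ L := by linarith
  have hzle : (z : ℝ) ≤ L ^ E := by rw [hz]; exact Nat.floor_le (by positivity)
  have hLE : L ≤ L ^ E := le_self_pow₀ hL1 (by omega)
  have hzge : L ^ E - 1 ≤ z := by
    have := Nat.lt_floor_add_one (L ^ E)
    rw [← hz] at this
    linarith
  have hz1 : 1 ≤ z := by
    have : (1 : ℝ) ≤ z := by linarith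
    exact_mod_cast this
  obtain ⟨hffb, -⟩ := hff z hz1 hzle
  refine ⟨hffb, fun Y hY1 hY2 α => ?_⟩
  have hX1n : 1 ≤ X := le_trans (Nat.one_le_pow _ _ (by omega)) g3
  have hX1 : (1 : ℝ) ≤ X := by exact_mod_cast hX1n
  have hX0 : (0 : ℝ) < X := by linarith
  have hsX : 0 < √(X : ℝ) := Real.sqrt_pos.2 hX0
  have hY0 : (0 : ℝ) < Y := lt_of_lt_of_le hsX hY1
  have hlY1 : L / 2 ≤ Real.log Y := by
    have := Real.log_le_log hsX hY1
    rwa [Real.log_sqrt hX0.le, ← hLd] at this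
  have hlY2 : Real.log Y ≤ 2 * L := by
    have h : (Y : ℝ) ≤ (X : ℝ) ^ 2 := by exact_mod_cast hY2
    have := Real.log_le_log hY0 h
    rw [Real.log_pow, ← hLd] at this
    push_cast at this
    exact this
  have hN0Y : N0 ≤ Y := by
    have h1 : ((N0 + 1 : ℕ) : ℝ) ≤ √(X : ℝ) := by
      apply Real.le_sqrt_of_sq_le
      exact_mod_cast g3
    have h2 : ((N0 + 1 : ℕ) : ℝ) ≤ Y := h1.trans hY1
    have h3 : N0 + 1 ≤ Y := by exact_mod_cast h2
    omega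
  have hc1 : Real.log Y ^ B0 ≤ z := by
    have h1 : Real.log Y ^ B0 ≤ (2 * L) ^ B0 := pow_le_pow_left₀ (by linarith) hlY2 _
    have h2 : (2 : ℝ) ^ B0 * 2 ≤ L := by
      calc (2 : ℝ) ^ B0 * 2 ≤ 4 ^ B0 * 4 := by
            gcongr <;> norm_num
        _ = 4 ^ (B0 + 1) := by rw [pow_succ]
        _ ≤ L := hLm _ (by omega)
    have h3 : (2 * L) ^ B0 * 2 ≤ L ^ (B0 + 1) := by
      rw [mul_pow, pow_succ]
      calc 2 ^ B0 * L ^ B0 * 2 = L ^ B0 * (2 ^ B0 * 2) := by ring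
        _ ≤ L ^ B0 * L := mul_le_mul_of_nonneg_left h2 (by positivity)
    have h4 : L ^ (B0 + 1) ≤ L ^ E := pow_le_pow_right₀ hL1 hE
    have h5 : 1 ≤ (2 * L) ^ B0 := one_le_pow₀ (by linarith)
    linarith
  have hc2 : (z : ℝ) ≤ Real.log Y ^ (E + 1) := by
    have h1 : (L / 2) ^ (E + 1) ≤ Real.log Y ^ (E + 1) := pow_le_pow_left₀ (by linarith) hlY1 _
    have h2 : L ^ E ≤ (L / 2) ^ (E + 1) := by
      rw [div_pow, pow_succ L E, le_div_iff₀ (by positivity)]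
      apply mul_le_mul_of_nonneg_left _ (by positivity)
      calc (2 : ℝ) ^ (E + 1) ≤ 4 ^ (E + 1) := pow_le_pow_left₀ (by norm_num) (by norm_num) _
        _ ≤ L := hLm _ (by omega)
    linarith
  have key := hN0 Y hN0Y z hc1 hc2
  refine (ES_even Y (ff z) (by unfold ff; rw [if_neg (by norm_num)]) _ key α).trans ?_
  have h1 : (L / 2) ^ (U + 1) ≤ Real.log Y ^ (U + 1) := pow_le_pow_left₀ (by linarith) hlY1 _
  rw [mul_div_assoc', div_le_div_iff₀ (pow_pos (by linarith) _) (by positivity)]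
  calc 2 * (Y : ℝ) * L ^ U = Y * (2 * L ^ U) := by ring
    _ ≤ Y * (L / 2) ^ (U + 1) := by
        apply mul_le_mul_of_nonneg_left _ hY0.le
        rw [div_pow, le_div_iff₀ (by positivity), pow_succ L U]
        calc 2 * L ^ U * 2 ^ (U + 1) = L ^ U * (2 * 2 ^ (U + 1)) := by ring
          _ ≤ L ^ U * L := by
              apply mul_le_mul_of_nonneg_left _ (by positivity)
              calc (2 : ℝ) * 2 ^ (U + 1) = 2 ^ (U + 2) := by ring
                _ ≤ 4 ^ (U + 2) := pow_le_pow_left₀ (by norm_num) (by norm_num) _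
                _ ≤ L := hLm _ (by omega)
    _ ≤ Y * Real.log Y ^ (U + 1) := mul_le_mul_of_nonneg_left h1 hY0.le

/-! ### the telescoping identity -/

/-- the mixed functions -/
def mix {k : ℕ} (P M : ℤ → ℝ) (l i : Fin k) (v : ℤ) : ℝ :=
  if i < l then P v else if i = l then P v - M v else M v

lemma telescope {k : ℕ} (P M : ℤ → ℝ) (v : Fin k → ℤ) :
    ∏ i, P (v i) - ∏ i, M (v i) = ∑ l : Fin k, ∏ i : Fin k, mix P M l i (v i) := by
  induction k with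
  | zero => simp
  | succ k ih =>
    rw [Fin.prod_univ_succ, Fin.prod_univ_succ, Fin.sum_univ_succ]
    have h1 : ∏ i : Fin (k + 1), mix P M 0 i (v i) = (P (v 0) - M (v 0)) * ∏ i : Fin k, M (v i.succ) := by
      rw [Fin.prod_univ_succ]
      congr 1
    have h2 : ∀ l : Fin k, ∏ i : Fin (k + 1), mix P M l.succ i (v i) =
        P (v 0) * ∏ i : Fin k, mix P M l i (v i.succ) := by
      intro l
      rw [Fin.prod_univ_succ]
      congr 1
      refine prod_congr rfl fun i _ => ?_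
      unfold mix
      simp only [Fin.succ_lt_succ_iff, Fin.succ_inj]
    simp_rw [h1, h2, ← mul_sum]
    rw [← ih (fun i => v i.succ)]
    ring

/-- the second moment of a product over a box -/
lemma box_moment {k : ℕ} (g : Fin k → ℤ → ℝ) (B : Finset ℕ) (N : Finset ℤ) :
    ∑ K ∈ Fintype.piFinset (fun _ : Fin k => N), (∑ n ∈ B, ∏ i, g i ((n : ℤ) ^ 2 - K i)) ^ 2 =
      ∑ n ∈ B, ∑ n' ∈ B, ∏ i, ∑ K ∈ N, g i ((n : ℤ) ^ 2 - K) * g i ((n' : ℤ) ^ 2 - K) := by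
  have h1 : ∀ K : Fin k → ℤ, (∑ n ∈ B, ∏ i, g i ((n : ℤ) ^ 2 - K i)) ^ 2 =
      ∑ n ∈ B, ∑ n' ∈ B, ∏ i, (g i ((n : ℤ) ^ 2 - K i) * g i ((n' : ℤ) ^ 2 - K i)) := by
    intro K
    rw [sq, sum_mul_sum]
    simp_rw [prod_mul_distrib]
  simp_rw [h1]
  rw [sum_comm]
  refine sum_congr rfl fun n _ => ?_
  rw [sum_comm]
  refine sum_congr rfl fun n' _ => ?_
  exact (Finset.prod_univ_sum (fun _ : Fin k => N)
    (fun i K => g i ((n : ℤ) ^ 2 - K) * g i ((n' : ℤ) ^ 2 - K))).symm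

/-- the sum over `K` in an interval as a sum over the values -/
lemma K_sum (F : ℤ → ℤ → ℝ) (n n' : ℕ) (α β : ℤ) :
    ∑ K ∈ Icc α β, F ((n : ℤ) ^ 2 - K) ((n' : ℤ) ^ 2 - K) =
      ∑ v ∈ Icc ((n : ℤ) ^ 2 - β) ((n : ℤ) ^ 2 - α), F v (v + ((n' : ℤ) ^ 2 - (n : ℤ) ^ 2)) := by
  refine sum_nbij' (fun K => (n : ℤ) ^ 2 - K) (fun v => (n : ℤ) ^ 2 - v) ?_ ?_ ?_ ?_ ?_
  · intro K hK; rw [mem_Icc] at hK ⊢; omega
  · intro K hK; rw [mem_Icc] at hK ⊢; omega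
  · intro K _; ring
  · intro K _; ring
  · intro K _
    congr 1
    ring

end Pool.Agent.X40.HLK
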