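import Pool.Agent.X40.HLK.E2

/-!
The second moment of `∏ P(n² - K_i) - ∏ M(n² - K_i)` summed over blocks.
-/

set_option autoImplicit false

namespace Pool.Agent.X40.HLK

open Finset
open Pool.Agent.W110.HV (ES)

/-- the `u`-th block -/
def Blo (g u : ℕ) : Finset ℕ := Ioc (u * g) ((u + 1) * g)

lemma Blo_card (g u : ℕ) : (Blo g u).card = g := by
  unfold Blo
  rw [Nat.card_Ioc, Nat.succ_mul]
  omega

lemma Blo_idx (g u n : ℕ) (hn : n ∈ Blo g u) : (n - 1) / g = u := by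
  unfold Blo at hn
  rw [mem_Ioc] at hn
  have hg : 0 < g := by
    rcases Nat.eq_zero_or_pos g with h | h
    · rw [h] at hn; omega
    · exact h
  rw [Nat.div_eq_iff hg]
  have h1 : (u + 1) * g = u * g + g := Nat.succ_mul _ _
  rw [h1] at hn
  constructor
  · omega
  · omega

lemma Blo_sub (g u R : ℕ) (hu : u < R) : Blo g u ⊆ Icc 1 (g * R) := by
  intro n hn
  unfold Blo at hn
  rw [mem_Ioc] at hn
  rw [mem_Icc]
  have : (u + 1) * g ≤ g * R := by rw [mul_comm g R]; exact Nat.mul_le_mul_right _ (by omega)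
  omega

lemma mix_le {k : ℕ} (P M : ℤ → ℝ) (G : ℝ) (hP : ∀ v, |P v| ≤ G) (hM : ∀ v, |M v| ≤ G)
    (hPM : ∀ v, |P v - M v| ≤ G) (l i : Fin k) (v : ℤ) : |mix P M l i v| ≤ G := by
  unfold mix
  split_ifs
  · exact hP v
  · exact hPM v
  · exact hM v

/-- the second moment -/
theorem tuple_moment (k : ℕ) (P M : ℤ → ℝ) (G Z : ℝ) (hG : 0 ≤ G) (hZ : 0 ≤ Z) (hP : ∀ v, |P v| ≤ G)
    (hM : ∀ v, |M v| ≤ G) (hPM : ∀ v, |P v - M v| ≤ G) (Y q : ℕ) (hq : 1 ≤ q) (hqY : q ≤ Y)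
    (hsup : ∀ α : ℝ, ‖ES (-(Y : ℤ)) Y (fun n => ((P n - M n : ℝ) : ℂ)) α‖ ≤ Z)
    (g R NN : ℕ) (α β : ℕ → ℤ) (hNN : ∀ u, (Icc (α u) (β u)).card ≤ NN)
    (hY : ∀ u < R, ∀ n ∈ Blo g u, ∀ K ∈ Icc (α u) (β u), |(n : ℤ) ^ 2 - K| ≤ Y) :
    ∑ u ∈ range R, ∑ K ∈ Fintype.piFinset (fun _ : Fin k => Icc (α u) (β u)),
      (∑ n ∈ Blo g u, (∏ i, P ((n : ℤ) ^ 2 - K i) - ∏ i, M ((n : ℤ) ^ 2 - K i))) ^ 2 ≤
    (k : ℝ) ^ 2 * ((g * R : ℕ) * (NN * G ^ 2) ^ k + (NN * G ^ 2) ^ (k - 1) *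
      (8 * Y * √(Y / q) * (1 + Real.log (2 * Y)) ^ 2 * Z * G + 2 * q * G ^ 2 * (g * R * g : ℕ))) := by
  classical
  have hNG : 0 ≤ (NN : ℝ) * G ^ 2 := by positivity
  -- one `l`
  have one : ∀ l : Fin k, ∑ u ∈ range R, ∑ K ∈ Fintype.piFinset (fun _ : Fin k => Icc (α u) (β u)),
      (∑ n ∈ Blo g u, ∏ i, mix P M l i ((n : ℤ) ^ 2 - K i)) ^ 2 ≤
      (g * R : ℕ) * (NN * G ^ 2) ^ k + (NN * G ^ 2) ^ (k - 1) *
      (8 * Y * √(Y / q) * (1 + Real.log (2 * Y)) ^ 2 * Z * G + 2 * q * G ^ 2 * (g * R * g : ℕ)) := by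
    intro l
    have hk1 : 1 ≤ k := by have := l.2; omega
    obtain ⟨S, hS⟩ : ∃ S : Fin k → ℕ → ℕ → ℕ → ℝ, S = fun i u (n n' : ℕ) => ∑ K ∈ Icc (α u) (β u),
      mix P M l i ((n : ℤ) ^ 2 - K) * mix P M l i ((n' : ℤ) ^ 2 - K) := ⟨_, rfl⟩
    have hSle : ∀ i u n n', |S i u n n'| ≤ NN * G ^ 2 := by
      intro i u n n'
      rw [hS]
      refine (abs_sum_le_sum_abs _ _).trans ?_
      calc ∑ K ∈ Icc (α u) (β u), |mix P M l i ((n : ℤ) ^ 2 - K) * mix P M l i ((n' : ℤ) ^ 2 - K)|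
          ≤ ∑ _K ∈ Icc (α u) (β u), G ^ 2 := by
            refine sum_le_sum fun K _ => ?_
            rw [abs_mul, sq G]
            exact mul_le_mul (mix_le P M G hP hM hPM l i _) (mix_le P M G hP hM hPM l i _) (abs_nonneg _) hG
        _ = (Icc (α u) (β u)).card * G ^ 2 := by rw [sum_const, nsmul_eq_mul]
        _ ≤ NN * G ^ 2 := by
            apply mul_le_mul_of_nonneg_right _ (by positivity)
            exact_mod_cast hNN u
    have hdiag : ∀ u n, ∏ i, S i u n n ≤ (NN * G ^ 2) ^ k := by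
      intro u n
      refine (le_abs_self _).trans ?_
      rw [abs_prod]
      refine (prod_le_prod (fun i _ => abs_nonneg _) (fun i _ => hSle i u n n)).trans (le_of_eq ?_)
      rw [prod_const, card_univ, Fintype.card_fin]
    have hoff : ∀ u n n', ∏ i, S i u n n' ≤ (NN * G ^ 2) ^ (k - 1) * |S l u n n'| := by
      intro u n n'
      refine (le_abs_self _).trans ?_
      rw [abs_prod, ← mul_prod_erase univ _ (mem_univ l), mul_comm]
      apply mul_le_mul_of_nonneg_right _ (abs_nonneg _)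
      refine (prod_le_prod (fun i _ => abs_nonneg _) (fun i _ => hSle i u n n')).trans (le_of_eq ?_)
      rw [prod_const, card_erase_of_mem (mem_univ l), card_univ, Fintype.card_fin]
    have h1 : ∀ u ∈ range R, ∑ K ∈ Fintype.piFinset (fun _ : Fin k => Icc (α u) (β u)),
        (∑ n ∈ Blo g u, ∏ i, mix P M l i ((n : ℤ) ^ 2 - K i)) ^ 2 ≤
        g * (NN * G ^ 2) ^ k + ∑ p ∈ (Blo g u).offDiag, (NN * G ^ 2) ^ (k - 1) * |S l u p.1 p.2| := by
      intro u _
      rw [box_moment]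
      have e1 : ∑ n ∈ Blo g u, ∑ n' ∈ Blo g u, ∏ i, ∑ K ∈ Icc (α u) (β u),
          mix P M l i ((n : ℤ) ^ 2 - K) * mix P M l i ((n' : ℤ) ^ 2 - K) =
          ∑ p ∈ (Blo g u) ×ˢ (Blo g u), ∏ i, S i u p.1 p.2 := by
        rw [sum_product, hS]
      rw [e1, ← diag_union_offDiag, sum_union (disjoint_diag_offDiag _)]
      apply add_le_add
      · rw [sum_diag]
        refine (sum_le_sum fun n _ => hdiag u n).trans (le_of_eq ?_)
        rw [sum_const, Blo_card, nsmul_eq_mul]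
      · exact sum_le_sum fun p _ => hoff u p.1 p.2
    refine (sum_le_sum h1).trans ?_
    rw [sum_add_distrib, sum_const, card_range, nsmul_eq_mul]
    have e2 : (R : ℝ) * (g * (NN * G ^ 2) ^ k) = (g * R : ℕ) * (NN * G ^ 2) ^ k := by
      push_cast; ring
    rw [e2]
    apply add_le_add le_rfl
    simp_rw [← mul_sum]
    apply mul_le_mul_of_nonneg_left _ (by positivity)
    set PP : Finset (ℕ × ℕ) := (range R).biUnion (fun u => (Blo g u).offDiag) with hPP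
    have hdisj : ∀ u ∈ range R, ∀ u' ∈ range R, u ≠ u' → Disjoint ((Blo g u).offDiag) ((Blo g u').offDiag) := by
      intro u _ u' _ huu
      rw [disjoint_left]
      intro p hp hp'
      rw [mem_offDiag] at hp hp'
      exact huu ((Blo_idx g u _ hp.1).symm.trans (Blo_idx g u' _ hp'.1))
    have e3 : ∑ u ∈ range R, ∑ p ∈ (Blo g u).offDiag, |S l u p.1 p.2| =
        ∑ p ∈ PP, |∑ v ∈ Icc ((p.1 : ℤ) ^ 2 - β ((p.1 - 1) / g)) ((p.1 : ℤ) ^ 2 - α ((p.1 - 1) / g)),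
          (P v - M v) * (P (v + ((p.2 : ℤ) ^ 2 - (p.1 : ℤ) ^ 2)) - M (v + ((p.2 : ℤ) ^ 2 - (p.1 : ℤ) ^ 2)))| := by
      rw [hPP, sum_biUnion hdisj]
      refine sum_congr rfl fun u _ => sum_congr rfl fun p hp => ?_
      rw [mem_offDiag] at hp
      rw [Blo_idx g u _ hp.1, hS]
      congr 1
      have := K_sum (fun a b => mix P M l l a * mix P M l l b) p.1 p.2 (α u) (β u)
      simp only at this ⊢
      rw [this]
      refine sum_congr rfl fun v _ => ?_
      unfold mix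
      simp
    rw [e3]
    have h5 := pairs (g * R) Y q hq hqY (fun v => P v - M v) (fun v => P v - M v) Z G hZ hG hPM hPM hsup PP
      (by
        intro p hp
        rw [hPP, mem_biUnion] at hp
        obtain ⟨u, hu, hp⟩ := hp
        rw [mem_offDiag] at hp
        rw [mem_range] at hu
        rw [mem_product]
        exact ⟨Blo_sub g u R hu hp.1, Blo_sub g u R hu hp.2.1⟩)
      (by
        intro p hp
        rw [hPP, mem_biUnion] at hp
        obtain ⟨u, hu, hp⟩ := hp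
        rw [mem_offDiag] at hp
        exact hp.2.2)
      (fun p => (p.1 : ℤ) ^ 2 - β ((p.1 - 1) / g)) (fun p => (p.1 : ℤ) ^ 2 - α ((p.1 - 1) / g))
      (by
        intro p hp v hv1 hv2
        rw [hPP, mem_biUnion] at hp
        obtain ⟨u, hu, hp⟩ := hp
        rw [mem_offDiag] at hp
        rw [mem_range] at hu
        rw [Blo_idx g u _ hp.1] at hv1 hv2
        have h6 := abs_le.1 (hY u hu p.1 hp.1 ((p.1 : ℤ) ^ 2 - v) (by rw [mem_Icc]; constructor <;> linarith))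
        have h7 := abs_le.1 (hY u hu p.2 hp.2.1 ((p.1 : ℤ) ^ 2 - v) (by rw [mem_Icc]; constructor <;> linarith))
        refine ⟨by linarith [h6.1], by linarith [h6.2], by linarith [h7.1], by linarith [h7.2]⟩)
    refine h5.trans ?_
    have hPPc : #PP ≤ g * R * g := by
      rw [hPP]
      refine card_biUnion_le.trans ?_
      have : ∀ u ∈ range R, ((Blo g u).offDiag).card ≤ g * g := by
        intro u _
        rw [offDiag_card, Blo_card]
        exact Nat.sub_le _ _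
      refine (sum_le_sum this).trans (le_of_eq ?_)
      rw [sum_const, card_range, smul_eq_mul]
      ring
    have hPPr : (#PP : ℝ) ≤ (g * R * g : ℕ) := by exact_mod_cast hPPc
    have : 2 * (q : ℝ) * G ^ 2 * #PP ≤ 2 * q * G ^ 2 * (g * R * g : ℕ) :=
      mul_le_mul_of_nonneg_left hPPr (by positivity)
    linarith
  -- all `l`
  have h2 : ∀ u ∈ range R, ∑ K ∈ Fintype.piFinset (fun _ : Fin k => Icc (α u) (β u)),
      (∑ n ∈ Blo g u, (∏ i, P ((n : ℤ) ^ 2 - K i) - ∏ i, M ((n : ℤ) ^ 2 - K i))) ^ 2 ≤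
      ∑ l : Fin k, k * ∑ K ∈ Fintype.piFinset (fun _ : Fin k => Icc (α u) (β u)),
      (∑ n ∈ Blo g u, ∏ i, mix P M l i ((n : ℤ) ^ 2 - K i)) ^ 2 := by
    intro u _
    simp_rw [mul_sum]
    rw [sum_comm]
    refine sum_le_sum fun K _ => ?_
    have e1 : ∑ n ∈ Blo g u, (∏ i, P ((n : ℤ) ^ 2 - K i) - ∏ i, M ((n : ℤ) ^ 2 - K i)) =
        ∑ l : Fin k, ∑ n ∈ Blo g u, ∏ i, mix P M l i ((n : ℤ) ^ 2 - K i) := by
      rw [sum_comm]
      refine sum_congr rfl fun n _ => ?_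
      exact telescope P M (fun i => (n : ℤ) ^ 2 - K i)
    rw [e1, ← mul_sum]
    have h3 := sq_sum_le_card_mul_sum_sq (s := (univ : Finset (Fin k)))
      (f := fun l => ∑ n ∈ Blo g u, ∏ i, mix P M l i ((n : ℤ) ^ 2 - K i))
    rw [card_univ, Fintype.card_fin] at h3
    exact h3
  refine (sum_le_sum h2).trans ?_
  rw [sum_comm]
  simp_rw [← mul_sum]
  refine (mul_le_mul_of_nonneg_left (sum_le_sum fun l _ => one l) (Nat.cast_nonneg k)).trans (le_of_eq ?_)
  rw [sum_const, card_univ, Fintype.card_fin, nsmul_eq_mul]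
  ring

end Pool.Agent.X40.HLK
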