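import Pool.Agent.TH892.SW.S3

/-!
The fundamental lemma for the values of `n² - K_i`, `i < k`.
-/

set_option autoImplicit false

namespace Pool.Agent.X40.HLK

open Finset
open Pool.Agent.TH892.SW (fl_set root_card rk_le rk)
open Pool.Agent.H373R2.T7 (pz Vz lamz mem_pz)
open Pool.Agent.W41 (JJ JJ_lt JJ_le JJ_small)

/-- the number of residues `a` modulo `p` with `p ∣ a² - K i` for some `i` -/
def nuT {k : ℕ} (K : Fin k → ℤ) (p : ℕ) : ℕ :=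
  ((range p).filter (fun a : ℕ => ∃ i, (p : ℤ) ∣ (a : ℤ) ^ 2 - K i)).card

lemma nuT_shift {k : ℕ} (K : Fin k → ℤ) (p A : ℕ) :
    ((range p).filter (fun a : ℕ => ∃ i, (p : ℤ) ∣ ((A : ℤ) + a) ^ 2 - K i)).card = nuT K p := by
  classical
  have hper : Function.Periodic (fun n : ℕ => ∃ i, (p : ℤ) ∣ (n : ℤ) ^ 2 - K i) p := by
    intro n
    have h1 : ∀ i, ((p : ℤ) ∣ (((n + p : ℕ) : ℤ)) ^ 2 - K i ↔ (p : ℤ) ∣ (n : ℤ) ^ 2 - K i) := by
      intro i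
      have e : (((n + p : ℕ) : ℤ)) ^ 2 - K i = ((n : ℤ) ^ 2 - K i) + p * (2 * n + p) := by push_cast; ring
      rw [e]
      exact Int.dvd_add_left (dvd_mul_right _ _)
    exact propext (exists_congr h1)
  have h2 := Nat.filter_Ico_card_eq_of_periodic A p (fun n : ℕ => ∃ i, (p : ℤ) ∣ (n : ℤ) ^ 2 - K i) hper
  have h3 := Nat.filter_Ico_card_eq_of_periodic 0 p (fun n : ℕ => ∃ i, (p : ℤ) ∣ (n : ℤ) ^ 2 - K i) hper
  unfold nuT
  have e1 : (range p).filter (fun a : ℕ => ∃ i, (p : ℤ) ∣ (a : ℤ) ^ 2 - K i) =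
      (Ico 0 (0 + p)).filter (fun a : ℕ => ∃ i, (p : ℤ) ∣ (a : ℤ) ^ 2 - K i) := by
    rw [zero_add, range_eq_Ico]
  rw [e1]
  have e2 : ((range p).filter (fun a : ℕ => ∃ i, (p : ℤ) ∣ ((A : ℤ) + a) ^ 2 - K i)).card =
      ((Ico A (A + p)).filter (fun a : ℕ => ∃ i, (p : ℤ) ∣ (a : ℤ) ^ 2 - K i)).card := by
    refine card_nbij' (fun a => A + a) (fun n => n - A) ?_ ?_ ?_ ?_
    · intro a ha
      rw [mem_coe, mem_filter, mem_range] at ha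
      rw [mem_coe, mem_filter, mem_Ico]
      refine ⟨by constructor <;> (simp only; omega), ?_⟩
      push_cast
      exact ha.2
    · intro n hn
      rw [mem_coe, mem_filter, mem_Ico] at hn
      rw [mem_coe, mem_filter, mem_range]
      refine ⟨by simp only; omega, ?_⟩
      have : (A : ℤ) + ((n - A : ℕ) : ℤ) = n := by omega
      rw [this]
      exact hn.2
    · intro a _; simp only; omega
    · intro n hn
      rw [mem_coe, mem_filter, mem_Ico] at hn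
      simp only
      omega
  rw [e2]
  convert h2.trans h3.symm

lemma nuT_le {k : ℕ} (K : Fin k → ℤ) (p : ℕ) (hp : p.Prime) : nuT K p ≤ 2 * k := by
  classical
  unfold nuT
  have h1 : (range p).filter (fun a : ℕ => ∃ i, (p : ℤ) ∣ (a : ℤ) ^ 2 - K i) ⊆
      (univ : Finset (Fin k)).biUnion (fun i => (range p).filter (fun a : ℕ => (p : ℤ) ∣ (0 + (a : ℤ)) ^ 2 - K i)) := by
    intro a ha
    rw [mem_filter] at ha
    obtain ⟨i, hi⟩ := ha.2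
    rw [mem_biUnion]
    exact ⟨i, mem_univ _, mem_filter.2 ⟨ha.1, by rw [zero_add]; exact hi⟩⟩
  refine (card_le_card h1).trans (card_biUnion_le.trans ?_)
  have h2 : ∀ i ∈ (univ : Finset (Fin k)), ((range p).filter (fun a : ℕ => (p : ℤ) ∣ (0 + (a : ℤ)) ^ 2 - K i)).card ≤ 2 := by
    intro i _
    have h3 := root_card p hp 0 (K i)
    have h4 : ((((range p).filter (fun a : ℕ => (p : ℤ) ∣ (0 + (a : ℤ)) ^ 2 - K i)).card : ℕ) : ℝ) ≤ 2 := by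
      rw [h3]; exact rk_le (K i) p
    exact_mod_cast h4
  refine (sum_le_sum h2).trans (le_of_eq ?_)
  rw [sum_const, card_univ, Fintype.card_fin, smul_eq_mul, mul_comm]

/-- the sieve density -/
noncomputable def VT {k : ℕ} (K : Fin k → ℤ) (z : ℕ) : ℝ := ∏ p ∈ pz z, (1 - (nuT K p : ℝ) / p)

theorem tup_fl (k : ℕ) : ∃ C1 y0 : ℕ, 1 ≤ C1 ∧ 2 ≤ y0 ∧ ∀ b : ℕ, C1 ≤ b → ∀ y : ℕ, y0 ≤ y →
    ∀ (K : Fin k → ℤ) (X A : ℕ),
    |((((Icc 1 X).filter (fun t : ℕ => ∀ p ∈ pz y, ∀ i, ¬ (p : ℤ) ∣ ((A : ℤ) + t) ^ 2 - K i)).card : ℕ) : ℝ) -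
      X * VT K y| ≤ (1 / 2 : ℝ) ^ b * (X * VT K y) + (y : ℝ) ^ (C1 * b) := by
  obtain ⟨C0, K0, hC0, hK0, hfl⟩ := fl_set (2 * k)
  refine ⟨4 * C0 + 7, K0 + 3, by omega, by omega, fun b hb y hy K X A => ?_⟩
  have h1 := hfl b (by omega) y (by omega) X (pz y) (fun p a => ∃ i, (p : ℤ) ∣ ((A : ℤ) + a) ^ 2 - K i) (by
    intro p hp
    rw [mem_pz] at hp
    refine ⟨hp.2, hp.1, ?_⟩
    have h2 := nuT_shift K p A
    have h3 := nuT_le K p hp.2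
    rw [← h2] at h3
    convert h3)
  have hVe : ∏ p ∈ pz y, (1 - ((((range p).filter (fun a : ℕ => ∃ i, (p : ℤ) ∣ ((A : ℤ) + a) ^ 2 - K i)).card : ℕ) : ℝ) / p) =
      VT K y := by
    apply prod_congr rfl
    intro p hp
    rw [nuT_shift K p A]
  have hmod : ∀ n p : ℕ, ∀ i, ((p : ℤ) ∣ ((A : ℤ) + ((n % p : ℕ) : ℤ)) ^ 2 - K i) ↔ ((p : ℤ) ∣ ((A : ℤ) + (n : ℤ)) ^ 2 - K i) := by
    intro n p i
    have h3 : ((A : ℤ) + ((n % p : ℕ) : ℤ)) ^ 2 - K i ≡ ((A : ℤ) + (n : ℤ)) ^ 2 - K i [ZMOD p] := by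
      apply Int.ModEq.sub_right
      apply Int.ModEq.pow
      apply Int.ModEq.add_left
      rw [Int.natCast_mod]
      exact Int.mod_modEq _ _
    rw [Int.dvd_iff_emod_eq_zero, Int.dvd_iff_emod_eq_zero, h3]
  have hset : ((Icc 1 X).filter (fun t : ℕ => ∀ p ∈ pz y, ∀ i, ¬ (p : ℤ) ∣ ((A : ℤ) + t) ^ 2 - K i)) =
      ((Icc 1 X).filter (fun n : ℕ => ∀ p ∈ pz y, ¬ ∃ i, (p : ℤ) ∣ ((A : ℤ) + ((n % p : ℕ) : ℤ)) ^ 2 - K i)) := by
    apply filter_congr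
    intro n _
    constructor
    · rintro h p hp ⟨i, hd⟩
      exact h p hp i ((hmod n p i).1 hd)
    · intro h p hp i hd
      exact h p hp ⟨i, (hmod n p i).2 hd⟩
  rw [hset]
  set V := VT K y with hV
  have h2 : |((((Icc 1 X).filter (fun n : ℕ => ∀ p ∈ pz y, ¬ ∃ i, (p : ℤ) ∣ ((A : ℤ) + ((n % p : ℕ) : ℤ)) ^ 2 - K i)).card : ℕ) : ℝ) - X * V| ≤
      (1 / 2 : ℝ) ^ b * (X * V) + ((JJ y : ℝ) + 2) * ((y : ℝ) ^ (2 * (C0 * b)) * (K0 * (y : ℝ) ^ (2 * (C0 * b)))) := by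
    rw [← hVe]
    convert h1 using 6 <;> congr!
  refine h2.trans ?_
  have hy1 : (1 : ℝ) ≤ y := by exact_mod_cast (by omega : 1 ≤ y)
  have hy2 : (2 : ℝ) ≤ y := by exact_mod_cast (by omega : 2 ≤ y)
  have hJ : ((JJ y : ℝ) + 2) ≤ y * y := by
    have h3 : ((JJ y : ℝ) + 2) ≤ 2 * y := by exact_mod_cast JJ_small y (by omega)
    nlinarith
  have hK0 : (K0 : ℝ) ≤ y := by exact_mod_cast (by omega : K0 ≤ y)
  have h3 : ((JJ y : ℝ) + 2) * ((y : ℝ) ^ (2 * (C0 * b)) * (K0 * (y : ℝ) ^ (2 * (C0 * b)))) ≤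
      (y : ℝ) ^ ((4 * C0 + 7) * b) := by
    calc ((JJ y : ℝ) + 2) * ((y : ℝ) ^ (2 * (C0 * b)) * (K0 * (y : ℝ) ^ (2 * (C0 * b))))
        ≤ (y * y) * ((y : ℝ) ^ (2 * (C0 * b)) * (y * (y : ℝ) ^ (2 * (C0 * b)))) := by gcongr
      _ = (y : ℝ) ^ (4 * (C0 * b) + 3) := by
          rw [show 4 * (C0 * b) + 3 = 2 * (C0 * b) + 2 * (C0 * b) + 1 + 1 + 1 by ring]
          simp only [pow_succ, pow_add]
          ring
      _ ≤ _ := by
          apply pow_le_pow_right₀ hy1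
          have : 1 ≤ b := by omega
          nlinarith
  linarith

/-- no fixed prime divisor -/
def Adm {k : ℕ} (K : Fin k → ℤ) : Prop := ∀ p : ℕ, p.Prime → ∃ n : ℤ, ∀ i, ¬ (p : ℤ) ∣ n ^ 2 - K i

lemma Adm_nu {k : ℕ} (K : Fin k → ℤ) (h : Adm K) (p : ℕ) (hp : p.Prime) : nuT K p + 1 ≤ p := by
  obtain ⟨n, hn⟩ := h p hp
  have hp0 : (p : ℤ) ≠ 0 := by exact_mod_cast hp.ne_zero
  have hpp : (0 : ℤ) < p := by exact_mod_cast hp.pos
  have h1 : (n % p).toNat ∈ range p := by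
    rw [mem_range]
    have := Int.emod_lt_of_pos n hpp
    have := Int.emod_nonneg n hp0
    omega
  have h2 : (n % p).toNat ∉ (range p).filter (fun a : ℕ => ∃ i, (p : ℤ) ∣ (a : ℤ) ^ 2 - K i) := by
    rw [mem_filter]
    rintro ⟨-, i, hi⟩
    apply hn i
    rw [Int.toNat_of_nonneg (Int.emod_nonneg n hp0)] at hi
    have h3 : (n % p) ^ 2 - K i ≡ n ^ 2 - K i [ZMOD p] := by
      apply Int.ModEq.sub_right
      apply Int.ModEq.pow
      exact Int.mod_modEq _ _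
    rw [Int.dvd_iff_emod_eq_zero] at hi ⊢
    rw [← h3, hi]
  have h3 : ((range p).filter (fun a : ℕ => ∃ i, (p : ℤ) ∣ (a : ℤ) ^ 2 - K i)) ⊂ range p := by
    refine ⟨filter_subset _ _, fun hc => h2 (hc h1)⟩
  have h4 := card_lt_card h3
  rw [card_range] at h4
  unfold nuT
  omega

end Pool.Agent.X40.HLK
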