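import Pool.Agent.X40.HLK.E4

/-!
The singular series of `k`-tuples: convergence and truncation.
-/

set_option autoImplicit false

namespace Pool.Agent.X40.HLK

open Finset Filter Topology
open Pool.Agent.TH892.SW (root_card rk_le rk rk_nonneg HP prod_rk)
open Pool.Agent.H373R2.T7 (pz Vz mem_pz)

lemma nuT_eq {k : ℕ} (K : Fin k → ℤ) (p : ℕ) (hp : p.Prime) (h : ∀ i j, i ≠ j → ¬ (p : ℤ) ∣ K i - K j) :
    (nuT K p : ℝ) = ∑ i, rk (K i) p := by
  classical
  have h1 : (range p).filter (fun a : ℕ => ∃ i, (p : ℤ) ∣ (a : ℤ) ^ 2 - K i) =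
      (univ : Finset (Fin k)).biUnion (fun i => (range p).filter (fun a : ℕ => (p : ℤ) ∣ (0 + (a : ℤ)) ^ 2 - K i)) := by
    ext a
    simp only [mem_filter, mem_biUnion, mem_univ, true_and, zero_add]
    constructor
    · rintro ⟨h1, i, hi⟩; exact ⟨i, h1, hi⟩
    · rintro ⟨i, h1, hi⟩; exact ⟨h1, i, hi⟩
  unfold nuT
  rw [h1, card_biUnion]
  · push_cast
    refine sum_congr rfl fun i _ => ?_
    exact root_card p hp 0 (K i)
  · intro i _ j _ hij
    rw [Function.onFun, disjoint_left]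
    intro a ha hb
    rw [mem_filter] at ha hb
    apply h i j hij
    have := dvd_sub hb.2 ha.2
    have e : (0 + (a : ℤ)) ^ 2 - K j - ((0 + (a : ℤ)) ^ 2 - K i) = K i - K j := by ring
    rwa [e] at this

/-- the ratio of the local factors -/
noncomputable def rho {k : ℕ} (K : Fin k → ℤ) (p : ℕ) : ℝ := (1 - (nuT K p : ℝ) / p) / ∏ i, (1 - rk (K i) p / p)

lemma rk_fac (K : ℤ) (p : ℕ) (hp : p.Prime) : 0 < 1 - rk K p / p := by
  have hp0 : (0 : ℝ) < p := by exact_mod_cast hp.pos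
  rw [sub_pos, div_lt_one hp0]
  by_cases h : p = 2
  · subst h
    unfold rk
    norm_num
  · have h3 : (3 : ℝ) ≤ p := by
      have := hp.two_le
      exact_mod_cast (by omega : 3 ≤ p)
    linarith [rk_le K p]

lemma prod_rho {k : ℕ} (K : Fin k → ℤ) (z : ℕ) :
    (Vz z)⁻¹ ^ k * VT K z = (∏ i, HP (K i) z) * ∏ p ∈ pz z, rho K p := by
  have h1 : ∀ i, HP (K i) z = (Vz z)⁻¹ * ∏ p ∈ pz z, (1 - rk (K i) p / p) := by
    intro i
    rw [prod_rk, ← mul_assoc, inv_mul_cancel₀, one_mul]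
    exact (Pool.Agent.H373R2.T7.Vz_pos z).ne'
  simp_rw [h1]
  rw [prod_mul_distrib, prod_const, card_univ, Fintype.card_fin, mul_assoc]
  congr 1
  rw [Finset.prod_comm, ← prod_mul_distrib]
  unfold VT
  refine prod_congr rfl fun p hp => ?_
  unfold rho
  rw [mul_div_cancel₀]
  exact (prod_pos fun i _ => rk_fac (K i) p (mem_pz.1 hp).2).ne'

lemma neg_log_le (x : ℝ) (h0 : 0 ≤ x) (h1 : x ≤ 1 / 2) : -Real.log (1 - x) ≤ 2 * x := by
  have h2 := Real.one_sub_inv_le_log_of_pos (show 0 < 1 - x by linarith)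
  have h3 : (1 - x)⁻¹ - 1 ≤ 2 * x := by
    rw [inv_eq_one_div, div_sub_one (by linarith), div_le_iff₀ (by linarith)]
    nlinarith
  linarith

lemma rho_pos {k : ℕ} (K : Fin k → ℤ) (hA : Adm K) (p : ℕ) (hp : p.Prime) : 0 < rho K p := by
  unfold rho
  apply div_pos
  · have h := Adm_nu K hA p hp
    have hp0 : (0 : ℝ) < p := by exact_mod_cast hp.pos
    rw [sub_pos, div_lt_one hp0]
    exact_mod_cast (by omega : nuT K p < p)
  · exact prod_pos fun i _ => rk_fac (K i) p hp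

lemma prod_low {k : ℕ} (x : Fin k → ℝ) (h0 : ∀ i, 0 ≤ x i) (h1 : ∀ i, x i ≤ 1) :
    1 - ∑ i, x i ≤ ∏ i, (1 - x i) ∧ ∏ i, (1 - x i) ≤ 1 - ∑ i, x i + (∑ i, x i) ^ 2 / 2 := by
  induction k with
  | zero => simp
  | succ k ih =>
    obtain ⟨h2, h3⟩ := ih (fun i => x i.succ) (fun i => h0 _) (fun i => h1 _)
    rw [Fin.sum_univ_succ, Fin.prod_univ_succ]
    set s := ∑ i : Fin k, x i.succ with hs
    set P := ∏ i : Fin k, (1 - x i.succ) with hP
    have hs0 : 0 ≤ s := sum_nonneg fun i _ => h0 _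
    have hx0 := h0 0
    have hx1 := h1 0
    constructor
    · nlinarith [mul_nonneg hx0 hs0]
    · have h4 : (1 - x 0) * P ≤ (1 - x 0) * (1 - s + s ^ 2 / 2) := mul_le_mul_of_nonneg_left h3 (by linarith)
      refine h4.trans ?_
      nlinarith [mul_nonneg hx0 (sq_nonneg s), sq_nonneg (x 0)]

lemma rho_gen {k : ℕ} (K : Fin k → ℤ) (p : ℕ) (hp : p.Prime) (hpk : 4 * k + 1 ≤ p) :
    |Real.log (rho K p)| ≤ 4 * k / p := by
  have hp0 : (0 : ℝ) < p := by exact_mod_cast hp.pos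
  have hkp : (2 * k : ℝ) / p ≤ 1 / 2 := by
    rw [div_le_div_iff₀ hp0 (by norm_num)]
    have : ((4 * k + 1 : ℕ) : ℝ) ≤ p := by exact_mod_cast hpk
    push_cast at this
    linarith
  have hk0 : (0 : ℝ) ≤ 2 * k / p := by positivity
  have hnu : (nuT K p : ℝ) / p ≤ 2 * k / p := by
    apply div_le_div_of_nonneg_right _ hp0.le
    exact_mod_cast nuT_le K p hp
  have hnu0 : 0 ≤ (nuT K p : ℝ) / p := by positivity
  have hx := prod_low (fun i => rk (K i) p / p) (fun i => div_nonneg (rk_nonneg _ _) hp0.le) (fun i => by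
    have := rk_fac (K i) p hp
    linarith)
  have hsum : ∑ i, rk (K i) p / p ≤ 2 * k / p := by
    calc ∑ i, rk (K i) p / p ≤ ∑ _i : Fin k, (2 : ℝ) / p := sum_le_sum fun i _ =>
          div_le_div_of_nonneg_right (rk_le _ _) hp0.le
      _ = 2 * k / p := by rw [sum_const, card_univ, Fintype.card_fin, nsmul_eq_mul]; ring
  have hPle : ∏ i, (1 - rk (K i) p / p) ≤ 1 := by
    apply prod_le_one
    · intro i _; exact (rk_fac (K i) p hp).le
    · intro i _
      have : 0 ≤ rk (K i) p / p := div_nonneg (rk_nonneg _ _) hp0.le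
      linarith
  have hPlow : 1 - 2 * k / p ≤ ∏ i, (1 - rk (K i) p / p) := by linarith [hx.1]
  have hPpos : 0 < ∏ i, (1 - rk (K i) p / p) := by linarith
  have h1 : 0 < 1 - (nuT K p : ℝ) / p := by linarith
  unfold rho
  rw [Real.log_div h1.ne' hPpos.ne']
  have e1 : Real.log (1 - (nuT K p : ℝ) / p) ≤ 0 := Real.log_nonpos h1.le (by linarith)
  have e2 : Real.log (∏ i, (1 - rk (K i) p / p)) ≤ 0 := Real.log_nonpos hPpos.le hPle
  have e3 : Real.log (1 - 2 * k / p) ≤ Real.log (1 - (nuT K p : ℝ) / p) := Real.log_le_log (by linarith) (by linarith)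
  have e4 : Real.log (1 - 2 * k / p) ≤ Real.log (∏ i, (1 - rk (K i) p / p)) := Real.log_le_log (by linarith) hPlow
  have e5 := neg_log_le (2 * k / p) hk0 hkp
  have e6 : 2 * (2 * (k : ℝ) / p) = 4 * k / p := by ring
  rw [abs_le]
  constructor <;> linarith

lemma rho_good {k : ℕ} (K : Fin k → ℤ) (p : ℕ) (hp : p.Prime) (hpk : 4 * k + 1 ≤ p)
    (h : ∀ i j, i ≠ j → ¬ (p : ℤ) ∣ K i - K j) : |Real.log (rho K p)| ≤ 8 * k ^ 2 / (p : ℝ) ^ 2 := by
  have hp0 : (0 : ℝ) < p := by exact_mod_cast hp.pos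
  have hkp : (2 * k : ℝ) / p ≤ 1 / 2 := by
    rw [div_le_div_iff₀ hp0 (by norm_num)]
    have : ((4 * k + 1 : ℕ) : ℝ) ≤ p := by exact_mod_cast hpk
    push_cast at this
    linarith
  have hx := prod_low (fun i => rk (K i) p / p) (fun i => div_nonneg (rk_nonneg _ _) hp0.le) (fun i => by
    have := rk_fac (K i) p hp
    linarith)
  have hsum : ∑ i, rk (K i) p / p ≤ 2 * k / p := by
    calc ∑ i, rk (K i) p / p ≤ ∑ _i : Fin k, (2 : ℝ) / p := sum_le_sum fun i _ =>
          div_le_div_of_nonneg_right (rk_le _ _) hp0.le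
      _ = 2 * k / p := by rw [sum_const, card_univ, Fintype.card_fin, nsmul_eq_mul]; ring
  have hs : (nuT K p : ℝ) / p = ∑ i, rk (K i) p / p := by
    rw [nuT_eq K p hp h, sum_div]
  have hPpos : 0 < ∏ i, (1 - rk (K i) p / p) := prod_pos fun i _ => rk_fac (K i) p hp
  have hs0 : 0 ≤ ∑ i, rk (K i) p / p := sum_nonneg fun i _ => div_nonneg (rk_nonneg _ _) hp0.le
  unfold rho
  rw [hs]
  obtain ⟨h1, h2⟩ := hx
  generalize ∑ i, rk (K i) p / p = s at *
  generalize ∏ i, (1 - rk (K i) p / p) = P at *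
  have hs1 : s ≤ 1 / 2 := by linarith
  have hle : (1 - s) / P ≤ 1 := by rw [div_le_one hPpos]; exact h1
  have hge : 1 - s ^ 2 ≤ (1 - s) / P := by
    rw [le_div_iff₀ hPpos]
    have h3 : (1 - s ^ 2) * P ≤ (1 - s ^ 2) * (1 - s + s ^ 2 / 2) := mul_le_mul_of_nonneg_left h2 (by nlinarith)
    refine h3.trans ?_
    nlinarith [mul_nonneg (sq_nonneg s) hs0, mul_nonneg (mul_nonneg (sq_nonneg s) hs0) hs0]
  have hs2 : s ^ 2 ≤ 1 / 2 := by nlinarith
  have e1 : Real.log ((1 - s) / P) ≤ 0 := Real.log_nonpos (div_nonneg (by linarith) hPpos.le) hle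
  have e2 : Real.log (1 - s ^ 2) ≤ Real.log ((1 - s) / P) := Real.log_le_log (by linarith) hge
  have e3 := neg_log_le (s ^ 2) (sq_nonneg s) hs2
  have e4 : 2 * s ^ 2 ≤ 8 * k ^ 2 / (p : ℝ) ^ 2 := by
    have : s ^ 2 ≤ (2 * k / p) ^ 2 := pow_le_pow_left₀ hs0 hsum 2
    calc 2 * s ^ 2 ≤ 2 * (2 * k / (p : ℝ)) ^ 2 := by linarith
      _ = _ := by ring
  rw [abs_le]
  constructor <;> linarith

/-- the number of bad primes -/
lemma bad_primes {k : ℕ} (K : Fin k → ℤ) (X : ℕ) (hX : 1 ≤ X) (hK : ∀ i j, i ≠ j → K i ≠ K j ∧ |K i - K j| ≤ X) (z Z : ℕ) :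
    (((Ioc z Z).filter (fun p : ℕ => p.Prime ∧ ∃ i j, i ≠ j ∧ (p : ℤ) ∣ K i - K j)).card : ℝ) ≤ k ^ 2 * (2 * Real.log X) := by
  classical
  have h1 : (Ioc z Z).filter (fun p : ℕ => p.Prime ∧ ∃ i j, i ≠ j ∧ (p : ℤ) ∣ K i - K j) ⊆
      ((univ : Finset (Fin k × Fin k)).filter (fun ij => ij.1 ≠ ij.2)).biUnion (fun ij => ((K ij.1 - K ij.2).natAbs).primeFactors) := by
    intro p hp
    rw [mem_filter] at hp
    obtain ⟨-, hpp, i, j, hij, hd⟩ := hp
    rw [mem_biUnion]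
    refine ⟨(i, j), mem_filter.2 ⟨mem_univ _, hij⟩, ?_⟩
    rw [Nat.mem_primeFactors]
    refine ⟨hpp, Int.natCast_dvd.1 hd, ?_⟩
    rw [Int.natAbs_ne_zero, sub_ne_zero]
    exact (hK i j hij).1
  have h2 : ∀ ij ∈ (univ : Finset (Fin k × Fin k)).filter (fun ij => ij.1 ≠ ij.2),
      ((((K ij.1 - K ij.2).natAbs).primeFactors.card : ℕ) : ℝ) ≤ 2 * Real.log X := by
    intro ij hij
    rw [mem_filter] at hij
    obtain ⟨h3, h4⟩ := hK ij.1 ij.2 hij.2
    set n := (K ij.1 - K ij.2).natAbs with hn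
    have hn0 : n ≠ 0 := by rw [hn, Int.natAbs_ne_zero, sub_ne_zero]; exact h3
    have hnX : n ≤ X := by
      have : (n : ℤ) ≤ X := by rw [hn, Int.natCast_natAbs]; exact h4
      exact_mod_cast this
    have h5 : 2 ^ n.primeFactors.card ≤ n := by
      calc 2 ^ n.primeFactors.card ≤ ∏ p ∈ n.primeFactors, p := by
            apply pow_card_le_prod
            intro p hp
            exact (Nat.prime_of_mem_primeFactors hp).two_le
        _ ≤ n := Nat.le_of_dvd (Nat.pos_of_ne_zero hn0) (Nat.prod_primeFactors_dvd n)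
    have h6 : (2 : ℝ) ^ n.primeFactors.card ≤ X := by exact_mod_cast h5.trans hnX
    have h7 := Real.log_le_log (by positivity) h6
    rw [Real.log_pow] at h7
    have h8 := Real.log_two_gt_d9
    have h9 : (0 : ℝ) ≤ n.primeFactors.card := Nat.cast_nonneg _
    nlinarith
  calc (((Ioc z Z).filter (fun p : ℕ => p.Prime ∧ ∃ i j, i ≠ j ∧ (p : ℤ) ∣ K i - K j)).card : ℝ)
      ≤ ∑ ij ∈ (univ : Finset (Fin k × Fin k)).filter (fun ij => ij.1 ≠ ij.2),
        ((((K ij.1 - K ij.2).natAbs).primeFactors.card : ℕ) : ℝ) := by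
        exact_mod_cast (card_le_card h1).trans card_biUnion_le
    _ ≤ ∑ _ij ∈ (univ : Finset (Fin k × Fin k)).filter (fun ij => ij.1 ≠ ij.2), 2 * Real.log X := sum_le_sum h2
    _ = ((univ : Finset (Fin k × Fin k)).filter (fun ij => ij.1 ≠ ij.2)).card * (2 * Real.log X) := by
        rw [sum_const, nsmul_eq_mul]
    _ ≤ k ^ 2 * (2 * Real.log X) := by
        apply mul_le_mul_of_nonneg_right
        · have := card_filter_le (univ : Finset (Fin k × Fin k)) (fun ij => ij.1 ≠ ij.2)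
          rw [card_univ, Fintype.card_prod, Fintype.card_fin] at this
          have h3 : (((univ : Finset (Fin k × Fin k)).filter (fun ij => ij.1 ≠ ij.2)).card : ℝ) ≤ ((k * k : ℕ) : ℝ) := by
            exact_mod_cast this
          rw [sq]
          exact_mod_cast this
        · have : 0 ≤ Real.log (X : ℝ) := Real.log_natCast_nonneg X
          linarith

/-- the logarithm of the ratio of the products at `z` and `Z` -/
lemma R_diff {k : ℕ} (K : Fin k → ℤ) (X : ℕ) (hX : 1 ≤ X) (hA : Adm K) (hK : ∀ i j, i ≠ j → K i ≠ K j ∧ |K i - K j| ≤ X)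
    (z Z : ℕ) (hz : 4 * k + 1 ≤ z) (hzZ : z ≤ Z) :
    |Real.log (∏ p ∈ pz Z, rho K p) - Real.log (∏ p ∈ pz z, rho K p)| ≤
      (8 * k ^ 2 + 8 * k ^ 3 * Real.log X) / z := by
  classical
  have hz0 : (0 : ℝ) < z := by exact_mod_cast (by omega : 0 < z)
  have hpos : ∀ y, ∀ p ∈ pz y, rho K p ≠ 0 := fun y p hp => (rho_pos K hA p (mem_pz.1 hp).2).ne'
  rw [Real.log_prod (hpos Z), Real.log_prod (hpos z)]
  have hsub : pz z ⊆ pz Z := by
    intro p hp
    rw [mem_pz] at hp ⊢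
    exact ⟨hp.1.trans hzZ, hp.2⟩
  rw [← sum_sdiff hsub, add_sub_cancel_right]
  have e1 : pz Z \ pz z = (Ioc z Z).filter Nat.Prime := by
    ext p
    rw [Finset.mem_sdiff, mem_pz, mem_pz, mem_filter, mem_Ioc]
    constructor
    · rintro ⟨⟨h1, h2⟩, h3⟩
      refine ⟨⟨?_, h1⟩, h2⟩
      by_contra hc
      exact h3 ⟨by omega, h2⟩
    · rintro ⟨⟨h1, h2⟩, h3⟩
      exact ⟨⟨h2, h3⟩, fun h => by omega⟩
  rw [e1, ← sum_filter_add_sum_filter_not ((Ioc z Z).filter Nat.Prime) (fun p : ℕ => ∃ i j, i ≠ j ∧ (p : ℤ) ∣ K i - K j)]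
  have hb := bad_primes K X hX hK z Z
  have h1 : |∑ p ∈ ((Ioc z Z).filter Nat.Prime).filter (fun p : ℕ => ∃ i j, i ≠ j ∧ (p : ℤ) ∣ K i - K j), Real.log (rho K p)| ≤
      (k ^ 2 * (2 * Real.log X)) * (4 * k / z) := by
    refine (abs_sum_le_sum_abs _ _).trans ?_
    calc _ ≤ ∑ p ∈ ((Ioc z Z).filter Nat.Prime).filter (fun p : ℕ => ∃ i j, i ≠ j ∧ (p : ℤ) ∣ K i - K j), (4 * k / z : ℝ) := by
          refine sum_le_sum fun p hp => ?_
          rw [mem_filter, mem_filter, mem_Ioc] at hp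
          refine (rho_gen K p hp.1.2 (by omega)).trans ?_
          apply div_le_div_of_nonneg_left (by positivity) hz0
          exact_mod_cast hp.1.1.1.le
      _ = (((Ioc z Z).filter Nat.Prime).filter (fun p : ℕ => ∃ i j, i ≠ j ∧ (p : ℤ) ∣ K i - K j)).card * (4 * k / z : ℝ) := by
          rw [sum_const, nsmul_eq_mul]
      _ ≤ _ := by
          apply mul_le_mul_of_nonneg_right _ (by positivity)
          rw [filter_filter]
          exact hb
  have h2 : |∑ p ∈ ((Ioc z Z).filter Nat.Prime).filter (fun p : ℕ => ¬ ∃ i j, i ≠ j ∧ (p : ℤ) ∣ K i - K j), Real.log (rho K p)| ≤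
      8 * k ^ 2 / z := by
    refine (abs_sum_le_sum_abs _ _).trans ?_
    calc _ ≤ ∑ p ∈ ((Ioc z Z).filter Nat.Prime).filter (fun p : ℕ => ¬ ∃ i j, i ≠ j ∧ (p : ℤ) ∣ K i - K j),
          (8 * k ^ 2 * ((p : ℝ) ^ 2)⁻¹ : ℝ) := by
          refine sum_le_sum fun p hp => ?_
          rw [mem_filter, mem_filter, mem_Ioc] at hp
          refine (rho_good K p hp.1.2 (by omega) ?_).trans (le_of_eq (by rw [div_eq_mul_inv]))
          intro i j hij hd
          exact hp.2 ⟨i, j, hij, hd⟩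
      _ ≤ ∑ p ∈ Ioc z Z, (8 * k ^ 2 * ((p : ℝ) ^ 2)⁻¹ : ℝ) := by
          apply sum_le_sum_of_subset_of_nonneg
          · intro p hp
            exact (mem_filter.1 (mem_filter.1 hp).1).1
          · intro _ _ _; positivity
      _ ≤ 8 * k ^ 2 * ((z : ℝ)⁻¹ - (Z : ℝ)⁻¹) := by
          rw [← mul_sum]
          apply mul_le_mul_of_nonneg_left _ (by positivity)
          exact sum_Ioc_inv_sq_le_sub (by omega) hzZ
      _ ≤ 8 * k ^ 2 / z := by
          rw [div_eq_mul_inv]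
          apply mul_le_mul_of_nonneg_left _ (by positivity)
          have : (0 : ℝ) ≤ (Z : ℝ)⁻¹ := by positivity
          linarith
  refine (abs_add_le _ _).trans ((add_le_add h1 h2).trans (le_of_eq ?_))
  field_simp
  ring

/-- convergence -/
theorem sing_conv {k : ℕ} (K : Fin k → ℤ) (X : ℕ) (hX : 1 ≤ X) (hA : Adm K)
    (hK : ∀ i j, i ≠ j → K i ≠ K j ∧ |K i - K j| ≤ X) (h : Fin k → ℝ) (hh : ∀ i, 0 < h i)
    (hlim : ∀ i, Tendsto (fun z => HP (K i) z) atTop (𝓝 (h i))) :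
    ∃ S : ℝ, 0 < S ∧ Tendsto (fun z => (Vz z)⁻¹ ^ k * VT K z) atTop (𝓝 S) ∧
      ∀ (z : ℕ) (δ : ℝ), 4 * k + 1 ≤ z → 0 ≤ δ → δ ≤ 1 / 2 → (∀ i, |HP (K i) z - h i| ≤ δ * h i) →
        k * (2 * δ) + (8 * k ^ 2 + 8 * k ^ 3 * Real.log X) / z ≤ 1 →
        |(Vz z)⁻¹ ^ k * VT K z - S| ≤ 2 * (k * (2 * δ) + (8 * k ^ 2 + 8 * k ^ 3 * Real.log X) / z) * S := by
  obtain ⟨c, hc⟩ : ∃ c : ℝ, c = 8 * k ^ 2 + 8 * k ^ 3 * Real.log X := ⟨_, rfl⟩
  have hc0 : 0 ≤ c := by
    rw [hc]
    have : 0 ≤ Real.log (X : ℝ) := Real.log_natCast_nonneg X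
    positivity
  rw [← hc]
  have hR := R_diff K X hX hA hK
  rw [← hc] at hR
  set lR : ℕ → ℝ := fun z => Real.log (∏ p ∈ pz z, rho K p) with hlR
  have hcau : CauchySeq lR := by
    rw [Metric.cauchySeq_iff']
    intro ε hε
    obtain ⟨N, hN⟩ := exists_nat_gt (c / ε)
    refine ⟨max N (4 * k + 1), fun n hn => ?_⟩
    have h1 := hR (max N (4 * k + 1)) n (le_max_right _ _) hn
    rw [Real.dist_eq]
    refine lt_of_le_of_lt h1 ?_
    have hN' : c / ε < ((max N (4 * k + 1) : ℕ) : ℝ) := lt_of_lt_of_le hN (by exact_mod_cast le_max_left _ _)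
    have hm0 : (0 : ℝ) < ((max N (4 * k + 1) : ℕ) : ℝ) := by
      have : 4 * k + 1 ≤ max N (4 * k + 1) := le_max_right _ _
      exact_mod_cast (by omega : 0 < max N (4 * k + 1))
    rw [div_lt_iff₀ hε] at hN'
    rw [div_lt_iff₀ hm0]
    linarith
  obtain ⟨l, hl⟩ := cauchySeq_tendsto_of_complete hcau
  have hRpos : ∀ z, 0 < ∏ p ∈ pz z, rho K p := fun z => prod_pos fun p hp => rho_pos K hA p (mem_pz.1 hp).2
  have hRl : Tendsto (fun z => ∏ p ∈ pz z, rho K p) atTop (𝓝 (Real.exp l)) := by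
    have := (Real.continuous_exp.tendsto l).comp hl
    refine this.congr fun z => ?_
    simp only [Function.comp, hlR]
    exact Real.exp_log (hRpos z)
  refine ⟨(∏ i, h i) * Real.exp l, mul_pos (prod_pos fun i _ => hh i) (Real.exp_pos _), ?_, ?_⟩
  · have h1 : Tendsto (fun z => ∏ i, HP (K i) z) atTop (𝓝 (∏ i, h i)) := tendsto_finsetProd _ fun i _ => hlim i
    refine (h1.mul hRl).congr fun z => ?_
    exact (prod_rho K z).symm
  · intro z δ hz hδ0 hδ1 hHP hsmall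
    have hll : |l - lR z| ≤ c / z := by
      have h1 : Tendsto (fun Z => |lR Z - lR z|) atTop (𝓝 |l - lR z|) := (hl.sub tendsto_const_nhds).abs
      apply le_of_tendsto h1
      filter_upwards [eventually_ge_atTop z] with Z hZ
      exact hR z Z hz hZ
    have hHPpos : ∀ i, 0 < HP (K i) z := by
      intro i
      have h1 := (abs_le.1 (hHP i)).1
      have h2 := hh i
      nlinarith
    have h3 : |∑ i, Real.log (HP (K i) z / h i)| ≤ k * (2 * δ) := by
      refine (abs_sum_le_sum_abs _ _).trans ?_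
      have h4 : ∀ i ∈ (univ : Finset (Fin k)), |Real.log (HP (K i) z / h i)| ≤ 2 * δ := by
        intro i _
        have h5 := abs_le.1 (hHP i)
        have h6 := hh i
        have h7 : 1 - δ ≤ HP (K i) z / h i := by rw [le_div_iff₀ h6]; linarith
        have h8 : HP (K i) z / h i ≤ 1 + δ := by rw [div_le_iff₀ h6]; linarith
        have h9 : 0 < HP (K i) z / h i := div_pos (hHPpos i) h6
        rw [abs_le]
        constructor
        · have e1 := Real.log_le_log (by linarith) h7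
          have e2 := neg_log_le δ hδ0 hδ1
          linarith
        · have e1 := Real.log_le_sub_one_of_pos h9
          linarith
      refine (sum_le_sum h4).trans (le_of_eq ?_)
      rw [sum_const, card_univ, Fintype.card_fin, nsmul_eq_mul]
    have h4 : (Vz z)⁻¹ ^ k * VT K z = ((∏ i, h i) * Real.exp l) *
        Real.exp (∑ i, Real.log (HP (K i) z / h i) + (lR z - l)) := by
      rw [prod_rho, Real.exp_add, Real.exp_sum, Real.exp_sub]
      have e1 : ∏ i, Real.exp (Real.log (HP (K i) z / h i)) = (∏ i, HP (K i) z) / ∏ i, h i := by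
        rw [← prod_div_distrib]
        refine prod_congr rfl fun i _ => ?_
        rw [Real.exp_log (div_pos (hHPpos i) (hh i))]
      have e2 : Real.exp (lR z) = ∏ p ∈ pz z, rho K p := Real.exp_log (hRpos z)
      rw [e1, e2]
      have e3 : (∏ i, h i) ≠ 0 := (prod_pos fun i _ => hh i).ne'
      have e4 := (Real.exp_pos l).ne'
      field_simp
    obtain ⟨w, hw⟩ : ∃ w, w = ∑ i, Real.log (HP (K i) z / h i) + (lR z - l) := ⟨_, rfl⟩
    have hwle : |w| ≤ k * (2 * δ) + c / z := by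
      rw [hw]
      refine (abs_add_le _ _).trans (add_le_add h3 ?_)
      rw [abs_sub_comm]
      exact hll
    rw [h4, ← hw]
    have hS : 0 < (∏ i, h i) * Real.exp l := mul_pos (prod_pos fun i _ => hh i) (Real.exp_pos _)
    generalize (∏ i, h i) * Real.exp l = S at *
    have e5 : |Real.exp w - 1| ≤ 2 * |w| := Real.abs_exp_sub_one_le (by linarith)
    calc |S * Real.exp w - S| = S * |Real.exp w - 1| := by
          rw [← abs_of_pos hS, ← abs_mul, abs_of_pos hS]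
          congr 1
          ring
      _ ≤ S * (2 * (k * (2 * δ) + c / z)) := by
          apply mul_le_mul_of_nonneg_left _ hS.le
          linarith
      _ = _ := by ring

end Pool.Agent.X40.HLK
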