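import Pool.Agent.X40.HLK.E3
import Pool.Agent.X40.HLK.E5
import Pool.Agent.TH892.SW.S5

/-!
From blocks to windows for one tuple.
-/

set_option autoImplicit false

namespace Pool.Agent.X40.HLK

open Finset
open Pool.Agent.TH892.SW (ff ffn wt wt_nonneg wt_anti wt_le lamz_nonneg lamz_le)
open Pool.Agent.H373R2.T7 (pz Vz lamz mem_pz)

/-- the indicator function of the numbers whose absolute value is prime -/
noncomputable def P1 (v : ℤ) : ℝ := if v.natAbs.Prime then 1 else 0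

/-- the model -/
noncomputable def Mz (z : ℕ) (v : ℤ) : ℝ := if 2 ≤ |v| then lamz z v.natAbs * wt v.natAbs else 0

lemma ff_abs (z : ℕ) (v : ℤ) : ff z |v| = P1 v - Mz z v := by
  unfold ff Mz P1
  rw [Int.abs_eq_natAbs]
  split_ifs with h1 h2 h2
  · unfold ffn
    rw [Int.toNat_natCast, if_pos h2]
  · unfold ffn
    rw [Int.toNat_natCast, if_neg h2]
  · exfalso
    have := h2.two_le
    omega
  · ring

lemma P1_nonneg (v : ℤ) : 0 ≤ P1 v := by unfold P1; split_ifs <;> norm_num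

lemma P1_le (v : ℤ) : P1 v ≤ 1 := by unfold P1; split_ifs <;> norm_num

lemma Mz_nonneg (z : ℕ) (hz : 1 ≤ z) (v : ℤ) : 0 ≤ Mz z v := by
  unfold Mz
  split_ifs
  · exact mul_nonneg (lamz_nonneg z _ hz) (wt_nonneg _)
  · exact le_rfl

lemma Mz_le (z : ℕ) (hz : 1 ≤ z) (v : ℤ) : Mz z v ≤ (Vz z)⁻¹ * (3 / 2) := by
  have hV : 0 ≤ (Vz z)⁻¹ := (inv_pos.2 (Pool.Agent.H373R2.T7.Vz_pos z)).le
  unfold Mz
  rw [Int.abs_eq_natAbs]
  split_ifs with h
  · exact mul_le_mul (lamz_le z _ hz) (wt_le (by omega)) (wt_nonneg _) hV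
  · positivity

/-- a sum over a window by blocks -/
lemma windows_blocks (c : ℕ → ℝ) (h0 : ∀ n, 0 ≤ c n) (h1 : ∀ n, c n ≤ 1) (g m N : ℕ) (hg : 1 ≤ g) (hmN : m ≤ N)
    (μ ρ β : ℝ) (hμ : 0 ≤ μ) (hρ : 0 ≤ ρ) (good : ℕ → Prop) [DecidablePred good]
    (hgood : ∀ u, m ≤ u * g → (u + 1) * g ≤ N → good u → |∑ n ∈ Blo g u, c n - μ| ≤ ρ)
    (hbad : (((Ico ((m + g - 1) / g) (N / g)).filter (fun u => ¬ good u)).card : ℝ) ≤ β) :
    |∑ n ∈ Ioc m N, c n - ((N : ℝ) - m) / g * μ| ≤ (β + 2) * (g + μ) + ((N : ℝ) - m) / g * ρ := by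
  have hg0 : (0 : ℝ) < g := by exact_mod_cast hg
  obtain ⟨u1, hu1⟩ : ∃ u1, u1 = (m + g - 1) / g := ⟨_, rfl⟩
  obtain ⟨u2, hu2⟩ : ∃ u2, u2 = N / g := ⟨_, rfl⟩
  rw [← hu1, ← hu2] at hbad
  have hβ : 0 ≤ β := (Nat.cast_nonneg _).trans hbad
  have hmN' : (m : ℝ) ≤ N := by exact_mod_cast hmN
  have a1 : m ≤ u1 * g := by
    have := Nat.div_add_mod (m + g - 1) g
    have h2 := Nat.mod_lt (m + g - 1) (show g > 0 by omega)
    rw [← hu1, Nat.mul_comm] at this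
    omega
  have a2 : u1 * g ≤ m + g := by
    have := Nat.div_mul_le_self (m + g - 1) g
    rw [← hu1] at this
    omega
  have a3 : u2 * g ≤ N := by rw [hu2]; exact Nat.div_mul_le_self _ _
  have a4 : N < u2 * g + g := by
    have := Nat.div_add_mod N g
    have h2 := Nat.mod_lt N (show g > 0 by omega)
    rw [← hu2, Nat.mul_comm] at this
    omega
  have b1 : (m : ℝ) ≤ u1 * g := by exact_mod_cast a1
  have b2 : (u1 : ℝ) * g ≤ m + g := by exact_mod_cast a2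
  have b3 : (u2 : ℝ) * g ≤ N := by exact_mod_cast a3
  have b4 : (N : ℝ) < u2 * g + g := by exact_mod_cast a4
  have hsum0 : 0 ≤ ∑ n ∈ Ioc m N, c n := sum_nonneg fun n _ => h0 n
  have hint : ∀ a b : ℕ, a ≤ b → ∑ n ∈ Ioc a b, c n ≤ (b : ℝ) - a := by
    intro a b hab
    refine (sum_le_sum fun n _ => h1 n).trans (le_of_eq ?_)
    rw [sum_const, Nat.card_Ioc, nsmul_eq_mul, mul_one, Nat.cast_sub hab]
  rcases le_or_gt u1 u2 with hu | hu
  · have hs1 : ∑ n ∈ Ioc m N, c n = ∑ n ∈ Ioc m (u1 * g), c n + ∑ n ∈ Ioc (u1 * g) (u2 * g), c n +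
        ∑ n ∈ Ioc (u2 * g) N, c n := by
      rw [sum_Ioc_consecutive _ a1 (Nat.mul_le_mul_right _ hu), sum_Ioc_consecutive _ (a1.trans (Nat.mul_le_mul_right _ hu)) a3]
    have hs2 : ∑ n ∈ Ioc (u1 * g) (u2 * g), c n = ∑ u ∈ Ico u1 u2, ∑ n ∈ Blo g u, c n := by
      clear hs1 hbad b3 b4 a3 a4 hu2
      induction u2, hu using Nat.le_induction with
      | base => simp
      | succ u hu ih =>
        rw [sum_Ico_succ_top hu, ← ih, ← sum_Ioc_consecutive c (Nat.mul_le_mul_right g hu) (Nat.mul_le_mul_right g (Nat.le_succ u))]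
        rfl
    have hs3 : ∑ n ∈ Ioc m (u1 * g), c n ≤ g := by
      refine (hint _ _ a1).trans ?_
      push_cast
      linarith
    have hs4 : ∑ n ∈ Ioc (u2 * g) N, c n ≤ g := by
      refine (hint _ _ a3).trans ?_
      push_cast
      linarith
    have hs3' : 0 ≤ ∑ n ∈ Ioc m (u1 * g), c n := sum_nonneg fun n _ => h0 n
    have hs4' : 0 ≤ ∑ n ∈ Ioc (u2 * g) N, c n := sum_nonneg fun n _ => h0 n
    have hb0 : ∀ u, 0 ≤ ∑ n ∈ Blo g u, c n := fun u => sum_nonneg fun n _ => h0 n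
    have hb1 : ∀ u, ∑ n ∈ Blo g u, c n ≤ g := by
      intro u
      refine (sum_le_sum fun n _ => h1 n).trans (le_of_eq ?_)
      rw [sum_const, Blo_card, nsmul_eq_mul, mul_one]
    have hs5 := sum_filter_add_sum_filter_not (Ico u1 u2) good (fun u => ∑ n ∈ Blo g u, c n)
    have hs6 : ∑ u ∈ (Ico u1 u2).filter (fun u => ¬ good u), ∑ n ∈ Blo g u, c n ≤ β * g := by
      refine (sum_le_sum fun u _ => hb1 u).trans ?_
      rw [sum_const, nsmul_eq_mul]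
      exact mul_le_mul_of_nonneg_right hbad hg0.le
    have hs6' : 0 ≤ ∑ u ∈ (Ico u1 u2).filter (fun u => ¬ good u), ∑ n ∈ Blo g u, c n := sum_nonneg fun u _ => hb0 u
    have hs7 : |∑ u ∈ (Ico u1 u2).filter good, ∑ n ∈ Blo g u, c n - ((Ico u1 u2).filter good).card * μ| ≤
        ((Ico u1 u2).filter good).card * ρ := by
      have e1 : ∑ u ∈ (Ico u1 u2).filter good, ∑ n ∈ Blo g u, c n - ((Ico u1 u2).filter good).card * μ =
          ∑ u ∈ (Ico u1 u2).filter good, (∑ n ∈ Blo g u, c n - μ) := by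
        rw [sum_sub_distrib, sum_const, nsmul_eq_mul]
      rw [e1]
      refine (abs_sum_le_sum_abs _ _).trans ?_
      refine (sum_le_sum fun u hu' => ?_).trans (le_of_eq (by rw [sum_const, nsmul_eq_mul]))
      rw [mem_filter, mem_Ico] at hu'
      apply hgood u _ _ hu'.2
      · exact a1.trans (Nat.mul_le_mul_right _ hu'.1.1)
      · exact (Nat.mul_le_mul_right _ (by omega)).trans a3
    have hc := card_filter_add_card_filter_not (s := Ico u1 u2) good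
    rw [Nat.card_Ico] at hc
    have hcr : (((Ico u1 u2).filter good).card : ℝ) + ((Ico u1 u2).filter (fun u => ¬ good u)).card = (u2 : ℝ) - u1 := by
      rw [← Nat.cast_sub hu]
      exact_mod_cast hc
    set G1 : ℝ := (((Ico u1 u2).filter good).card : ℝ) with hG1
    set G2 : ℝ := (((Ico u1 u2).filter (fun u => ¬ good u)).card : ℝ) with hG2
    have hG10 : 0 ≤ G1 := Nat.cast_nonneg _
    have hG20 : 0 ≤ G2 := Nat.cast_nonneg _
    have hG1le : G1 ≤ ((N : ℝ) - m) / g := by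
      rw [le_div_iff₀ hg0]
      have : G1 * g ≤ ((u2 : ℝ) - u1) * g := mul_le_mul_of_nonneg_right (by linarith) hg0.le
      linarith
    have hG1ge : ((N : ℝ) - m) / g ≤ G1 + β + 2 := by
      rw [div_le_iff₀ hg0]
      have : ((u2 : ℝ) - u1) * g ≤ (G1 + β) * g := mul_le_mul_of_nonneg_right (by linarith) hg0.le
      linarith
    have e2 : |G1 * μ - ((N : ℝ) - m) / g * μ| ≤ (β + 2) * μ := by
      rw [← sub_mul, abs_mul, abs_of_nonneg hμ]
      apply mul_le_mul_of_nonneg_right _ hμ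
      rw [abs_le]
      constructor <;> linarith
    have e3 : G1 * ρ ≤ ((N : ℝ) - m) / g * ρ := mul_le_mul_of_nonneg_right hG1le hρ
    rw [abs_le] at hs7 e2 ⊢
    rw [hs1, hs2, ← hs5]
    have e4 : (β + 2) * ((g : ℝ) + μ) = β * g + 2 * g + (β + 2) * μ := by ring
    rw [e4]
    constructor <;> linarith [hs7.1, hs7.2, e2.1, e2.2, mul_nonneg hβ hg0.le]
  · have h5 : (N : ℝ) - m ≤ 2 * g := by
      have : (u2 : ℝ) + 1 ≤ u1 := by exact_mod_cast hu
      have h6 : ((u2 : ℝ) + 1) * g ≤ u1 * g := mul_le_mul_of_nonneg_right this hg0.le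
      linarith
    have h6 : ((N : ℝ) - m) / g ≤ 2 := by rw [div_le_iff₀ hg0]; exact h5
    have h7 := hint m N hmN
    have h8 : ((N : ℝ) - m) / g * μ ≤ 2 * μ := mul_le_mul_of_nonneg_right h6 hμ
    have h9 : 0 ≤ ((N : ℝ) - m) / g := div_nonneg (by linarith) hg0.le
    have h10 : 0 ≤ ((N : ℝ) - m) / g * μ := mul_nonneg h9 hμ
    have h11 : 0 ≤ ((N : ℝ) - m) / g * ρ := mul_nonneg h9 hρ
    have e4 : (β + 2) * ((g : ℝ) + μ) = β * g + β * μ + 2 * g + 2 * μ := by ring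
    rw [abs_le, e4]
    constructor <;> linarith [mul_nonneg hβ hg0.le, mul_nonneg hβ hμ]

/-- the model on a block -/
lemma block_model {k : ℕ} (K : Fin k → ℤ) (z g u b : ℕ) (hz : 1 ≤ z) (Zb q : ℝ) (hq1 : q ≤ 1) (hq0 : 0 ≤ q)
    (hfl : ∀ A : ℕ, |((((Icc 1 g).filter (fun t : ℕ => ∀ p ∈ pz z, ∀ i, ¬ (p : ℤ) ∣ ((A : ℤ) + t) ^ 2 - K i)).card : ℕ) : ℝ) -
      g * VT K z| ≤ q * (g * VT K z) + Zb)
    (Yb h lD η : ℝ) (hh : 2 ≤ h) (hη0 : 0 ≤ η) (hη1 : η ≤ 1) (hlD : 0 < lD) (hhY : h ≤ Yb)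
    (hlow : (1 - η) / lD ^ k ≤ (1 / Real.log Yb) ^ k) (hup : (1 / Real.log h) ^ k ≤ (1 + η) / lD ^ k)
    (hv : ∀ n ∈ Blo g u, ∀ i, h ≤ |((n : ℝ) ^ 2 - K i)| ∧ |((n : ℝ) ^ 2 - K i)| ≤ Yb) (hVT : 0 ≤ VT K z) :
    |∑ n ∈ Blo g u, ∏ i, Mz z ((n : ℤ) ^ 2 - K i) - g * ((Vz z)⁻¹ ^ k * VT K z) / lD ^ k| ≤
      (η + 2 * q) * (g * ((Vz z)⁻¹ ^ k * VT K z) / lD ^ k) + 2 * ((Vz z)⁻¹ ^ k * Zb) / lD ^ k := by
  classical
  have hV : 0 < (Vz z)⁻¹ := inv_pos.2 (Pool.Agent.H373R2.T7.Vz_pos z)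
  have hlh : 0 < Real.log h := Real.log_pos (by linarith)
  have hlY : 0 < Real.log Yb := Real.log_pos (by linarith)
  obtain ⟨Λ, hΛ⟩ : ∃ Λ : ℝ, Λ = ∑ n ∈ Blo g u, ∏ i, lamz z ((n : ℤ) ^ 2 - K i).natAbs := ⟨_, rfl⟩
  have hlam0 : ∀ n, 0 ≤ lamz z n := fun n => lamz_nonneg z n hz
  have e1 : ∀ n ∈ Blo g u, (1 / Real.log Yb) ^ k * ∏ i, lamz z ((n : ℤ) ^ 2 - K i).natAbs ≤ ∏ i, Mz z ((n : ℤ) ^ 2 - K i) ∧
      ∏ i, Mz z ((n : ℤ) ^ 2 - K i) ≤ (1 / Real.log h) ^ k * ∏ i, lamz z ((n : ℤ) ^ 2 - K i).natAbs := by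
    intro n hn
    have h2 : ∀ i, Mz z ((n : ℤ) ^ 2 - K i) = lamz z ((n : ℤ) ^ 2 - K i).natAbs * wt ((n : ℤ) ^ 2 - K i).natAbs ∧
        1 / Real.log Yb ≤ wt ((n : ℤ) ^ 2 - K i).natAbs ∧ wt ((n : ℤ) ^ 2 - K i).natAbs ≤ 1 / Real.log h := by
      intro i
      obtain ⟨h3, h4⟩ := hv n hn i
      have e : ((((n : ℤ) ^ 2 - K i).natAbs : ℕ) : ℝ) = |((n : ℝ) ^ 2 - K i)| := by
        rw [Nat.cast_natAbs]
        push_cast
        rfl
      refine ⟨?_, ?_, ?_⟩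
      · unfold Mz
        rw [if_pos]
        have : (2 : ℝ) ≤ ((|(n : ℤ) ^ 2 - K i| : ℤ) : ℝ) := by
          push_cast
          linarith
        exact_mod_cast this
      · unfold wt
        rw [e]
        apply one_div_le_one_div_of_le (Real.log_pos (by linarith))
        exact Real.log_le_log (by linarith) h4
      · unfold wt
        rw [e]
        apply one_div_le_one_div_of_le hlh
        exact Real.log_le_log (by linarith) h3
    have h3 : ∏ i, Mz z ((n : ℤ) ^ 2 - K i) = (∏ i, wt ((n : ℤ) ^ 2 - K i).natAbs) * ∏ i, lamz z ((n : ℤ) ^ 2 - K i).natAbs := by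
      rw [mul_comm, ← prod_mul_distrib]
      exact prod_congr rfl fun i _ => (h2 i).1
    have hp0 : 0 ≤ ∏ i, lamz z ((n : ℤ) ^ 2 - K i).natAbs := prod_nonneg fun i _ => hlam0 _
    rw [h3]
    constructor
    · apply mul_le_mul_of_nonneg_right _ hp0
      calc (1 / Real.log Yb) ^ k = ∏ _i : Fin k, (1 / Real.log Yb) := by
            rw [prod_const, card_univ, Fintype.card_fin]
        _ ≤ _ := prod_le_prod (fun i _ => by positivity) (fun i _ => (h2 i).2.1)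
    · apply mul_le_mul_of_nonneg_right _ hp0
      calc ∏ i, wt ((n : ℤ) ^ 2 - K i).natAbs ≤ ∏ _i : Fin k, (1 / Real.log h) :=
            prod_le_prod (fun i _ => wt_nonneg _) (fun i _ => (h2 i).2.2)
        _ = _ := by rw [prod_const, card_univ, Fintype.card_fin]
  have e2 : (1 / Real.log Yb) ^ k * Λ ≤ ∑ n ∈ Blo g u, ∏ i, Mz z ((n : ℤ) ^ 2 - K i) := by
    rw [hΛ, mul_sum]
    exact sum_le_sum fun n hn => (e1 n hn).1
  have e3 : ∑ n ∈ Blo g u, ∏ i, Mz z ((n : ℤ) ^ 2 - K i) ≤ (1 / Real.log h) ^ k * Λ := by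
    rw [hΛ, mul_sum]
    exact sum_le_sum fun n hn => (e1 n hn).2
  have e4 : Λ = (Vz z)⁻¹ ^ k * ((((Icc 1 g).filter (fun t : ℕ => ∀ p ∈ pz z, ∀ i, ¬ (p : ℤ) ∣ (((u * g : ℕ) : ℤ) + t) ^ 2 - K i)).card : ℕ) : ℝ) := by
    rw [hΛ, card_filter]
    push_cast
    rw [mul_sum]
    unfold Blo
    refine sum_nbij' (fun n => n - u * g) (fun t => u * g + t) ?_ ?_ ?_ ?_ ?_
    · intro n hn
      rw [mem_Ioc, Nat.succ_mul] at hn
      rw [mem_Icc]; omega
    · intro t ht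
      rw [mem_Icc] at ht
      rw [mem_Ioc, Nat.succ_mul]; omega
    · intro n hn
      rw [mem_Ioc] at hn
      omega
    · intro t _
      omega
    · intro n hn
      rw [mem_Ioc] at hn
      have hc : (((u : ℤ) * g) + ((n - u * g : ℕ) : ℤ)) = n := by
        rw [Nat.cast_sub hn.1.le]
        push_cast
        ring
      rw [hc]
      have hl : ∀ i, lamz z ((n : ℤ) ^ 2 - K i).natAbs = if ∀ p ∈ pz z, ¬ (p : ℤ) ∣ (n : ℤ) ^ 2 - K i then (Vz z)⁻¹ else 0 := by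
        intro i
        unfold lamz
        congr 1
        apply propext
        refine forall_congr' fun p => forall_congr' fun _ => ?_
        rw [Int.natCast_dvd]
      simp_rw [hl]
      by_cases hall : ∀ p ∈ pz z, ∀ i, ¬ (p : ℤ) ∣ (n : ℤ) ^ 2 - K i
      · rw [if_pos hall, mul_one]
        rw [prod_congr rfl fun i _ => if_pos (fun p hp => hall p hp i)]
        rw [prod_const, card_univ, Fintype.card_fin]
      · rw [if_neg hall, mul_zero]
        push Not at hall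
        obtain ⟨p, hp, i, hi⟩ := hall
        apply prod_eq_zero (mem_univ i)
        rw [if_neg]
        intro h'
        exact h' p hp hi
  have e5 := hfl (u * g)
  obtain ⟨c, hc⟩ : ∃ c : ℝ, c = ((((Icc 1 g).filter (fun t : ℕ => ∀ p ∈ pz z, ∀ i, ¬ (p : ℤ) ∣ (((u * g : ℕ) : ℤ) + t) ^ 2 - K i)).card : ℕ) : ℝ) := ⟨_, rfl⟩
  rw [← hc] at e4 e5
  have hc0 : 0 ≤ c := by rw [hc]; exact Nat.cast_nonneg _
  have hΛ0 : 0 ≤ Λ := by rw [e4]; positivity
  have hlDk : 0 < lD ^ k := by positivity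
  set W : ℝ := (Vz z)⁻¹ ^ k with hW
  have hW0 : 0 < W := by positivity
  have hg0 : (0 : ℝ) ≤ g := Nat.cast_nonneg _
  have hgV : 0 ≤ g * VT K z := mul_nonneg hg0 hVT
  have e6 := abs_le.1 e5
  have hZb : 0 ≤ Zb + q * (g * VT K z) := by linarith [(abs_nonneg _).trans e5]
  have u1 : ∑ n ∈ Blo g u, ∏ i, Mz z ((n : ℤ) ^ 2 - K i) ≤ (1 + η) / lD ^ k * (W * c) := by
    refine e3.trans ?_
    rw [e4]
    exact mul_le_mul_of_nonneg_right hup (by positivity)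
  have l1 : (1 - η) / lD ^ k * (W * c) ≤ ∑ n ∈ Blo g u, ∏ i, Mz z ((n : ℤ) ^ 2 - K i) := by
    refine le_trans ?_ e2
    rw [e4]
    exact mul_le_mul_of_nonneg_right hlow (by positivity)
  have hcu : c ≤ (1 + q) * (g * VT K z) + Zb := by linarith [e6.2]
  have hcl : (1 - q) * (g * VT K z) - Zb ≤ c := by linarith [e6.1]
  obtain ⟨G, hG⟩ : ∃ G : ℝ, G = g * VT K z := ⟨_, rfl⟩
  rw [← hG] at hcu hcl hgV hZb
  have eG : (g : ℝ) * (W * VT K z) / lD ^ k = W * G / lD ^ k := by rw [hG]; ring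
  rw [eG]
  have u2 : (1 + η) / lD ^ k * (W * c) ≤ (W * G / lD ^ k) + (η + 2 * q) * (W * G / lD ^ k) + 2 * (W * Zb) / lD ^ k := by
    have e7 : (W * G / lD ^ k) + (η + 2 * q) * (W * G / lD ^ k) + 2 * (W * Zb) / lD ^ k =
        (W / lD ^ k) * ((1 + η + 2 * q) * G + 2 * Zb) := by ring
    have e8 : (1 + η) / lD ^ k * (W * c) = (W / lD ^ k) * ((1 + η) * c) := by ring
    rw [e7, e8]
    apply mul_le_mul_of_nonneg_left _ (by positivity)
    have e9 : (1 + η) * c ≤ (1 + η) * ((1 + q) * G + Zb) := mul_le_mul_of_nonneg_left hcu (by linarith)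
    refine e9.trans ?_
    nlinarith [mul_nonneg hη0 hZb, mul_nonneg (sub_nonneg.2 hη1) hZb, mul_nonneg hq0 hgV, mul_nonneg (mul_nonneg hη0 hq0) hgV,
      mul_nonneg (mul_nonneg (sub_nonneg.2 hη1) hq0) hgV]
  have l2 : (W * G / lD ^ k) - (η + 2 * q) * (W * G / lD ^ k) - 2 * (W * Zb) / lD ^ k ≤ (1 - η) / lD ^ k * (W * c) := by
    have e7 : (W * G / lD ^ k) - (η + 2 * q) * (W * G / lD ^ k) - 2 * (W * Zb) / lD ^ k =
        (W / lD ^ k) * ((1 - η - 2 * q) * G - 2 * Zb) := by ring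
    have e8 : (1 - η) / lD ^ k * (W * c) = (W / lD ^ k) * ((1 - η) * c) := by ring
    rw [e7, e8]
    apply mul_le_mul_of_nonneg_left _ (by positivity)
    have e9 : (1 - η) * ((1 - q) * G - Zb) ≤ (1 - η) * c := mul_le_mul_of_nonneg_left hcl (by linarith)
    refine le_trans ?_ e9
    nlinarith [mul_nonneg hη0 hZb, mul_nonneg (sub_nonneg.2 hη1) hZb, mul_nonneg hq0 hgV, mul_nonneg (mul_nonneg hη0 hq0) hgV,
      mul_nonneg (mul_nonneg (sub_nonneg.2 hη1) hq0) hgV]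
  rw [abs_le]
  constructor <;> linarith

/-- few bad blocks -/
lemma few_blocks {k : ℕ} (K : Fin k → ℤ) (g a b : ℕ) (hg : 1 ≤ g) (h : ℝ)
    (hK : ∀ i, ∀ n1 n2 : ℕ, |((n1 : ℝ) ^ 2 - K i)| < h → |((n2 : ℝ) ^ 2 - K i)| < h → n1 ≤ n2 → n2 < n1 + g) :
    (((Ico a b).filter (fun u => ¬ ∀ n ∈ Blo g u, ∀ i, h ≤ |((n : ℝ) ^ 2 - K i)|)).card : ℝ) ≤ 2 * k := by
  classical
  have h1 : (Ico a b).filter (fun u => ¬ ∀ n ∈ Blo g u, ∀ i, h ≤ |((n : ℝ) ^ 2 - K i)|) ⊆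
      (univ : Finset (Fin k)).biUnion (fun i => (Ico a b).filter (fun u => ∃ n ∈ Blo g u, |((n : ℝ) ^ 2 - K i)| < h)) := by
    intro u hu
    rw [mem_filter] at hu
    obtain ⟨h2, h3⟩ := hu
    push Not at h3
    obtain ⟨n, hn, i, hi⟩ := h3
    rw [mem_biUnion]
    exact ⟨i, mem_univ _, mem_filter.2 ⟨h2, n, hn, hi⟩⟩
  have h2 : ∀ i ∈ (univ : Finset (Fin k)), ((Ico a b).filter (fun u => ∃ n ∈ Blo g u, |((n : ℝ) ^ 2 - K i)| < h)).card ≤ 2 := by
    intro i _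
    rcases ((Ico a b).filter (fun u => ∃ n ∈ Blo g u, |((n : ℝ) ^ 2 - K i)| < h)).eq_empty_or_nonempty with he | he
    · rw [he]; simp
    · set T := (Ico a b).filter (fun u => ∃ n ∈ Blo g u, |((n : ℝ) ^ 2 - K i)| < h) with hT
      obtain ⟨w, hwT, hwm⟩ : ∃ w ∈ T, ∀ u ∈ T, w ≤ u := ⟨T.min' he, min'_mem T he, fun u hu => min'_le T u hu⟩
      have hsub : T ⊆ {w, w + 1} := by
        intro u hu
        have h3 := hwm u hu
        rw [hT, mem_filter] at hu hwT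
        obtain ⟨-, n2, hn2, hv2⟩ := hu
        obtain ⟨-, n1, hn1, hv1⟩ := hwT
        unfold Blo at hn1 hn2
        rw [mem_Ioc] at hn1 hn2
        rw [mem_insert, mem_singleton]
        by_contra hc
        push Not at hc
        have h5 : w + 2 ≤ u := by omega
        have h6 : (w + 2) * g ≤ u * g := Nat.mul_le_mul_right _ h5
        have e1 : (w + 2) * g = w * g + 2 * g := by ring
        have e2 : (w + 1) * g = w * g + g := by ring
        rw [e2] at hn1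
        rw [e1] at h6
        have h7 := hK i n1 n2 hv1 hv2 (by omega)
        omega
      refine (card_le_card hsub).trans ?_
      exact card_le_two
  have h3 := (card_le_card h1).trans (card_biUnion_le.trans (sum_le_sum h2))
  rw [sum_const, card_univ, Fintype.card_fin, smul_eq_mul] at h3
  have h4 : (((Ico a b).filter (fun u => ¬ ∀ n ∈ Blo g u, ∀ i, h ≤ |((n : ℝ) ^ 2 - K i)|)).card : ℝ) ≤ ((k * 2 : ℕ) : ℝ) := by
    exact_mod_cast h3
  refine h4.trans (le_of_eq ?_)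
  push_cast
  ring

end Pool.Agent.X40.HLK
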