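import Pool.Agent.X40.HLK.E6
import Pool.Agent.TH892.SW.S4
import Pool.Agent.H373R2.T7.SingLow

/-!
Counting lemmas and the arithmetic of the parameters.
-/

set_option autoImplicit false

namespace Pool.Agent.X40.HLK

open Finset Filter
open Pool.Agent.W110.HV (ES)
open Pool.Agent.H373R2.T7 (pz Vz lamz mem_pz)
open Pool.Agent.H442R2.EHI (evt_log_pow evt_log_ge)

/-- tuples near the diagonal with one member in a given set -/
lemma box_count {k : ℕ} (D : ℕ) (T : Finset ℤ) (Bx : Finset (Fin k → ℤ))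
    (hB : ∀ K ∈ Bx, ∃ i, K i ∈ T ∧ ∀ j, |K j - K i| ≤ D) : #Bx ≤ k * #T * (2 * D + 1) ^ (k - 1) := by
  classical
  have h1 : Bx ⊆ (univ : Finset (Fin k)).biUnion (fun i => T.biUnion (fun t =>
      Fintype.piFinset (fun j : Fin k => if j = i then ({t} : Finset ℤ) else Icc (t - D) (t + D)))) := by
    intro K hK
    obtain ⟨i, hi, hj⟩ := hB K hK
    rw [mem_biUnion]
    refine ⟨i, mem_univ _, ?_⟩
    rw [mem_biUnion]
    refine ⟨K i, hi, ?_⟩
    rw [Fintype.mem_piFinset]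
    intro j
    split_ifs with h
    · rw [h, mem_singleton]
    · rw [mem_Icc]
      have := abs_le.1 (hj j)
      constructor <;> linarith
  have h2 : ∀ i : Fin k, ∀ t : ℤ, #(Fintype.piFinset (fun j : Fin k => if j = i then ({t} : Finset ℤ) else Icc (t - D) (t + D))) =
      (2 * D + 1) ^ (k - 1) := by
    intro i t
    rw [Fintype.card_piFinset, ← mul_prod_erase univ _ (mem_univ i), if_pos rfl, card_singleton, one_mul]
    have h3 : ∀ j ∈ (univ : Finset (Fin k)).erase i, #(if j = i then ({t} : Finset ℤ) else Icc (t - D) (t + D)) = 2 * D + 1 := by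
      intro j hj
      rw [if_neg (mem_erase.1 hj).1, Int.card_Icc]
      omega
    rw [prod_congr rfl h3, prod_const, card_erase_of_mem (mem_univ i), card_univ, Fintype.card_fin]
  refine (card_le_card h1).trans (card_biUnion_le.trans ?_)
  have h3 : ∀ i ∈ (univ : Finset (Fin k)), #(T.biUnion (fun t =>
      Fintype.piFinset (fun j : Fin k => if j = i then ({t} : Finset ℤ) else Icc (t - D) (t + D)))) ≤ #T * (2 * D + 1) ^ (k - 1) := by
    intro i _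
    refine card_biUnion_le.trans (le_of_eq ?_)
    rw [sum_congr rfl fun t _ => h2 i t, sum_const, smul_eq_mul]
  refine (sum_le_sum h3).trans (le_of_eq ?_)
  rw [sum_const, card_univ, Fintype.card_fin, smul_eq_mul]
  ring

/-- Chebyshev's inequality over the blocks -/
lemma cheb_blocks {ι : Type} [DecidableEq ι] (R : ℕ) (N : ℕ → Finset ι) (T : ℕ → ι → ℝ) (τ W : ℝ) (hτ : 0 < τ)
    (hW : ∑ u ∈ range R, ∑ K ∈ N u, T u K ^ 2 ≤ W) :
    ∃ Bad : Finset ι, (#Bad : ℝ) ≤ W / τ ^ 2 ∧ ∀ u < R, ∀ K ∈ N u, K ∉ Bad → |T u K| ≤ τ := by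
  classical
  refine ⟨(range R).biUnion (fun u => (N u).filter (fun K => τ < |T u K|)), ?_, ?_⟩
  · rw [le_div_iff₀ (by positivity)]
    refine le_trans ?_ hW
    have h1 : (#((range R).biUnion (fun u => (N u).filter (fun K => τ < |T u K|))) : ℝ) ≤
        ∑ u ∈ range R, (#((N u).filter (fun K => τ < |T u K|)) : ℝ) := by exact_mod_cast card_biUnion_le
    refine (mul_le_mul_of_nonneg_right h1 (by positivity)).trans ?_
    rw [sum_mul]
    refine sum_le_sum fun u _ => ?_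
    calc (#((N u).filter (fun K => τ < |T u K|)) : ℝ) * τ ^ 2 = ∑ _K ∈ (N u).filter (fun K => τ < |T u K|), τ ^ 2 := by
          rw [sum_const, nsmul_eq_mul]
      _ ≤ ∑ K ∈ (N u).filter (fun K => τ < |T u K|), T u K ^ 2 := by
          refine sum_le_sum fun K hK => ?_
          rw [← sq_abs (T u K)]
          exact pow_le_pow_left₀ hτ.le (mem_filter.1 hK).2.le 2
      _ ≤ _ := sum_le_sum_of_subset_of_nonneg (filter_subset _ _) (fun _ _ _ => sq_nonneg _)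
  · intro u hu K hK hb
    by_contra hc
    push Not at hc
    exact hb (mem_biUnion.2 ⟨u, mem_range.2 hu, mem_filter.2 ⟨hK, hc⟩⟩)

/-- the arithmetic of the second moment -/
lemma arW (k C C1 A3 A4 U Q : ℕ) (hk : 1 ≤ k) (hQ : Q = 2 * A4 + 2 * C1 + k * (C + 3) + 2 * C + 5 + U + 3) (hA3 : Q ≤ 2 * A3)
    (L S X D g R NN Y q Z lY : ℝ) (hL : 10000 ≤ L) (hLk : 20 * (k : ℝ) ^ 2 ≤ L) (hS : 0 < S) (hSX : S ^ 2 = X)
    (hD : S * L ^ Q ≤ D) (hg1 : D / (2 * S * L ^ C1) ≤ g) (hg2 : g ≤ D / (S * L ^ C1)) (hg0 : 0 < g) (hR0 : 0 ≤ R)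
    (hR : g * R ≤ 4 * S * L ^ C) (hNN0 : 0 ≤ NN) (hNN : NN ≤ 9 * D * L ^ C) (hY0 : 0 < Y) (hY : Y ≤ 6 * D * L ^ C) (hq0 : 0 < q)
    (hq : q ≤ Y / L ^ (2 * A3)) (hYq : Y / q ≤ 4 * L ^ (2 * A3)) (hZ : Z = Y / L ^ (A3 + Q)) (hlY0 : 0 ≤ lY) (hlY : lY ≤ 4 * L) :
    ((k : ℝ) ^ 2 * ((g * R) * (NN * (3 * L) ^ 2) ^ k + (NN * (3 * L) ^ 2) ^ (k - 1) *
      (8 * Y * √(Y / q) * lY ^ 2 * Z * (3 * L) + 2 * q * (3 * L) ^ 2 * (g * R * g)))) / (g / L ^ A4) ^ 2 ≤
      X * D ^ (k - 1) / L ^ (U + 2) := by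
  have hL0 : 0 < L := by linarith
  have hL1 : 1 ≤ L := by linarith
  have hp : ∀ n : ℕ, 0 < L ^ n := fun n => by positivity
  have hm : ∀ m n : ℕ, m ≤ n → L ^ m ≤ L ^ n := fun m n h => pow_le_pow_right₀ hL1 h
  have hD0 : 0 < D := lt_of_lt_of_le (by positivity) hD
  -- the basic quantities
  have a1 : NN * (3 * L) ^ 2 ≤ D * L ^ (C + 3) := by
    calc NN * (3 * L) ^ 2 ≤ (9 * D * L ^ C) * (3 * L) ^ 2 := mul_le_mul_of_nonneg_right hNN (by positivity)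
      _ = 81 * (D * L ^ (C + 2)) := by ring
      _ ≤ L * (D * L ^ (C + 2)) := mul_le_mul_of_nonneg_right (by linarith) (by positivity)
      _ = D * L ^ (C + 3) := by ring
  have a0 : 0 ≤ NN * (3 * L) ^ 2 := by positivity
  have a2 : √(Y / q) ≤ 2 * L ^ A3 := by
    rw [Real.sqrt_le_left (by positivity)]
    refine hYq.trans (le_of_eq ?_)
    ring
  have hSD : S ≤ D / L ^ Q := by rw [le_div_iff₀ (hp Q)]; exact hD
  -- term 1
  have t1 : (g * R) * (NN * (3 * L) ^ 2) ^ k ≤ D ^ (k + 1) * (4 * L ^ (k * (C + 3) + 2 * C + 5)) / L ^ Q := by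
    have h1 : (NN * (3 * L) ^ 2) ^ k ≤ (D * L ^ (C + 3)) ^ k := pow_le_pow_left₀ a0 a1 k
    calc (g * R) * (NN * (3 * L) ^ 2) ^ k ≤ (4 * S * L ^ C) * (D * L ^ (C + 3)) ^ k := by
          apply mul_le_mul hR h1 (by positivity) (by positivity)
      _ ≤ (4 * (D / L ^ Q) * L ^ C) * (D * L ^ (C + 3)) ^ k := by gcongr
      _ = D ^ (k + 1) * (4 * L ^ (k * (C + 3) + C)) / L ^ Q := by
          rw [mul_pow, ← pow_mul, mul_comm (C + 3) k, pow_add L (k * (C + 3)) C]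
          ring
      _ ≤ _ := by
          have := hm (k * (C + 3) + C) (k * (C + 3) + 2 * C + 5) (by omega)
          gcongr
  -- term 2
  have t2 : 8 * Y * √(Y / q) * lY ^ 2 * Z * (3 * L) ≤ D ^ 2 * (27648 * L ^ (2 * C + 3)) / L ^ Q := by
    rw [hZ]
    calc 8 * Y * √(Y / q) * lY ^ 2 * (Y / L ^ (A3 + Q)) * (3 * L) ≤
        8 * (6 * D * L ^ C) * (2 * L ^ A3) * (4 * L) ^ 2 * ((6 * D * L ^ C) / L ^ (A3 + Q)) * (3 * L) := by gcongr
      _ = D ^ 2 * (27648 * L ^ (2 * C + 3)) / L ^ Q := by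
          rw [pow_add L A3 Q]
          field_simp
          ring
  have t3 : 2 * q * (3 * L) ^ 2 * (g * R * g) ≤ D ^ 2 * (432 * L ^ (2 * C + 3)) / L ^ Q := by
    have h1 : q ≤ 6 * D * L ^ C / L ^ Q := by
      refine hq.trans ?_
      calc Y / L ^ (2 * A3) ≤ 6 * D * L ^ C / L ^ (2 * A3) := by gcongr
        _ ≤ _ := by
          have := hm Q (2 * A3) hA3
          gcongr
    have h2 : g * R * g ≤ 4 * D * L ^ C := by
      have h3 : g ≤ D / S := by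
        refine hg2.trans ?_
        apply div_le_div_of_nonneg_left hD0.le hS
        have : 1 ≤ L ^ C1 := one_le_pow₀ hL1
        nlinarith
      calc g * R * g ≤ (4 * S * L ^ C) * (D / S) := mul_le_mul hR h3 hg0.le (by positivity)
        _ = 4 * D * L ^ C := by field_simp
    calc 2 * q * (3 * L) ^ 2 * (g * R * g) ≤ 2 * (6 * D * L ^ C / L ^ Q) * (3 * L) ^ 2 * (4 * D * L ^ C) := by gcongr
      _ = D ^ 2 * (432 * L ^ (2 * C + 2)) / L ^ Q := by ring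
      _ ≤ _ := by
          have := hm (2 * C + 2) (2 * C + 3) (by omega)
          gcongr
  have t23 : (NN * (3 * L) ^ 2) ^ (k - 1) *
      (8 * Y * √(Y / q) * lY ^ 2 * Z * (3 * L) + 2 * q * (3 * L) ^ 2 * (g * R * g)) ≤
      D ^ (k + 1) * L ^ (k * (C + 3) + 2 * C + 5) / L ^ Q := by
    have h1 : (NN * (3 * L) ^ 2) ^ (k - 1) ≤ (D * L ^ (C + 3)) ^ (k - 1) := pow_le_pow_left₀ a0 a1 _
    have h2 : 8 * Y * √(Y / q) * lY ^ 2 * Z * (3 * L) + 2 * q * (3 * L) ^ 2 * (g * R * g) ≤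
        D ^ 2 * L ^ (2 * C + 5) / L ^ Q := by
      calc _ ≤ D ^ 2 * (27648 * L ^ (2 * C + 3)) / L ^ Q + D ^ 2 * (432 * L ^ (2 * C + 3)) / L ^ Q := add_le_add t2 t3
        _ = 28080 * (D ^ 2 * L ^ (2 * C + 3) / L ^ Q) := by ring
        _ ≤ L ^ 2 * (D ^ 2 * L ^ (2 * C + 3) / L ^ Q) := by
            apply mul_le_mul_of_nonneg_right _ (by positivity)
            nlinarith
        _ = _ := by ring
    have h3 : 0 ≤ 8 * Y * √(Y / q) * lY ^ 2 * Z * (3 * L) + 2 * q * (3 * L) ^ 2 * (g * R * g) := by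
      rw [hZ]; positivity
    calc _ ≤ (D * L ^ (C + 3)) ^ (k - 1) * (D ^ 2 * L ^ (2 * C + 5) / L ^ Q) := mul_le_mul h1 h2 h3 (by positivity)
      _ = D ^ (k + 1) * L ^ ((k - 1) * (C + 3) + (2 * C + 5)) / L ^ Q := by
          rw [mul_pow, ← pow_mul, mul_comm (C + 3) (k - 1), pow_add L ((k - 1) * (C + 3)) (2 * C + 5)]
          have : k + 1 = (k - 1) + 2 := by omega
          rw [this, pow_add D (k - 1) 2]
          ring
      _ ≤ _ := by
          have h5 : (k - 1) * (C + 3) ≤ k * (C + 3) := Nat.mul_le_mul_right _ (by omega)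
          have := hm ((k - 1) * (C + 3) + (2 * C + 5)) (k * (C + 3) + 2 * C + 5) (by omega)
          gcongr
  have tot : (k : ℝ) ^ 2 * ((g * R) * (NN * (3 * L) ^ 2) ^ k + (NN * (3 * L) ^ 2) ^ (k - 1) *
      (8 * Y * √(Y / q) * lY ^ 2 * Z * (3 * L) + 2 * q * (3 * L) ^ 2 * (g * R * g))) ≤
      5 * (k : ℝ) ^ 2 * (D ^ (k + 1) * L ^ (k * (C + 3) + 2 * C + 5) / L ^ Q) := by
    calc _ ≤ (k : ℝ) ^ 2 * (D ^ (k + 1) * (4 * L ^ (k * (C + 3) + 2 * C + 5)) / L ^ Q +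
          D ^ (k + 1) * L ^ (k * (C + 3) + 2 * C + 5) / L ^ Q) := by
          apply mul_le_mul_of_nonneg_left _ (by positivity)
          exact add_le_add t1 t23
      _ = _ := by ring
  have hτ : D / (2 * S * L ^ C1) / L ^ A4 ≤ g / L ^ A4 := by gcongr
  have hτ0 : 0 < D / (2 * S * L ^ C1) / L ^ A4 := by positivity
  calc _ ≤ 5 * (k : ℝ) ^ 2 * (D ^ (k + 1) * L ^ (k * (C + 3) + 2 * C + 5) / L ^ Q) / (D / (2 * S * L ^ C1) / L ^ A4) ^ 2 := by
        apply div_le_div₀ (by positivity) tot (by positivity)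
        exact pow_le_pow_left₀ hτ0.le hτ 2
    _ = 20 * (k : ℝ) ^ 2 * (X * D ^ (k - 1) / L ^ (U + 3)) := by
        have e1 : k + 1 = (k - 1) + 2 := by omega
        rw [hQ, e1, pow_add D (k - 1) 2, ← hSX]
        have e2 : L ^ (2 * A4 + 2 * C1 + (k * (C + 3)) + 2 * C + 5 + U + 3) =
            L ^ (k * (C + 3) + 2 * C + 5) * (L ^ C1) ^ 2 * (L ^ A4) ^ 2 * L ^ (U + 3) := by
          rw [← pow_mul, ← pow_mul, ← pow_add, ← pow_add, ← pow_add]
          congr 1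
          ring
        rw [e2]
        field_simp
        ring
    _ ≤ L * (X * D ^ (k - 1) / L ^ (U + 3)) := by
        apply mul_le_mul_of_nonneg_right hLk
        rw [← hSX]; positivity
    _ = _ := by
        rw [show U + 3 = (U + 2) + 1 by ring, pow_succ L (U + 2)]
        field_simp

/-- lower bound for the sieve density -/
lemma VT_low {k : ℕ} (hk : 1 ≤ k) : ∃ c : ℝ, 0 < c ∧ ∀ (K : Fin k → ℤ) (z : ℕ) (L : ℝ), Adm K → 1 ≤ L → (Vz z)⁻¹ ≤ L →
    c / L ^ (2 * k) ≤ VT K z := by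
  refine ⟨(1 / (3 * ((2 * k : ℕ) : ℝ))) ^ (3 * (2 * k)) * Real.exp (-(2 * ((2 * k : ℕ) : ℝ) ^ 2)), by positivity, ?_⟩
  intro K z L hA hL hV
  have h1 := Pool.Agent.H373R2.T7.local_low (2 * k) (by omega) (nuT K) z
    (fun p hp => nuT_le K p (mem_pz.1 hp).2) (fun p hp => Adm_nu K hA p (mem_pz.1 hp).2)
  have hVp := Pool.Agent.H373R2.T7.Vz_pos z
  rw [prod_div_distrib, prod_pow] at h1
  have e : ∏ p ∈ pz z, (1 - 1 / (p : ℝ)) = Vz z := rfl
  rw [e, le_div_iff₀ (by positivity)] at h1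
  have h2 : 1 / L ≤ Vz z := by
    rw [div_le_iff₀ (by linarith)]
    rw [inv_le_iff_one_le_mul₀ hVp] at hV
    linarith
  have h3 : (1 / L) ^ (2 * k) ≤ Vz z ^ (2 * k) := pow_le_pow_left₀ (by positivity) h2 _
  have h4 : (0 : ℝ) ≤ (1 / (3 * ((2 * k : ℕ) : ℝ))) ^ (3 * (2 * k)) * Real.exp (-(2 * ((2 * k : ℕ) : ℝ) ^ 2)) := by positivity
  calc _ = (1 / (3 * ((2 * k : ℕ) : ℝ))) ^ (3 * (2 * k)) * Real.exp (-(2 * ((2 * k : ℕ) : ℝ) ^ 2)) * (1 / L) ^ (2 * k) := by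
        rw [one_div L, inv_pow, div_eq_mul_inv]
    _ ≤ (1 / (3 * ((2 * k : ℕ) : ℝ))) ^ (3 * (2 * k)) * Real.exp (-(2 * ((2 * k : ℕ) : ℝ) ^ 2)) * Vz z ^ (2 * k) :=
        mul_le_mul_of_nonneg_left h3 h4
    _ ≤ _ := h1

end Pool.Agent.X40.HLK
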