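import Pool.Agent.X40.HLK.E7
import Pool.Agent.TH892.OW.B5a

/-!
The exceptional set from the second moment.
-/

set_option autoImplicit false

namespace Pool.Agent.X40.HLK

open Finset Filter
open Pool.Agent.W110.HV (ES)
open Pool.Agent.H373R2.T7 (pz Vz lamz mem_pz Vz_inv_small)
open Pool.Agent.H442R2.EHI (evt_log_pow evt_log_ge)
open Pool.Agent.TH892.SW (ff)

/-- the weights -/
lemma weights (k : ℕ) (hk : 1 ≤ k) (η δ lD lh lY : ℝ) (hη : 0 < η) (hη1 : η ≤ 1) (hδ : δ = η / (2 * k)) (hlD : 0 < lD)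
    (h1 : (1 - δ) * lD ≤ lh) (h2 : lY ≤ (1 + δ) * lD) (h3 : 0 < lY) :
    (1 - η) / lD ^ k ≤ (1 / lY) ^ k ∧ (1 / lh) ^ k ≤ (1 + η) / lD ^ k := by
  have hk0 : (1 : ℝ) ≤ k := by exact_mod_cast hk
  have hδ0 : 0 < δ := by rw [hδ]; positivity
  have hkδ : (k : ℝ) * δ = η / 2 := by rw [hδ]; field_simp
  have hδ1 : δ ≤ 1 / 2 := by nlinarith
  have hb : 1 - η / 2 ≤ (1 - δ) ^ k := by
    have := one_add_mul_le_pow (show (-2 : ℝ) ≤ -δ by linarith) k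
    have e : (1 : ℝ) + k * -δ = 1 - η / 2 := by rw [mul_neg, hkδ]; ring
    rw [e] at this
    have e2 : (1 : ℝ) + -δ = 1 - δ := by ring
    rwa [e2] at this
  have hd0 : 0 < lD ^ k := by positivity
  constructor
  · rw [div_pow, one_pow, div_le_div_iff₀ hd0 (by positivity), one_mul]
    have h4 : lY ^ k ≤ ((1 + δ) * lD) ^ k := pow_le_pow_left₀ h3.le h2 k
    have h5 : (1 - δ) ^ k * (1 + δ) ^ k ≤ 1 := by
      rw [← mul_pow]
      apply pow_le_one₀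
      · apply mul_nonneg <;> linarith
      · nlinarith
    by_cases h6 : 0 ≤ 1 - η
    · calc (1 - η) * lY ^ k ≤ (1 - η) * ((1 + δ) * lD) ^ k := mul_le_mul_of_nonneg_left h4 h6
        _ = (1 - η) * ((1 + δ) ^ k * lD ^ k) := by rw [mul_pow]
        _ ≤ (1 - δ) ^ k * ((1 + δ) ^ k * lD ^ k) := by
            apply mul_le_mul_of_nonneg_right _ (by positivity)
            linarith
        _ = ((1 - δ) ^ k * (1 + δ) ^ k) * lD ^ k := by ring
        _ ≤ 1 * lD ^ k := mul_le_mul_of_nonneg_right h5 hd0.le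
        _ = _ := one_mul _
    · linarith
  · have hlh : 0 < (1 - δ) * lD := mul_pos (by linarith) hlD
    rw [div_pow, one_pow, div_le_div_iff₀ (pow_pos (lt_of_lt_of_le hlh h1) _) hd0, one_mul]
    have h4 : ((1 - δ) * lD) ^ k ≤ lh ^ k := pow_le_pow_left₀ hlh.le h1 k
    calc lD ^ k ≤ (1 + η) * ((1 - η / 2) * lD ^ k) := by
          rw [← mul_assoc]
          have : 1 ≤ (1 + η) * (1 - η / 2) := by nlinarith
          nlinarith
      _ ≤ (1 + η) * ((1 - δ) ^ k * lD ^ k) := by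
          apply mul_le_mul_of_nonneg_left _ (by linarith)
          exact mul_le_mul_of_nonneg_right hb hd0.le
      _ = (1 + η) * ((1 - δ) * lD) ^ k := by rw [mul_pow]
      _ ≤ _ := mul_le_mul_of_nonneg_left h4 (by linarith)

/-- exponents -/
def Qd (k C U : ℕ) : ℕ := 2 * (3 * k + 4) + 2 * (C + 3 * k + 4) + k * (C + 3) + 2 * C + 5 + U + 3

/-- the block length -/
lemma g_facts (L S D : ℝ) (C1 Q : ℕ) (g : ℕ) (hL : 10000 ≤ L) (hS : 0 < S) (hD : S * L ^ Q ≤ D) (hQ : C1 + 1 ≤ Q)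
    (hg : g = ⌊D / (S * L ^ C1)⌋₊) :
    D / (2 * S * L ^ C1) ≤ g ∧ (g : ℝ) ≤ D / (S * L ^ C1) ∧ (0 : ℝ) < g ∧ L ^ (Q - C1) / 2 ≤ g := by
  have hL0 : 0 < L := by linarith
  have hL1 : 1 ≤ L := by linarith
  have h1 : L ^ (Q - C1) ≤ D / (S * L ^ C1) := by
    rw [le_div_iff₀ (by positivity)]
    calc L ^ (Q - C1) * (S * L ^ C1) = S * (L ^ (Q - C1) * L ^ C1) := by ring
      _ = S * L ^ Q := by rw [← pow_add, Nat.sub_add_cancel (by omega)]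
      _ ≤ D := hD
  have h2 : L ≤ L ^ (Q - C1) := le_self_pow₀ hL1 (by omega)
  have h3 : D / (S * L ^ C1) < g + 1 := by rw [hg]; exact Nat.lt_floor_add_one _
  have h4 : (g : ℝ) ≤ D / (S * L ^ C1) := by rw [hg]; exact Nat.floor_le (by linarith)
  have h5 : D / (2 * S * L ^ C1) = D / (S * L ^ C1) / 2 := by
    field_simp
  refine ⟨?_, h4, by linarith, by linarith⟩
  rw [h5]; linarith

theorem stageA (k C U : ℕ) (hk : 1 ≤ k) : ∃ E1 : ℕ, 1 ≤ E1 ∧ ∀ E : ℕ, E1 ≤ E → ∃ X0 : ℕ, ∀ X : ℕ, X0 ≤ X →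
    ∀ D : ℕ, √(X : ℝ) * Real.log X ^ (Qd k C U) ≤ D → D ≤ X → ∃ Bad : Finset (Fin k → ℤ),
      (#Bad : ℝ) ≤ X * (D : ℝ) ^ (k - 1) / Real.log X ^ (U + 2) ∧
      ∀ g : ℕ, g = ⌊(D : ℝ) / (√(X : ℝ) * Real.log X ^ (C + 3 * k + 4))⌋₊ → ∀ u : ℕ, (u * g : ℝ) ≤ 3 * √(X : ℝ) * Real.log X ^ C →
        ∀ K : Fin k → ℤ, (∀ i, |(K i : ℝ) - (u * g : ℝ) ^ 2| ≤ 3 * D * Real.log X ^ C) → K ∉ Bad →
        |∑ n ∈ Blo g u, (∏ i, P1 ((n : ℤ) ^ 2 - K i) - ∏ i, Mz ⌊Real.log X ^ E⌋₊ ((n : ℤ) ^ 2 - K i))| ≤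
          g / Real.log X ^ (3 * k + 4) := by
  classical
  obtain ⟨Q, hQ⟩ : ∃ Q, Q = Qd k C U := ⟨_, rfl⟩
  rw [← hQ]
  have hQ2 : Q = 2 * (3 * k + 4) + 2 * (C + 3 * k + 4) + k * (C + 3) + 2 * C + 5 + U + 3 := hQ
  obtain ⟨E1, hE1, hsup⟩ := sup_even (Q + Q)
  refine ⟨E1, hE1, fun E hE => ?_⟩
  obtain ⟨X1, hX1⟩ := hsup E hE
  obtain ⟨X2, hX2⟩ := Vz_inv_small E
  have hev : ∀ᶠ X : ℕ in atTop, (10000 : ℝ) ≤ Real.log X ∧ 20 * (k : ℝ) ^ 2 ≤ Real.log X ∧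
      Real.log X ^ (2 * Q) ≤ (X : ℝ) ^ (1 / 2 : ℝ) := by
    filter_upwards [evt_log_ge 10000, evt_log_ge (20 * (k : ℝ) ^ 2), evt_log_pow (2 * Q) (1 / 2) (by norm_num)] with X h1 h2 h3
    exact ⟨h1, h2, h3⟩
  obtain ⟨X3, hX3⟩ := eventually_atTop.1 hev
  refine ⟨max (max X1 X2) (max X3 1), fun X hX D hD1 hD2 => ?_⟩
  have g1 : X1 ≤ X := le_trans (le_trans (le_max_left _ _) (le_max_left _ _)) hX
  have g2 : X2 ≤ X := le_trans (le_trans (le_max_right _ _) (le_max_left _ _)) hX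
  have g3 : X3 ≤ X := le_trans (le_trans (le_max_left _ _) (le_max_right _ _)) hX
  have g4 : 1 ≤ X := le_trans (le_trans (le_max_right _ _) (le_max_right _ _)) hX
  obtain ⟨hL, hLk, hLS⟩ := hX3 X g3
  obtain ⟨hffb, hES⟩ := hX1 X g1
  have hVs := hX2 X g2
  obtain ⟨z, hz⟩ : ∃ z, z = ⌊Real.log X ^ E⌋₊ := ⟨_, rfl⟩
  rw [← hz] at hffb hES ⊢
  rw [← Real.sqrt_eq_rpow] at hLS
  obtain ⟨L, hLd⟩ : ∃ L, L = Real.log X := ⟨_, rfl⟩
  rw [← hLd] at hL hLk hLS hffb hES hVs hz hD1 ⊢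
  obtain ⟨S, hSd⟩ : ∃ S, S = √(X : ℝ) := ⟨_, rfl⟩
  rw [← hSd] at hLS hES hD1 ⊢
  have hXr : (1 : ℝ) ≤ X := by exact_mod_cast g4
  have hX0 : (0 : ℝ) < X := by linarith
  have hS0 : 0 < S := by rw [hSd]; exact Real.sqrt_pos.2 hX0
  have hSX : S ^ 2 = X := by rw [hSd]; exact Real.sq_sqrt hX0.le
  have hS1 : 1 ≤ S := by rw [hSd]; exact Real.one_le_sqrt.2 hXr
  have hL0 : 0 < L := by linarith
  have hL1 : 1 ≤ L := by linarith
  have hLp : ∀ n : ℕ, (1 : ℝ) ≤ L ^ n := fun n => one_le_pow₀ hL1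
  have hLE : L ≤ L ^ E := le_self_pow₀ hL1 (by omega)
  have hz1 : 1 ≤ z := by
    rw [hz]
    apply Nat.le_floor
    push_cast
    linarith
  have hzle : (z : ℝ) ≤ L ^ E := by rw [hz]; exact Nat.floor_le (by positivity)
  have hV := hVs z hz1 hzle
  have hDr : (D : ℝ) ≤ X := by exact_mod_cast hD2
  have hSD : S ≤ D := by
    have := hLp Q
    nlinarith
  have hD0 : (0 : ℝ) < D := by linarith
  obtain ⟨g, hg⟩ : ∃ g : ℕ, g = ⌊(D : ℝ) / (S * L ^ (C + 3 * k + 4))⌋₊ := ⟨_, rfl⟩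
  obtain ⟨gf1, gf2, gf3, gf4⟩ := g_facts L S D (C + 3 * k + 4) Q g hL hS0 hD1 (by omega) hg
  -- the parameters
  have hDL : (D : ℝ) ≤ D * L ^ C := by nlinarith [hLp C]
  have hD1' : (1 : ℝ) ≤ D := by linarith
  obtain ⟨Y1, hY1⟩ : ∃ Y1 : ℕ, Y1 = ⌊4 * D * L ^ C⌋₊ := ⟨_, rfl⟩
  have hY1le : (Y1 : ℝ) ≤ 4 * D * L ^ C := by rw [hY1]; exact Nat.floor_le (by positivity)
  have hY1ge : 4 * D * L ^ C < Y1 + 1 := by rw [hY1]; exact Nat.lt_floor_add_one _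
  obtain ⟨Y, hY⟩ : ∃ Y : ℕ, Y = ⌊6 * D * L ^ C⌋₊ := ⟨_, rfl⟩
  have hYle : (Y : ℝ) ≤ 6 * D * L ^ C := by rw [hY]; exact Nat.floor_le (by positivity)
  have hYge : 6 * D * L ^ C < Y + 1 := by rw [hY]; exact Nat.lt_floor_add_one _
  obtain ⟨q, hq⟩ : ∃ q : ℕ, q = ⌊(Y : ℝ) / L ^ (2 * Q)⌋₊ := ⟨_, rfl⟩
  have hqle : (q : ℝ) ≤ Y / L ^ (2 * Q) := by rw [hq]; exact Nat.floor_le (by positivity)
  have hqge : (Y : ℝ) / L ^ (2 * Q) < q + 1 := by rw [hq]; exact Nat.lt_floor_add_one _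
  obtain ⟨R, hR⟩ : ∃ R : ℕ, R = ⌊3 * S * L ^ C / g⌋₊ + 1 := ⟨_, rfl⟩
  have hYD : 5 * (D : ℝ) * L ^ C ≤ Y := by linarith
  have hY0 : (0 : ℝ) < Y := by nlinarith
  have hY1Q : 1 ≤ (Y : ℝ) / L ^ (2 * Q) := by
    rw [le_div_iff₀ (by positivity), one_mul]
    linarith
  have hq1 : 1 ≤ q := by
    rw [hq]
    apply Nat.le_floor
    push_cast
    exact hY1Q
  have hq1r : (1 : ℝ) ≤ q := by exact_mod_cast hq1
  have hqY : q ≤ Y := by
    have h1 : (q : ℝ) ≤ Y := hqle.trans (div_le_self hY0.le (hLp _))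
    exact_mod_cast h1
  have hYq : (Y : ℝ) / q ≤ 4 * L ^ (2 * Q) := by
    rw [div_le_iff₀ (by linarith)]
    rw [div_lt_iff₀ (by positivity)] at hqge
    have : 0 < L ^ (2 * Q) := by positivity
    nlinarith
  -- `C1 = C + (3k+4)`
  have hgD : (g : ℝ) * (7 * S * L ^ C) ≤ D := by
    have h1 : (g : ℝ) * (S * L ^ (C + 3 * k + 4)) ≤ D := by
      rwa [le_div_iff₀ (by positivity)] at gf2
    have h2 : (7 : ℝ) ≤ L ^ (3 * k + 4) := by
      have : L ≤ L ^ (3 * k + 4) := le_self_pow₀ hL1 (by omega)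
      linarith
    have h3 : L ^ (C + 3 * k + 4) = L ^ C * L ^ (3 * k + 4) := by rw [← pow_add]; congr 1
    rw [h3] at h1
    have h4 : (g : ℝ) * (7 * S * L ^ C) ≤ (g : ℝ) * (S * (L ^ C * L ^ (3 * k + 4))) := by
      apply mul_le_mul_of_nonneg_left _ gf3.le
      calc 7 * S * L ^ C = (S * L ^ C) * 7 := by ring
        _ ≤ (S * L ^ C) * L ^ (3 * k + 4) := mul_le_mul_of_nonneg_left h2 (by positivity)
        _ = _ := by ring
    linarith
  have hgS : (g : ℝ) ≤ S := by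
    have h1 : (g : ℝ) * (7 * S * L ^ C) ≤ S ^ 2 := by rw [hSX]; linarith
    have h2 : S ≤ 7 * S * L ^ C := by nlinarith [hLp C]
    have h3 : (g : ℝ) * S ≤ S * S := by nlinarith
    exact le_of_mul_le_mul_right h3 hS0
  have hgR : (g : ℝ) * R ≤ 4 * S * L ^ C := by
    have h1 : ((R : ℕ) : ℝ) ≤ 3 * S * L ^ C / g + 1 := by
      rw [hR]; push_cast
      have := Nat.floor_le (show 0 ≤ 3 * S * L ^ C / g by positivity)
      linarith
    have h2 : (g : ℝ) * R ≤ g * (3 * S * L ^ C / g + 1) := mul_le_mul_of_nonneg_left h1 gf3.le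
    have h3 : (g : ℝ) * (3 * S * L ^ C / g + 1) = 3 * S * L ^ C + g := by field_simp
    have h4 : S ≤ S * L ^ C := by nlinarith [hLp C]
    linarith
  have hblock : ∀ u n : ℕ, (u * g : ℝ) ≤ 3 * S * L ^ C → n ∈ Blo g u → |(n : ℝ) ^ 2 - (u * g : ℝ) ^ 2| ≤ D := by
    intro u n hu hn
    unfold Blo at hn
    rw [mem_Ioc] at hn
    have h1 : (u * g : ℝ) ≤ n := by exact_mod_cast hn.1.le
    have h2 : (n : ℝ) ≤ u * g + g := by
      have : (n : ℝ) ≤ ((u + 1) * g : ℕ) := by exact_mod_cast hn.2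
      push_cast at this
      linarith
    have h0 : (0 : ℝ) ≤ u * g := by positivity
    have h3 : 0 ≤ (n : ℝ) ^ 2 - (u * g : ℝ) ^ 2 := by nlinarith
    rw [abs_of_nonneg h3]
    have h4 : (n : ℝ) ^ 2 - (u * g : ℝ) ^ 2 ≤ g * (2 * (u * g) + g) := by nlinarith
    have h5 : (g : ℝ) * (2 * (u * g) + g) ≤ g * (7 * S * L ^ C) := by
      apply mul_le_mul_of_nonneg_left _ gf3.le
      have : S ≤ S * L ^ C := by nlinarith [hLp C]
      linarith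
    linarith
  -- second moment
  have hub : ∀ u < R, (u * g : ℝ) ≤ 3 * S * L ^ C := by
    intro u hu
    have h1 : u ≤ ⌊3 * S * L ^ C / g⌋₊ := by omega
    have h2 : (u : ℝ) ≤ 3 * S * L ^ C / g := by
      have := Nat.floor_le (show 0 ≤ 3 * S * L ^ C / g by positivity)
      have h3 : (u : ℝ) ≤ (⌊3 * S * L ^ C / g⌋₊ : ℕ) := by exact_mod_cast h1
      linarith
    rwa [le_div_iff₀ gf3] at h2
  have hG : ∀ v : ℤ, |P1 v - Mz z v| ≤ 3 * L := by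
    intro v
    rw [← ff_abs]
    exact hffb _
  have hG1 : ∀ v : ℤ, |P1 v| ≤ 3 * L := by
    intro v
    rw [abs_of_nonneg (P1_nonneg v)]
    exact (P1_le v).trans (by linarith)
  have hG2 : ∀ v : ℤ, |Mz z v| ≤ 3 * L := by
    intro v
    rw [abs_of_nonneg (Mz_nonneg z hz1 v)]
    exact (Mz_le z hz1 v).trans (by linarith)
  have hYX : Y ≤ X ^ 2 := by
    have h1 : (Y : ℝ) ≤ (X : ℝ) ^ 2 := by
      have h2 : 6 * L ^ C ≤ S := by
        have h3 : L ^ (C + 1) ≤ L ^ (2 * Q) := pow_le_pow_right₀ hL1 (by omega)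
        rw [pow_succ] at h3
        have : 0 < L ^ C := by positivity
        nlinarith
      have h4 : S ≤ X := by rw [← hSX]; nlinarith
      calc (Y : ℝ) ≤ 6 * D * L ^ C := hYle
        _ = D * (6 * L ^ C) := by ring
        _ ≤ X * X := mul_le_mul hDr (h2.trans h4) (by positivity) hX0.le
        _ = _ := by ring
    exact_mod_cast h1
  have hYS : S ≤ Y := by nlinarith [hLp C]
  have hsupY : ∀ α : ℝ, ‖ES (-(Y : ℤ)) Y (fun n => ((P1 n - Mz z n : ℝ) : ℂ)) α‖ ≤ Y / L ^ (Q + Q) := by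
    intro α
    have h1 := hES Y hYS hYX α
    have e : (fun n : ℤ => ((P1 n - Mz z n : ℝ) : ℂ)) = fun n : ℤ => (ff z |n| : ℂ) := by
      funext n
      rw [ff_abs]
    rw [e]
    exact h1
  have hcard : ∀ u : ℕ, (Icc (((u * g : ℕ) : ℤ) ^ 2 - Y1) (((u * g : ℕ) : ℤ) ^ 2 + Y1)).card ≤ 2 * Y1 + 1 := by
    intro u
    rw [Int.card_Icc]
    omega
  have htm := tuple_moment k P1 (Mz z) (3 * L) (Y / L ^ (Q + Q)) (by linarith) (by positivity) hG1 hG2 hG Y q hq1 hqY hsupY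
    g R (2 * Y1 + 1) (fun u => ((u * g : ℕ) : ℤ) ^ 2 - Y1) (fun u => ((u * g : ℕ) : ℤ) ^ 2 + Y1) hcard (by
      intro u hu n hn K hK
      rw [mem_Icc] at hK
      have h1 := abs_le.1 (hblock u n (hub u hu) hn)
      have h2 : |((n : ℝ) ^ 2 - (K : ℝ))| ≤ Y := by
        have h3 : ((u * g : ℝ)) ^ 2 - Y1 ≤ K := by exact_mod_cast hK.1
        have h4 : (K : ℝ) ≤ ((u * g : ℝ)) ^ 2 + Y1 := by exact_mod_cast hK.2
        rw [abs_le]
        constructor <;> linarith [h1.1, h1.2]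
      exact_mod_cast h2)
  obtain ⟨Bad, hBad1, hBad2⟩ := cheb_blocks R
    (fun u => Fintype.piFinset (fun _ : Fin k => Icc (((u * g : ℕ) : ℤ) ^ 2 - Y1) (((u * g : ℕ) : ℤ) ^ 2 + Y1)))
    (fun u K => ∑ n ∈ Blo g u, (∏ i, P1 ((n : ℤ) ^ 2 - K i) - ∏ i, Mz z ((n : ℤ) ^ 2 - K i)))
    (g / L ^ (3 * k + 4)) _ (by positivity) htm
  refine ⟨Bad, ?_, ?_⟩
  · refine hBad1.trans ?_
    have har := arW k C (C + 3 * k + 4) Q (3 * k + 4) U Q hk hQ2 (by omega) L S X D g R (2 * Y1 + 1) Y q (Y / L ^ (Q + Q))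
      (1 + Real.log (2 * Y)) hL hLk hS0 hSX hD1 gf1 gf2 gf3 (Nat.cast_nonneg R) hgR (by positivity) (by linarith) hY0 hYle
      (by linarith) hqle hYq rfl (by
        have : 0 ≤ Real.log (2 * Y) := Real.log_nonneg (by linarith)
        linarith) (by
        have h1 : (2 * Y : ℝ) ≤ (X : ℝ) ^ 2 := by
          have h2 : 12 * L ^ C ≤ S := by
            have h3 : L ^ (C + 1) ≤ L ^ (2 * Q) := pow_le_pow_right₀ hL1 (by omega)
            rw [pow_succ] at h3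
            have : 0 < L ^ C := by positivity
            nlinarith
          have h4 : S ≤ X := by rw [← hSX]; nlinarith
          calc (2 * Y : ℝ) ≤ 2 * (6 * D * L ^ C) := by linarith
            _ = D * (12 * L ^ C) := by ring
            _ ≤ X * X := mul_le_mul hDr (h2.trans h4) (by positivity) hX0.le
            _ = _ := by ring
        have h2 : Real.log (2 * Y) ≤ Real.log ((X : ℝ) ^ 2) := Real.log_le_log (by linarith) h1
        rw [Real.log_pow, ← hLd] at h2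
        push_cast at h2
        linarith)
    push_cast at har ⊢
    exact har
  · intro g' hg' u hu K hK hKB
    rw [← hg] at hg'
    subst hg'
    have hu2 : u < R := by
      rw [hR, Nat.lt_succ_iff]
      apply Nat.le_floor
      rw [le_div_iff₀ gf3]
      exact hu
    apply hBad2 u hu2 K _ hKB
    rw [Fintype.mem_piFinset]
    intro i
    rw [mem_Icc]
    have h1 := abs_le.1 (hK i)
    have h3 : ((((u * g' : ℕ) : ℤ) ^ 2 - Y1 : ℤ) : ℝ) ≤ K i := by push_cast; linarith [h1.1]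
    have h4 : (K i : ℝ) ≤ ((((u * g' : ℕ) : ℤ) ^ 2 + Y1 : ℤ) : ℝ) := by push_cast; linarith [h1.2]
    exact ⟨by exact_mod_cast h3, by exact_mod_cast h4⟩

end Pool.Agent.X40.HLK
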