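import Pool.Agent.X40.HLK.E8

/-!
One tuple: from the blocks to the windows.
-/

set_option autoImplicit false

namespace Pool.Agent.X40.HLK

open Finset Filter
open Pool.Agent.H373R2.T7 (pz Vz lamz mem_pz Vz_inv_small)
open Pool.Agent.H442R2.EHI (evt_log_pow evt_log_ge)

/-- the values on one block -/
lemma blk_diff (S L D : ℝ) (C g : ℕ) (hL1 : 1 ≤ L) (hS0 : 0 < S) (hDX : D ≤ S ^ 2) (hgD : (g : ℝ) * (7 * S * L ^ C) ≤ D)
    (u n : ℕ) (hu : (u * g : ℝ) ≤ 3 * S * L ^ C) (hn : n ∈ Blo g u) : |(n : ℝ) ^ 2 - (u * g : ℝ) ^ 2| ≤ D := by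
  have hLC : 1 ≤ L ^ C := one_le_pow₀ hL1
  have hg0 : (0 : ℝ) ≤ g := Nat.cast_nonneg g
  have hgS : (g : ℝ) ≤ S := by
    have h1 : (g : ℝ) * (7 * S * L ^ C) ≤ S ^ 2 := hgD.trans hDX
    have h2 : S ≤ 7 * S * L ^ C := by nlinarith
    have h3 : (g : ℝ) * S ≤ S * S := by nlinarith
    exact le_of_mul_le_mul_right h3 hS0
  unfold Blo at hn
  rw [mem_Ioc] at hn
  have h1 : (u * g : ℝ) ≤ n := by exact_mod_cast hn.1.le
  have h2 : (n : ℝ) ≤ u * g + g := by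
    have : (n : ℝ) ≤ ((u + 1) * g : ℕ) := by exact_mod_cast hn.2
    push_cast at this
    linarith
  have h0 : (0 : ℝ) ≤ u * g := by positivity
  have h3 : 0 ≤ (n : ℝ) ^ 2 - (u * g : ℝ) ^ 2 := by nlinarith
  rw [abs_of_nonneg h3]
  have h4 : (n : ℝ) ^ 2 - (u * g : ℝ) ^ 2 ≤ g * (2 * (u * g) + g) := by nlinarith
  have h5 : (g : ℝ) * (2 * (u * g) + g) ≤ g * (7 * S * L ^ C) := by
    apply mul_le_mul_of_nonneg_left _ hg0
    have : S ≤ S * L ^ C := by nlinarith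
    linarith
  linarith

lemma one_tuple {k : ℕ} (hk : 1 ≤ k) (C U : ℕ) (K : Fin k → ℤ) (X D z g : ℕ) (L S : ℝ) (hL : 10000 ≤ L) (hS0 : 0 < S)
    (hSX : S ^ 2 = X) (hDX : (D : ℝ) ≤ X) (hD0 : (0 : ℝ) < D) (hz : 1 ≤ z) (hg : (0 : ℝ) < g)
    (hg1 : D / (2 * S * L ^ (C + 3 * k + 4)) ≤ g) (hgD : (g : ℝ) * (7 * S * L ^ C) ≤ D)
    (hKl : ∀ i, (X : ℝ) / L ^ (U + 2) ≤ K i) (hKu : ∀ i, (K i : ℝ) ≤ X)
    (hblk : ∀ u : ℕ, (u * g : ℝ) ≤ 3 * S * L ^ C → (∀ i, |(K i : ℝ) - (u * g : ℝ) ^ 2| ≤ 3 * D * L ^ C) →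
      |∑ n ∈ Blo g u, (∏ i, P1 ((n : ℤ) ^ 2 - K i) - ∏ i, Mz z ((n : ℤ) ^ 2 - K i))| ≤ g / L ^ (3 * k + 4))
    (q η lD Zb : ℝ) (hq0 : 0 ≤ q) (hq1 : q ≤ 1) (hη0 : 0 ≤ η) (hη1 : η ≤ 1) (hlD : 0 < lD) (hZb : 0 ≤ Zb)
    (hfl : ∀ A : ℕ, |((((Icc 1 g).filter (fun t : ℕ => ∀ p ∈ pz z, ∀ i, ¬ (p : ℤ) ∣ ((A : ℤ) + t) ^ 2 - K i)).card : ℕ) : ℝ) -
      g * VT K z| ≤ q * (g * VT K z) + Zb)
    (hh : 2 ≤ D / L ^ (C + 3 * k + 4 + U + 6))
    (hlow : (1 - η) / lD ^ k ≤ (1 / Real.log (D * L ^ C)) ^ k)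
    (hup : (1 / Real.log (D / L ^ (C + 3 * k + 4 + U + 6))) ^ k ≤ (1 + η) / lD ^ k)
    (hVT : 0 ≤ VT K z) (m N : ℕ) (hmN : m < N)
    (hv : ∀ n ∈ Ioc m N, ∀ i, |((n : ℝ) ^ 2 - K i)| ≤ D * L ^ C) :
    |∑ n ∈ Ioc m N, ∏ i, P1 ((n : ℤ) ^ 2 - K i) - ((N : ℝ) - m) / g * (g * ((Vz z)⁻¹ ^ k * VT K z) / lD ^ k)| ≤
      (2 * k + 2) * (g + g * ((Vz z)⁻¹ ^ k * VT K z) / lD ^ k) +
      ((N : ℝ) - m) / g * (g / L ^ (3 * k + 4) + ((η + 2 * q) * (g * ((Vz z)⁻¹ ^ k * VT K z) / lD ^ k) +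
        2 * ((Vz z)⁻¹ ^ k * Zb) / lD ^ k)) := by
  classical
  have hL0 : 0 < L := by linarith
  have hL1 : 1 ≤ L := by linarith
  have hLp : ∀ n : ℕ, (1 : ℝ) ≤ L ^ n := fun n => one_le_pow₀ hL1
  have hVp : 0 < (Vz z)⁻¹ := inv_pos.2 (Pool.Agent.H373R2.T7.Vz_pos z)
  have hgn : 1 ≤ g := by
    have : 0 < g := by exact_mod_cast hg
    omega
  have hDS : (D : ℝ) ≤ S ^ 2 := by rw [hSX]; exact hDX
  obtain ⟨h, hh'⟩ : ∃ h : ℝ, h = D / L ^ (C + 3 * k + 4 + U + 6) := ⟨_, rfl⟩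
  rw [← hh'] at hh hup
  have hhD : h ≤ D := by rw [hh']; exact div_le_self hD0.le (hLp _)
  have hDL : (D : ℝ) ≤ D * L ^ C := by nlinarith [hLp C]
  refine windows_blocks (fun n => ∏ i, P1 ((n : ℤ) ^ 2 - K i)) (fun n => prod_nonneg fun i _ => P1_nonneg _) (fun n => ?_)
    g m N hgn hmN.le (g * ((Vz z)⁻¹ ^ k * VT K z) / lD ^ k)
    (g / L ^ (3 * k + 4) + ((η + 2 * q) * (g * ((Vz z)⁻¹ ^ k * VT K z) / lD ^ k) + 2 * ((Vz z)⁻¹ ^ k * Zb) / lD ^ k))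
    (2 * k) (by positivity) (by positivity) (fun u => ∀ n ∈ Blo g u, ∀ i, h ≤ |((n : ℝ) ^ 2 - K i)|) ?_ ?_
  · refine (prod_le_one (fun i _ => P1_nonneg _) (fun i _ => P1_le _))
  · intro u hu1 hu2 hgood
    have hsub : ∀ n ∈ Blo g u, n ∈ Ioc m N := by
      intro n hn
      unfold Blo at hn
      rw [mem_Ioc] at hn ⊢
      omega
    have htop : (u + 1) * g ∈ Blo g u := by
      unfold Blo
      rw [mem_Ioc, Nat.succ_mul]
      omega
    have i0 : Fin k := ⟨0, hk⟩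
    have hub : (u * g : ℝ) ≤ 3 * S * L ^ C := by
      have h1 := abs_le.1 (hv _ (hsub _ htop) i0)
      have h2 := hKu i0
      have h3 : (((u + 1) * g : ℕ) : ℝ) ^ 2 ≤ (3 * S * L ^ C) ^ 2 := by
        have h4 : (((u + 1) * g : ℕ) : ℝ) ^ 2 ≤ X + D * L ^ C := by linarith [h1.2]
        have h5 : (X : ℝ) + D * L ^ C ≤ 2 * X * L ^ C := by
          have : (X : ℝ) ≤ X * L ^ C := by
            have hX0 : (0 : ℝ) ≤ X := Nat.cast_nonneg X
            nlinarith [hLp C]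
          have : (D : ℝ) * L ^ C ≤ X * L ^ C := mul_le_mul_of_nonneg_right hDX (by positivity)
          linarith
        have h6 : 2 * (X : ℝ) * L ^ C ≤ (3 * S * L ^ C) ^ 2 := by
          have e : (3 * S * L ^ C) ^ 2 = 9 * (S ^ 2) * (L ^ C * L ^ C) := by ring
          rw [e, hSX]
          have hX0 : (0 : ℝ) ≤ X := Nat.cast_nonneg X
          have h7 : L ^ C ≤ L ^ C * L ^ C := by nlinarith [hLp C]
          have h8 : (X : ℝ) * L ^ C ≤ X * (L ^ C * L ^ C) := mul_le_mul_of_nonneg_left h7 hX0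
          nlinarith [mul_nonneg hX0 (show (0:ℝ) ≤ L ^ C * L ^ C by positivity)]
        linarith
      have h4 : (((u + 1) * g : ℕ) : ℝ) ≤ 3 * S * L ^ C := le_of_sq_le_sq h3 (by positivity)
      push_cast at h4
      linarith
    have hKu' : ∀ i, |(K i : ℝ) - (u * g : ℝ) ^ 2| ≤ 3 * D * L ^ C := by
      intro i
      have h1 := abs_le.1 (hv _ (hsub _ htop) i)
      have h2 := abs_le.1 (blk_diff S L D C g hL1 hS0 hDS hgD u _ hub htop)
      rw [abs_le]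
      constructor <;> linarith [h1.1, h1.2, h2.1, h2.2]
    have h3 := hblk u hub hKu'
    have h4 := block_model K z g u 0 hz Zb q hq1 hq0 hfl (D * L ^ C) h lD η hh hη0 hη1 hlD (hhD.trans hDL) hlow hup
      (fun n hn i => ⟨hgood n hn i, hv n (hsub n hn) i⟩) hVT
    rw [sum_sub_distrib] at h3
    have h5 := abs_sub_le (∑ n ∈ Blo g u, ∏ i, P1 ((n : ℤ) ^ 2 - K i)) (∑ n ∈ Blo g u, ∏ i, Mz z ((n : ℤ) ^ 2 - K i))
      (g * ((Vz z)⁻¹ ^ k * VT K z) / lD ^ k)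
    linarith
  · have h1 := few_blocks K g ((m + g - 1) / g) (N / g) hgn h (by
      intro i n1 n2 ha hb hn
      by_contra hc
      push Not at hc
      have ha' := abs_lt.1 ha
      have hb' := abs_lt.1 hb
      have hc' : (n1 : ℝ) + g ≤ n2 := by exact_mod_cast hc
      have hn1 : (0 : ℝ) ≤ n1 := Nat.cast_nonneg _
      have h2 : (g : ℝ) * n2 ≤ (n2 : ℝ) ^ 2 - (n1 : ℝ) ^ 2 := by nlinarith
      have h3 : (g : ℝ) * n2 < 2 * h := by linarith [ha'.1, hb'.2]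
      have h4 : (X : ℝ) / L ^ (2 * (U + 3)) ≤ (n2 : ℝ) ^ 2 := by
        have h5 := hKl i
        have h6 : h ≤ X / L ^ (U + 3) := by
          rw [hh']
          calc (D : ℝ) / L ^ (C + 3 * k + 4 + U + 6) ≤ X / L ^ (C + 3 * k + 4 + U + 6) := by gcongr
            _ ≤ X / L ^ (U + 3) := by
                apply div_le_div_of_nonneg_left (Nat.cast_nonneg X) (by positivity)
                exact pow_le_pow_right₀ hL1 (by omega)
        have h7 : (X : ℝ) / L ^ (2 * (U + 3)) ≤ X / L ^ (U + 3) := by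
          apply div_le_div_of_nonneg_left (Nat.cast_nonneg X) (by positivity)
          exact pow_le_pow_right₀ hL1 (by omega)
        have h8 : (X : ℝ) / L ^ (U + 2) = L * (X / L ^ (U + 3)) := by
          rw [pow_succ L (U + 2)]
          field_simp
        have h9 : 0 ≤ (X : ℝ) / L ^ (U + 3) := by positivity
        rw [h8] at h5
        nlinarith [hb'.1]
      have h5 : S / L ^ (U + 3) ≤ n2 := by
        apply le_of_sq_le_sq _ (Nat.cast_nonneg n2)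
        rw [div_pow, hSX, ← pow_mul, mul_comm (U + 3) 2]
        exact h4
      have h6 : D / (2 * S * L ^ (C + 3 * k + 4)) * (S / L ^ (U + 3)) ≤ g * n2 :=
        mul_le_mul hg1 h5 (by positivity) hg.le
      have h7 : D / (2 * S * L ^ (C + 3 * k + 4)) * (S / L ^ (U + 3)) = L ^ 3 / 2 * h := by
        rw [hh', show C + 3 * k + 4 + U + 6 = (C + 3 * k + 4) + (U + 3) + 3 by ring, pow_add L ((C + 3 * k + 4) + (U + 3)) 3,
          pow_add L (C + 3 * k + 4) (U + 3)]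
        field_simp
      rw [h7] at h6
      have h8 : 4 ≤ L ^ 3 := by
        have : L ≤ L ^ 3 := le_self_pow₀ hL1 (by norm_num)
        linarith
      nlinarith)
    convert h1 using 3

/-- the final arithmetic -/
lemma final_arith (k : ℕ) (Cnt Δ g lk Sz S V Zb L c ε η q κ : ℝ) (hL : 10000 ≤ L) (hc : 0 < c) (hε : 0 < ε) (hε1 : ε ≤ 1)
    (hg : 0 < g) (hΔ : 0 ≤ Δ) (hlk1 : 1 ≤ lk) (hlk : lk ≤ L ^ k) (hgΔ : g ≤ Δ / L ^ (3 * k + 4)) (hSz : c / L ^ (2 * k) ≤ Sz)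
    (hκ : |Sz - S| ≤ κ * S) (hκε : κ ≤ ε / 16) (hS : 0 < S) (hV0 : 0 ≤ V) (hV : V ≤ L) (hZb0 : 0 ≤ Zb) (hZb : L ^ (4 * k + 1) * Zb ≤ g)
    (hη : η ≤ ε / 16) (hq : q ≤ ε / 64) (hLc : 16 * (2 * k + 2) ≤ L * (c * ε)) (hLk : 16 * (2 * k + 2) ≤ L * ε)
    (hw : |Cnt - Δ / g * (g * Sz / lk)| ≤ (2 * k + 2) * (g + g * Sz / lk) +
      Δ / g * (g / L ^ (3 * k + 4) + ((η + 2 * q) * (g * Sz / lk) + 2 * (V ^ k * Zb) / lk))) :
    |Cnt - S * Δ / lk| ≤ ε * (S * Δ / lk) := by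
  have hL0 : 0 < L := by linarith
  have hL1 : 1 ≤ L := by linarith
  have hlk0 : 0 < lk := by linarith
  have hSz0 : 0 < Sz := lt_of_lt_of_le (by positivity) hSz
  have hk0 : (0 : ℝ) ≤ k := Nat.cast_nonneg k
  obtain ⟨M, hM⟩ : ∃ M, M = Sz * Δ / lk := ⟨_, rfl⟩
  have hM0 : 0 ≤ M := by rw [hM]; positivity
  have e1 : Δ / g * (g * Sz / lk) = M := by rw [hM]; field_simp
  -- piece 2: `g * Sz / lk`
  have hΔL : Δ / L ^ (3 * k + 4) * (c * L) ≤ M := by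
    have h1 : c / L ^ (2 * k) / L ^ k ≤ Sz / lk := by
      apply div_le_div₀ hSz0.le hSz hlk0 hlk
    have h2 : Δ * (c / L ^ (2 * k) / L ^ k) ≤ M := by
      rw [hM, mul_comm Sz Δ, mul_div_assoc]
      exact mul_le_mul_of_nonneg_left h1 hΔ
    refine le_trans ?_ h2
    have h3 : Δ * (c / L ^ (2 * k) / L ^ k) = Δ / L ^ (3 * k + 4) * (c * L ^ 4) := by
      rw [show 3 * k + 4 = 2 * k + k + 4 by ring, pow_add L (2 * k + k) 4, pow_add L (2 * k) k]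
      field_simp
    rw [h3]
    apply mul_le_mul_of_nonneg_left _ (by positivity)
    apply mul_le_mul_of_nonneg_left _ hc.le
    exact le_self_pow₀ hL1 (by norm_num)
  have hX1 : (2 * k + 2) * (Δ / L ^ (3 * k + 4)) ≤ ε / 16 * M := by
    have h0 : 0 ≤ Δ / L ^ (3 * k + 4) := by positivity
    have h1 : (16 * (2 * k + 2)) * (Δ / L ^ (3 * k + 4)) ≤ (L * (c * ε)) * (Δ / L ^ (3 * k + 4)) :=
      mul_le_mul_of_nonneg_right hLc h0
    have h2 : (Δ / L ^ (3 * k + 4) * (c * L)) * ε ≤ M * ε := mul_le_mul_of_nonneg_right hΔL hε.le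
    nlinarith
  have hp1 : (2 * k + 2) * g ≤ ε / 16 * M :=
    (mul_le_mul_of_nonneg_left hgΔ (by positivity)).trans hX1
  have hp2 : (2 * k + 2) * (g * Sz / lk) ≤ ε / 16 * M := by
    have h1 : g * Sz / lk ≤ M / L := by
      have h2 : g * Sz / lk ≤ (Δ / L ^ (3 * k + 4)) * Sz / lk := by gcongr
      have h3 : (Δ / L ^ (3 * k + 4)) * Sz / lk = M / L ^ (3 * k + 4) := by rw [hM]; field_simp
      rw [h3] at h2
      refine h2.trans ?_
      apply div_le_div_of_nonneg_left hM0 hL0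
      exact le_self_pow₀ hL1 (by omega)
    have h2 : (2 * k + 2) * (g * Sz / lk) ≤ (2 * k + 2) * (M / L) := mul_le_mul_of_nonneg_left h1 (by positivity)
    refine h2.trans ?_
    rw [mul_div_assoc', div_le_iff₀ hL0]
    nlinarith
  have hp3 : Δ / g * (g / L ^ (3 * k + 4)) ≤ ε / 16 * M := by
    have e : Δ / g * (g / L ^ (3 * k + 4)) = 1 * (Δ / L ^ (3 * k + 4)) := by field_simp
    rw [e]
    refine le_trans ?_ hX1
    apply mul_le_mul_of_nonneg_right _ (by positivity)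
    linarith
  have hp4 : Δ / g * ((η + 2 * q) * (g * Sz / lk)) ≤ 3 * ε / 32 * M := by
    have e : Δ / g * ((η + 2 * q) * (g * Sz / lk)) = (η + 2 * q) * (Δ / g * (g * Sz / lk)) := by ring
    rw [e, e1]
    apply mul_le_mul_of_nonneg_right _ hM0
    linarith
  have hp5 : Δ / g * (2 * (V ^ k * Zb) / lk) ≤ ε / 16 * M := by
    have h1 : V ^ k ≤ L ^ k := pow_le_pow_left₀ hV0 hV k
    have h2 : Zb ≤ g / L ^ (4 * k + 1) := by
      rw [le_div_iff₀ (by positivity)]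
      linarith
    have h3 : Δ / g * (2 * (V ^ k * Zb) / lk) ≤ Δ / g * (2 * (L ^ k * (g / L ^ (4 * k + 1))) / lk) := by gcongr
    have h4 : Δ / g * (2 * (L ^ k * (g / L ^ (4 * k + 1))) / lk) = 2 * Δ / lk / L ^ (3 * k + 1) := by
      rw [show 4 * k + 1 = k + (3 * k + 1) by ring, pow_add L k (3 * k + 1)]
      field_simp
    rw [h4] at h3
    refine h3.trans ?_
    have h5 : Δ / lk * (c / L ^ (2 * k)) ≤ M := by
      rw [hM]
      have : Δ / lk * (c / L ^ (2 * k)) ≤ Δ / lk * Sz := mul_le_mul_of_nonneg_left hSz (by positivity)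
      refine this.trans (le_of_eq ?_)
      ring
    have h6 : 2 * Δ / lk / L ^ (3 * k + 1) * (L * c) ≤ 2 * M := by
      have h7 : 2 * Δ / lk / L ^ (3 * k + 1) * (L * c) = 2 * (Δ / lk * (c / L ^ (2 * k))) / L ^ k := by
        rw [show 3 * k + 1 = 2 * k + k + 1 by ring, pow_succ, pow_add L (2 * k) k]
        field_simp
      rw [h7]
      refine (div_le_self (by positivity) (one_le_pow₀ hL1)).trans ?_
      linarith
    have h8 : 0 ≤ 2 * Δ / lk / L ^ (3 * k + 1) := by positivity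
    have h9 : 32 * (2 * Δ / lk / L ^ (3 * k + 1)) ≤ (L * (c * ε)) * (2 * Δ / lk / L ^ (3 * k + 1)) := by
      apply mul_le_mul_of_nonneg_right _ h8
      linarith
    have h10 : (2 * Δ / lk / L ^ (3 * k + 1) * (L * c)) * ε ≤ 2 * M * ε := mul_le_mul_of_nonneg_right h6 hε.le
    nlinarith
  rw [e1] at hw
  have htot : |Cnt - M| ≤ 11 * ε / 32 * M := by
    refine hw.trans ?_
    have e2 : (2 * k + 2) * (g + g * Sz / lk) +
        Δ / g * (g / L ^ (3 * k + 4) + ((η + 2 * q) * (g * Sz / lk) + 2 * (V ^ k * Zb) / lk)) =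
        (2 * k + 2) * g + (2 * k + 2) * (g * Sz / lk) + Δ / g * (g / L ^ (3 * k + 4)) +
        Δ / g * ((η + 2 * q) * (g * Sz / lk)) + Δ / g * (2 * (V ^ k * Zb) / lk) := by ring
    rw [e2]
    linarith
  obtain ⟨M1, hM1⟩ : ∃ M1, M1 = S * Δ / lk := ⟨_, rfl⟩
  rw [← hM1]
  have hM10 : 0 ≤ M1 := by rw [hM1]; positivity
  have hMM : |M - M1| ≤ ε / 16 * M1 := by
    have e : M - M1 = (Sz - S) * (Δ / lk) := by rw [hM, hM1]; ring
    rw [e, abs_mul, abs_of_nonneg (show 0 ≤ Δ / lk by positivity)]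
    calc |Sz - S| * (Δ / lk) ≤ (κ * S) * (Δ / lk) := mul_le_mul_of_nonneg_right hκ (by positivity)
      _ ≤ (ε / 16 * S) * (Δ / lk) := by gcongr
      _ = ε / 16 * M1 := by rw [hM1]; ring
  have hM2 : M ≤ 2 * M1 := by
    have := (abs_le.1 hMM).2
    nlinarith
  have h1 := abs_le.1 hMM
  have h2 := abs_le.1 htot
  rw [abs_le]
  constructor <;> nlinarith

end Pool.Agent.X40.HLK
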